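import Mathlib

/-!
Coefficients `b_j = 1 / (2 (j + 2))`, `a_j = √b_j` and the dyadic densities
`w φ n k = ∏_{j < n} (1 + a_j φ_j r_j)` on the dyadic interval number `k` of level `n`.
-/

set_option autoImplicit false

open MeasureTheory Finset
open scoped ENNReal NNReal

namespace Pool.Agent.T2H99.RG

/-- The squares of the coefficients. -/
noncomputable def bc (j : ℕ) : ℝ := 1 / (2 * ((j : ℝ) + 2))

/-- The coefficients. -/
noncomputable def ac (j : ℕ) : ℝ := √(bc j)

lemma bc_pos (j : ℕ) : 0 < bc j := by unfold bc; positivity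

lemma bc_le (j : ℕ) : bc j ≤ 1 / 4 := by
  unfold bc
  rw [div_le_div_iff₀ (by positivity) (by norm_num)]
  have : (0 : ℝ) ≤ j := Nat.cast_nonneg j
  linarith

lemma ac_sq (j : ℕ) : ac j * ac j = bc j := Real.mul_self_sqrt (bc_pos j).le

lemma ac_pos (j : ℕ) : 0 < ac j := Real.sqrt_pos.2 (bc_pos j)

lemma ac_le (j : ℕ) : ac j ≤ 1 / 2 := by
  unfold ac
  rw [show (1 / 2 : ℝ) = √(1 / 4) by
    rw [show (1 / 4 : ℝ) = (1 / 2) ^ 2 by norm_num, Real.sqrt_sq (by norm_num)]]
  exact Real.sqrt_le_sqrt (bc_le j)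

/-- The sign of a bit. -/
def sg (b : Bool) : ℝ := if b then 1 else -1

lemma sg_mul_self (b : Bool) : sg b * sg b = 1 := by cases b <;> simp [sg]

lemma sg_not (b : Bool) : sg (!b) = -sg b := by cases b <;> simp [sg]

lemma sg_cases (b : Bool) : sg b = 1 ∨ sg b = -1 := by cases b <;> simp [sg]

/-- The sign of the parity. -/
def ev (k : ℕ) : ℝ := if Even k then 1 else -1

lemma ev_even (k : ℕ) : ev (2 * k) = 1 := by simp [ev]

lemma ev_odd (k : ℕ) : ev (2 * k + 1) = -1 := by
  simp [ev]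

lemma ev_cases (k : ℕ) : ev k = 1 ∨ ev k = -1 := by
  unfold ev; split_ifs <;> simp

/-- The density on the interval number `k` of level `n`. -/
noncomputable def w (φ : ℕ → Bool) : ℕ → ℕ → ℝ
  | 0, k => if k = 0 then 1 else 0
  | n + 1, k => w φ n (k / 2) * (1 + ac n * sg (φ n) * ev k)

lemma fac_pos (φ : ℕ → Bool) (n k : ℕ) : 0 < 1 + ac n * sg (φ n) * ev k := by
  have h1 := ac_pos n
  have h2 := ac_le n
  rcases sg_cases (φ n) with h | h <;> rcases ev_cases k with h' | h' <;> rw [h, h'] <;> linarith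

lemma fac_le (φ : ℕ → Bool) (n k : ℕ) : 1 + ac n * sg (φ n) * ev k ≤ 3 / 2 := by
  have h1 := ac_pos n
  have h2 := ac_le n
  rcases sg_cases (φ n) with h | h <;> rcases ev_cases k with h' | h' <;> rw [h, h'] <;> linarith

lemma w_nonneg (φ : ℕ → Bool) (n k : ℕ) : 0 ≤ w φ n k := by
  induction n generalizing k with
  | zero => simp only [w]; split_ifs <;> norm_num
  | succ n ih => simp only [w]; exact mul_nonneg (ih _) (fac_pos φ n k).le

lemma w_le (φ : ℕ → Bool) (n k : ℕ) : w φ n k ≤ (3 / 2) ^ n := by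
  induction n generalizing k with
  | zero => simp only [w]; split_ifs <;> norm_num
  | succ n ih =>
    simp only [w]
    rw [pow_succ]
    exact mul_le_mul (ih _) (fac_le φ n k) (fac_pos φ n k).le (by positivity)

lemma w_even (φ : ℕ → Bool) (n k : ℕ) :
    w φ (n + 1) (2 * k) = w φ n k * (1 + ac n * sg (φ n)) := by
  simp only [w, ev_even]
  rw [Nat.mul_div_cancel_left k (by norm_num)]
  ring

lemma w_odd (φ : ℕ → Bool) (n k : ℕ) :
    w φ (n + 1) (2 * k + 1) = w φ n k * (1 - ac n * sg (φ n)) := by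
  simp only [w, ev_odd]
  rw [show (2 * k + 1) / 2 = k by omega]
  ring

lemma w_add (φ : ℕ → Bool) (n k : ℕ) :
    w φ (n + 1) (2 * k) + w φ (n + 1) (2 * k + 1) = 2 * w φ n k := by
  rw [w_even, w_odd]; ring

lemma w_zero_of_le (φ : ℕ → Bool) (n k : ℕ) (h : 2 ^ n ≤ k) : w φ n k = 0 := by
  induction n generalizing k with
  | zero => simp only [w]; rw [if_neg]; intro h0; simp [h0] at h
  | succ n ih =>
    simp only [w]
    rw [ih (k / 2) (by rw [pow_succ] at h; omega), zero_mul]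

lemma w_congr {φ ψ : ℕ → Bool} (n : ℕ) (h : ∀ j < n, φ j = ψ j) (k : ℕ) : w φ n k = w ψ n k := by
  induction n generalizing k with
  | zero => rfl
  | succ n ih =>
    simp only [w]
    rw [ih (fun j hj => h j (by omega)), h n (by omega)]

/-- Sum over the two children. -/
lemma sum_range_two_mul {M : Type*} [AddCommMonoid M] (f : ℕ → M) (N : ℕ) :
    ∑ k ∈ range (2 * N), f k = ∑ k ∈ range N, (f (2 * k) + f (2 * k + 1)) := by
  induction N with
  | zero => simp
  | succ N ih =>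
    rw [show 2 * (N + 1) = 2 * N + 1 + 1 by ring, sum_range_succ, sum_range_succ, ih,
      sum_range_succ, add_assoc]

/-- The overlap of two sign sequences. -/
noncomputable def X (φ ψ : ℕ → Bool) (n : ℕ) : ℝ := ∏ j ∈ range n, (1 + bc j * (sg (φ j) * sg (ψ j)))

lemma sum_w_mul_w (φ ψ : ℕ → Bool) (n : ℕ) :
    ∑ k ∈ range (2 ^ n), w φ n k * w ψ n k = 2 ^ n * X φ ψ n := by
  induction n with
  | zero => simp [w, X]
  | succ n ih =>
    rw [pow_succ', sum_range_two_mul]
    have : ∀ k ∈ range (2 ^ n), (w φ (n + 1) (2 * k) * w ψ (n + 1) (2 * k) +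
        w φ (n + 1) (2 * k + 1) * w ψ (n + 1) (2 * k + 1)) =
        (2 * (1 + bc n * (sg (φ n) * sg (ψ n)))) * (w φ n k * w ψ n k) := by
      intro k _
      rw [w_even, w_even, w_odd, w_odd, ← ac_sq]
      ring
    rw [sum_congr rfl this, ← mul_sum, ih]
    unfold X
    rw [prod_range_succ, pow_succ']
    ring

lemma sum_w (φ : ℕ → Bool) (n : ℕ) : ∑ k ∈ range (2 ^ n), w φ n k = 2 ^ n := by
  induction n with
  | zero => simp [w]
  | succ n ih =>
    rw [pow_succ', sum_range_two_mul]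
    simp_rw [w_add]
    rw [← mul_sum, ih, pow_succ']

lemma X_nonneg (φ ψ : ℕ → Bool) (n : ℕ) : 0 ≤ X φ ψ n := by
  refine prod_nonneg fun j _ => ?_
  have h1 := bc_pos j
  have h2 := bc_le j
  rcases sg_cases (φ j) with h | h <;> rcases sg_cases (ψ j) with h' | h' <;> rw [h, h'] <;>
    linarith

lemma X_le (φ ψ : ℕ → Bool) (n : ℕ) : X φ ψ n ≤ √((n : ℝ) + 1) := by
  induction n with
  | zero => simp [X]
  | succ n ih =>
    unfold X
    rw [prod_range_succ]
    have h1 : 1 + bc n * (sg (φ n) * sg (ψ n)) ≤ 1 + bc n := by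
      have h1 := bc_pos n
      rcases sg_cases (φ n) with h | h <;> rcases sg_cases (ψ n) with h' | h' <;> rw [h, h'] <;>
        linarith
    have h0 : 0 ≤ 1 + bc n := by have := bc_pos n; linarith
    have h2 : X φ ψ n * (1 + bc n * (sg (φ n) * sg (ψ n))) ≤ √((n : ℝ) + 1) * (1 + bc n) :=
      (mul_le_mul_of_nonneg_left h1 (X_nonneg φ ψ n)).trans (mul_le_mul_of_nonneg_right ih h0)
    refine h2.trans ?_
    rw [show √((n : ℝ) + 1) * (1 + bc n) = √(((n : ℝ) + 1) * (1 + bc n) ^ 2) by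
      rw [Real.sqrt_mul (by positivity), Real.sqrt_sq h0]]
    refine Real.sqrt_le_sqrt ?_
    push_cast
    unfold bc
    have hn : (0 : ℝ) ≤ n := Nat.cast_nonneg n
    rw [show (1 + 1 / (2 * ((n : ℝ) + 2))) = (2 * n + 5) / (2 * (n + 2)) by field_simp; ring,
      div_pow, ← mul_div_assoc, div_le_iff₀ (by positivity)]
    nlinarith [mul_nonneg hn hn, mul_nonneg hn (mul_nonneg hn hn)]

end Pool.Agent.T2H99.RG
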