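import Pool.Agent.T2H99.RG.A

/-!
Random signs: the exponential moments of the overlap are bounded.
-/

set_option autoImplicit false

open MeasureTheory Finset
open scoped ENNReal NNReal

namespace Pool.Agent.T2H99.RG

/-- A fair coin. -/
noncomputable def coin : Measure Bool := (2⁻¹ : ℝ≥0∞) • Measure.dirac true +
  (2⁻¹ : ℝ≥0∞) • Measure.dirac false

instance : IsProbabilityMeasure coin := by
  constructor
  simp only [coin, Measure.coe_add, Measure.coe_smul, Pi.add_apply, Pi.smul_apply, measure_univ,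
    smul_eq_mul, mul_one]
  exact ENNReal.inv_two_add_inv_two

lemma coin_map_not : coin.map (fun b => !b) = coin := by
  unfold coin
  rw [Measure.map_add _ _ (measurable_of_finite _), Measure.map_smul, Measure.map_smul,
    Measure.map_dirac, Measure.map_dirac]
  simp only [Bool.not_true, Bool.not_false]
  rw [add_comm]

/-- The law of the sequence of signs. -/
noncomputable def signs : Measure (ℕ → Bool) := Measure.infinitePi fun _ => coin

instance : IsProbabilityMeasure signs := by unfold signs; infer_instance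

/-- Change the bit number `n`. -/
def flip (n : ℕ) (φ : ℕ → Bool) : ℕ → Bool := fun i => if i = n then !φ i else φ i

lemma measurable_flip (n : ℕ) : Measurable (flip n) := by
  unfold flip
  refine measurable_pi_lambda _ fun i => ?_
  split_ifs
  · exact (measurable_of_finite (fun b : Bool => !b)).comp (measurable_pi_apply i)
  · exact measurable_pi_apply i

lemma signs_map_flip (n : ℕ) : signs.map (flip n) = signs := by
  unfold signs
  have h : flip n = fun (φ : ℕ → Bool) i => (if i = n then (fun b : Bool => !b) else id) (φ i) := by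
    funext φ i
    unfold flip
    split_ifs <;> rfl
  rw [h, Measure.infinitePi_map_pi (μ := fun _ : ℕ => coin)
    (f := fun i => (if i = n then (fun b : Bool => !b) else id))]
  · congr 1
    funext i
    split_ifs
    · exact coin_map_not
    · exact Measure.map_id
  · intro i
    exact measurable_of_finite _

lemma lintegral_flip (n : ℕ) {F : (ℕ → Bool) → ℝ≥0∞} (hF : Measurable F) :
    2 * ∫⁻ φ, F φ ∂signs = ∫⁻ φ, (F φ + F (flip n φ)) ∂signs := by
  rw [lintegral_add_left hF, two_mul]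
  congr 1
  conv_lhs => rw [← signs_map_flip n]
  rw [lintegral_map hF (measurable_flip n)]

lemma measurable_sg (j : ℕ) : Measurable fun φ : ℕ → Bool => sg (φ j) :=
  (measurable_of_finite sg).comp (measurable_pi_apply j)

lemma measurable_X (ψ : ℕ → Bool) (n : ℕ) : Measurable fun φ => X φ ψ n := by
  unfold X
  refine Finset.measurable_prod _ fun j _ => ?_
  exact ((measurable_sg j).mul_const _).const_mul _ |>.const_add _

lemma X_flip (φ ψ : ℕ → Bool) (n : ℕ) : X (flip n φ) ψ n = X φ ψ n := by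
  unfold X
  refine prod_congr rfl fun j hj => ?_
  have : j ≠ n := by have := mem_range.1 hj; omega
  simp [flip, this]

lemma X_succ (φ ψ : ℕ → Bool) (n : ℕ) :
    X φ ψ (n + 1) = X φ ψ n * (1 + bc n * (sg (φ n) * sg (ψ n))) := by
  unfold X; rw [prod_range_succ]

/-- The exponents. -/
noncomputable def th (n : ℕ) : ℝ := 1 + 1 / √((n : ℝ) + 1)

lemma one_le_th (n : ℕ) : 1 ≤ th n := by
  unfold th
  have : 0 ≤ 1 / √((n : ℝ) + 1) := by positivity
  linarith

lemma th_step (n : ℕ) :
    th (n + 1) + th (n + 1) ^ 2 * √((n : ℝ) + 1) * bc n ^ 2 / 2 ≤ th n := by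
  unfold th bc
  push_cast
  have hn : (0 : ℝ) ≤ n := Nat.cast_nonneg n
  set p := √((n : ℝ) + 1) with hp
  set q := √((n : ℝ) + 1 + 1) with hq
  have hp2 : p ^ 2 = n + 1 := Real.sq_sqrt (by positivity)
  have hq2 : q ^ 2 = n + 2 := by
    rw [hq, Real.sq_sqrt (by positivity)]; ring
  have hp0 : 0 < p := Real.sqrt_pos.2 (by positivity)
  have hq1 : 1 ≤ q := by
    rw [hq]; exact Real.one_le_sqrt.2 (by linarith)
  have hq0 : 0 < q := by linarith
  have hpq : p ≤ q := Real.sqrt_le_sqrt (by linarith)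
  rw [← hq2]
  have key : (1 + 1 / q) ^ 2 * p * (1 / (2 * q ^ 2)) ^ 2 / 2 ≤ 1 / p - 1 / q := by
    have e1 : (1 + 1 / q) ^ 2 * p * (1 / (2 * q ^ 2)) ^ 2 / 2 = (q + 1) ^ 2 * p / (8 * q ^ 6) := by
      field_simp
      ring
    have e2 : 1 / p - 1 / q = 1 / (p * q * (p + q)) := by
      have h3 : q ^ 2 - p ^ 2 = 1 := by rw [hq2, hp2]; ring
      field_simp
      nlinarith
    rw [e1, e2, div_le_div_iff₀ (by positivity) (by positivity), one_mul]
    have h4 : (q + 1) ^ 2 ≤ 4 * q ^ 2 := by nlinarith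
    have h5 : p ^ 2 * (p + q) ≤ q ^ 2 * (2 * q) := by
      have : p ^ 2 ≤ q ^ 2 := by nlinarith
      exact mul_le_mul this (by linarith) (by positivity) (by positivity)
    calc (q + 1) ^ 2 * p * (p * q * (p + q)) = (q + 1) ^ 2 * (q * (p ^ 2 * (p + q))) := by ring
      _ ≤ (4 * q ^ 2) * (q * (q ^ 2 * (2 * q))) := by gcongr
      _ = 8 * q ^ 6 := by ring
  linarith

lemma cosh_bd (θ x b s : ℝ) (hs : s = 1 ∨ s = -1) :
    Real.exp (θ * (x * (1 + b * s))) + Real.exp (θ * (x * (1 + b * (-s)))) ≤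
      2 * Real.exp (θ * x + θ ^ 2 * x ^ 2 * b ^ 2 / 2) := by
  have h1 := Real.cosh_le_exp_half_sq (θ * x * b * s)
  have h2 : Real.exp (θ * (x * (1 + b * s))) + Real.exp (θ * (x * (1 + b * (-s)))) =
      2 * (Real.exp (θ * x) * Real.cosh (θ * x * b * s)) := by
    rw [Real.cosh_eq]
    rw [show θ * (x * (1 + b * s)) = θ * x + θ * x * b * s by ring,
      show θ * (x * (1 + b * (-s))) = θ * x + -(θ * x * b * s) by ring, Real.exp_add,
      Real.exp_add]
    ring
  rw [h2, Real.exp_add]
  have h3 : (θ * x * b * s) ^ 2 / 2 = θ ^ 2 * x ^ 2 * b ^ 2 / 2 := by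
    rcases hs with h | h <;> rw [h] <;> ring
  rw [h3] at h1
  have := mul_le_mul_of_nonneg_left h1 (Real.exp_pos (θ * x)).le
  linarith

theorem exp_moment (ψ : ℕ → Bool) (n : ℕ) :
    ∫⁻ φ, ENNReal.ofReal (Real.exp (th n * X φ ψ n)) ∂signs ≤ ENNReal.ofReal (Real.exp 2) := by
  induction n with
  | zero =>
    simp [X, th]
    norm_num
  | succ n ih =>
    refine le_trans ?_ ih
    have hmeas : Measurable fun φ => ENNReal.ofReal (Real.exp (th (n + 1) * X φ ψ (n + 1))) :=
      (Real.measurable_exp.comp ((measurable_X ψ (n + 1)).const_mul _)).ennreal_ofReal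
    have h2 := lintegral_flip n hmeas
    have hle : ∀ φ, ENNReal.ofReal (Real.exp (th (n + 1) * X φ ψ (n + 1))) +
        ENNReal.ofReal (Real.exp (th (n + 1) * X (flip n φ) ψ (n + 1))) ≤
        2 * ENNReal.ofReal (Real.exp (th n * X φ ψ n)) := by
      intro φ
      rw [← ENNReal.ofReal_add (Real.exp_pos _).le (Real.exp_pos _).le,
        show (2 : ℝ≥0∞) = ENNReal.ofReal 2 by norm_num, ← ENNReal.ofReal_mul (by norm_num)]
      refine ENNReal.ofReal_le_ofReal ?_
      rw [X_succ, X_succ, X_flip]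
      have hs : sg (flip n φ n) * sg (ψ n) = -(sg (φ n) * sg (ψ n)) := by
        simp only [flip, if_true, sg_not]
        ring
      rw [hs]
      have hs2 : sg (φ n) * sg (ψ n) = 1 ∨ sg (φ n) * sg (ψ n) = -1 := by
        rcases sg_cases (φ n) with h | h <;> rcases sg_cases (ψ n) with h' | h' <;> rw [h, h'] <;>
          norm_num
      refine (cosh_bd _ _ _ _ hs2).trans ?_
      refine mul_le_mul_of_nonneg_left (Real.exp_le_exp.2 ?_) (by norm_num)
      have h3 := th_step n
      have h4 := X_le φ ψ n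
      have h5 := X_nonneg φ ψ n
      have h6 : X φ ψ n ^ 2 ≤ X φ ψ n * √((n : ℝ) + 1) := by nlinarith
      have h7 : 0 ≤ th (n + 1) ^ 2 * bc n ^ 2 / 2 := by positivity
      calc th (n + 1) * X φ ψ n + th (n + 1) ^ 2 * X φ ψ n ^ 2 * bc n ^ 2 / 2 =
          th (n + 1) * X φ ψ n + (th (n + 1) ^ 2 * bc n ^ 2 / 2) * X φ ψ n ^ 2 := by ring
        _ ≤ th (n + 1) * X φ ψ n + (th (n + 1) ^ 2 * bc n ^ 2 / 2) *
            (X φ ψ n * √((n : ℝ) + 1)) := by gcongr
        _ = (th (n + 1) + th (n + 1) ^ 2 * √((n : ℝ) + 1) * bc n ^ 2 / 2) * X φ ψ n := by ring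
        _ ≤ th n * X φ ψ n := by gcongr
    have h3 : 2 * ∫⁻ φ, ENNReal.ofReal (Real.exp (th (n + 1) * X φ ψ (n + 1))) ∂signs ≤
        2 * ∫⁻ φ, ENNReal.ofReal (Real.exp (th n * X φ ψ n)) ∂signs := by
      rw [h2, ← lintegral_const_mul]
      · exact lintegral_mono hle
      · exact (Real.measurable_exp.comp ((measurable_X ψ n).const_mul _)).ennreal_ofReal
    exact (ENNReal.mul_le_mul_iff_right (by norm_num) (by norm_num)).1 h3

theorem exp_moment_one (ψ : ℕ → Bool) (n : ℕ) :
    ∫⁻ φ, ENNReal.ofReal (Real.exp (X φ ψ n)) ∂signs ≤ ENNReal.ofReal (Real.exp 2) := by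
  refine le_trans (lintegral_mono fun φ => ?_) (exp_moment ψ n)
  refine ENNReal.ofReal_le_ofReal (Real.exp_le_exp.2 ?_)
  have h1 := one_le_th n
  have h2 := X_nonneg φ ψ n
  nlinarith

end Pool.Agent.T2H99.RG
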