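import Mathlib

/-!
Finite dimensional Gaussian shifts, and exponential martingales along a sequence of independent
Gaussian variables.
-/

set_option autoImplicit false

open MeasureTheory ProbabilityTheory Finset
open scoped ENNReal NNReal

namespace Pool.Agent.T2H99.RG

lemma lintegral_fin_prod {n : ℕ} {E : Fin n → Type*}
    {mE : ∀ i, MeasurableSpace (E i)} {μ : (i : Fin n) → Measure (E i)}
    [∀ i, IsProbabilityMeasure (μ i)]
    (f : (i : Fin n) → E i → ℝ≥0∞) (hf : ∀ i, Measurable (f i)) :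
    ∫⁻ x : (i : Fin n) → E i, ∏ i, f i (x i) ∂(Measure.pi μ) = ∏ i, ∫⁻ x, f i x ∂(μ i) := by
  have hind : iIndepFun (fun (i : Fin n) (x : (i : Fin n) → E i) => f i (x i)) (Measure.pi μ) :=
    iIndepFun_pi (fun i => (hf i).aemeasurable)
  rw [lintegral_prod_eq_prod_lintegral_of_indepFun Finset.univ _ hind
    (fun i => (hf i).comp (measurable_pi_apply i))]
  refine Finset.prod_congr rfl fun i _ => ?_
  have := (measurePreserving_eval μ i).map_eq
  rw [← this, lintegral_map (hf i) (measurable_pi_apply i)]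

lemma pi_withDensity {n : ℕ} {E : Fin n → Type*}
    {mE : ∀ i, MeasurableSpace (E i)} {μ : (i : Fin n) → Measure (E i)}
    [∀ i, IsProbabilityMeasure (μ i)]
    (f : (i : Fin n) → E i → ℝ≥0∞) (hf : ∀ i, Measurable (f i))
    [∀ i, SigmaFinite ((μ i).withDensity (f i))] :
    Measure.pi (fun i => (μ i).withDensity (f i)) =
      (Measure.pi μ).withDensity (fun x => ∏ i, f i (x i)) := by
  refine Measure.pi_eq fun s hs => ?_
  rw [withDensity_apply _ (MeasurableSet.univ_pi hs),
    ← lintegral_indicator (MeasurableSet.univ_pi hs)]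
  have e : (fun x : (i : Fin n) → E i => (Set.univ.pi s).indicator (fun x => ∏ i, f i (x i)) x) =
      fun x => ∏ i, (s i).indicator (f i) (x i) := by
    funext x
    by_cases hx : x ∈ Set.univ.pi s
    · rw [Set.indicator_of_mem hx]
      refine Finset.prod_congr rfl fun i _ => ?_
      rw [Set.indicator_of_mem (hx i (Set.mem_univ i))]
    · rw [Set.indicator_of_notMem hx]
      have : ∃ i, x i ∉ s i := by
        by_contra hcon
        push Not at hcon
        exact hx (fun i _ => hcon i)
      obtain ⟨i, hi⟩ := this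
      symm
      apply Finset.prod_eq_zero (Finset.mem_univ i)
      rw [Set.indicator_of_notMem hi]
  rw [e, lintegral_fin_prod _ fun i => (hf i).indicator (hs i)]
  refine Finset.prod_congr rfl fun i _ => ?_
  rw [lintegral_indicator (hs i), withDensity_apply _ (hs i)]

/-- The density of the shifted Gaussian law. -/
noncomputable def rho (δ : ℝ≥0) (c z : ℝ) : ℝ≥0∞ :=
  ENNReal.ofReal (Real.exp (c * z - δ * c ^ 2 / 2))

lemma measurable_rho (δ : ℝ≥0) (c : ℝ) : Measurable (rho δ c) := by
  unfold rho; fun_prop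

lemma gaussian_shift {δ : ℝ≥0} (hδ : δ ≠ 0) (c : ℝ) :
    (gaussianReal 0 δ).withDensity (rho δ c) = gaussianReal (δ * c) δ := by
  rw [gaussianReal_of_var_ne_zero _ hδ, gaussianReal_of_var_ne_zero _ hδ,
    ← withDensity_mul _ (measurable_gaussianPDF _ _) (measurable_rho δ c)]
  congr 1
  funext x
  simp only [Pi.mul_apply, gaussianPDF, rho, gaussianPDFReal]
  rw [← ENNReal.ofReal_mul (by positivity), mul_assoc, ← Real.exp_add]
  congr 3
  have : (δ : ℝ) ≠ 0 := by exact_mod_cast hδ
  field_simp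
  ring

lemma lintegral_rho {δ : ℝ≥0} (hδ : δ ≠ 0) (c : ℝ) :
    ∫⁻ z, rho δ c z ∂(gaussianReal 0 δ) = 1 := by
  have h := congrArg (fun μ => μ Set.univ) (gaussian_shift hδ c)
  simp only [measure_univ] at h
  rwa [withDensity_apply _ MeasurableSet.univ, Measure.restrict_univ] at h

/-- Shift of a Gaussian vector with independent coordinates. -/
lemma pi_shift {δ : ℝ≥0} (hδ : δ ≠ 0) {n : ℕ} (c : Fin n → ℝ) {g : (Fin n → ℝ) → ℝ≥0∞}
    (hg : Measurable g) :
    ∫⁻ z, g (fun i => z i + δ * c i) ∂(Measure.pi fun _ : Fin n => gaussianReal 0 δ) =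
      ∫⁻ z, g z * ∏ i, rho δ (c i) (z i) ∂(Measure.pi fun _ : Fin n => gaussianReal 0 δ) := by
  have hsf : ∀ i : Fin n, SigmaFinite ((gaussianReal 0 δ).withDensity (rho δ (c i))) := by
    intro i
    rw [gaussian_shift hδ]
    infer_instance
  have h1 : (Measure.pi fun _ : Fin n => gaussianReal 0 δ).map (fun z i => z i + δ * c i) =
      (Measure.pi fun _ : Fin n => gaussianReal 0 δ).withDensity
        (fun x => ∏ i, rho δ (c i) (x i)) := by
    rw [← pi_withDensity (fun i => rho δ (c i)) (fun i => measurable_rho δ (c i))]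
    have hf : ∀ i : Fin n, AEMeasurable (fun x : ℝ => x + δ * c i) (gaussianReal 0 δ) :=
      fun i => (measurable_id.add_const _).aemeasurable
    have hsf' : ∀ i : Fin n, SigmaFinite ((gaussianReal 0 δ).map (fun x : ℝ => x + δ * c i)) := by
      intro i
      rw [gaussianReal_map_add_const]
      infer_instance
    rw [Measure.pi_map_pi hf]
    congr 1
    funext i
    rw [gaussianReal_map_add_const, gaussian_shift hδ, zero_add]
  have hm : Measurable fun (z : Fin n → ℝ) i => z i + δ * c i := by fun_prop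
  have hm2 : Measurable fun x : Fin n → ℝ => ∏ i, rho δ (c i) (x i) :=
    Finset.measurable_prod _ fun i _ => (measurable_rho δ (c i)).comp (measurable_pi_apply i)
  rw [← lintegral_map hg hm, h1, lintegral_withDensity_eq_lintegral_mul _ hm2 hg]
  refine lintegral_congr fun z => ?_
  rw [Pi.mul_apply, mul_comm]

lemma pi_rho_one {δ : ℝ≥0} (hδ : δ ≠ 0) {n : ℕ} (c : Fin n → ℝ) :
    ∫⁻ z, ∏ i, rho δ (c i) (z i) ∂(Measure.pi fun _ : Fin n => gaussianReal 0 δ) = 1 := by
  rw [lintegral_fin_prod _ fun i => measurable_rho δ (c i)]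
  simp [lintegral_rho hδ]

/-- The partial sums, stopped at `k`. -/
def path (k : ℕ) (z : ℕ → ℝ) : ℕ → ℝ := fun j => ∑ i ∈ range (min j k), z i

lemma measurable_path (k : ℕ) : Measurable (path k) := by
  unfold path
  refine measurable_pi_lambda _ fun j => ?_
  exact Finset.measurable_sum _ fun i _ => measurable_pi_apply i

lemma path_congr {k : ℕ} {z z' : ℕ → ℝ} (h : ∀ i < k, z i = z' i) : path k z = path k z' := by
  funext j
  unfold path
  refine sum_congr rfl fun i hi => h i ?_
  have := mem_range.1 hi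
  omega

/-- The exponent of the exponential martingale. -/
noncomputable def fexp (δ : ℝ) (U : ℕ → (ℕ → ℝ) → ℝ) (n : ℕ) (z : ℕ → ℝ) : ℝ :=
  ∑ k ∈ range n, (U k (path k z) * z k - δ * U k (path k z) ^ 2 / 2)

lemma measurable_fexp (δ : ℝ) {U : ℕ → (ℕ → ℝ) → ℝ} (hU : ∀ k, Measurable (U k)) (n : ℕ) :
    Measurable (fexp δ U n) := by
  unfold fexp
  refine Finset.measurable_sum _ fun k _ => ?_
  have h1 : Measurable fun z : ℕ → ℝ => U k (path k z) := (hU k).comp (measurable_path k)
  exact (h1.mul (measurable_pi_apply k)).sub (((h1.pow_const 2).const_mul δ).div_const 2)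

lemma fexp_congr {δ : ℝ} {U : ℕ → (ℕ → ℝ) → ℝ} {n : ℕ} {z z' : ℕ → ℝ} (h : ∀ i < n, z i = z' i) :
    fexp δ U n z = fexp δ U n z' := by
  unfold fexp
  refine sum_congr rfl fun k hk => ?_
  have hk' := mem_range.1 hk
  rw [path_congr (z := z) (z' := z') fun i hi => h i (by omega), h k hk']

/-- extension by zero -/
noncomputable def ext0 {n : ℕ} (x : Fin n → ℝ) : ℕ → ℝ := fun i => if h : i < n then x ⟨i, h⟩ else 0

lemma measurable_ext0 {n : ℕ} : Measurable (ext0 (n := n)) := by
  unfold ext0
  refine measurable_pi_lambda _ fun i => ?_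
  by_cases h : i < n
  · simp only [h, dif_pos]; exact measurable_pi_apply _
  · simp only [h, dif_neg, not_false_eq_true]; exact measurable_const

variable {Ω : Type*} {mΩ : MeasurableSpace Ω} {P : Measure Ω} [IsProbabilityMeasure P]

/-- Integrals of functions of a variable and an independent one. -/
lemma lintegral_indep {A B : Type*} [MeasurableSpace A] [MeasurableSpace B] {Y : Ω → A}
    {Z : Ω → B} (hY : Measurable Y) (hZ : Measurable Z) (hind : IndepFun Y Z P)
    {g : A → B → ℝ≥0∞} (hg : Measurable fun p : A × B => g p.1 p.2) :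
    ∫⁻ ω, g (Y ω) (Z ω) ∂P = ∫⁻ ω, (∫⁻ b, g (Y ω) b ∂(P.map Z)) ∂P := by
  have h1 := (indepFun_iff_map_prod_eq_prod_map_map hY.aemeasurable hZ.aemeasurable).1 hind
  have h2 : ∫⁻ ω, g (Y ω) (Z ω) ∂P = ∫⁻ p, g p.1 p.2 ∂(P.map fun ω => (Y ω, Z ω)) := by
    rw [lintegral_map hg (hY.prodMk hZ)]
  have : IsProbabilityMeasure (P.map Z) := Measure.isProbabilityMeasure_map hZ.aemeasurable
  have : IsProbabilityMeasure (P.map Y) := Measure.isProbabilityMeasure_map hY.aemeasurable
  rw [h2, h1, lintegral_prod _ hg.aemeasurable, lintegral_map _ hY]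
  exact hg.lintegral_prod_right'

omit [IsProbabilityMeasure P] in
lemma indep_past {Z : ℕ → Ω → ℝ} (hZ : iIndepFun Z P) (hm : ∀ k, Measurable (Z k)) (n : ℕ) :
    IndepFun (fun ω (i : Fin n) => Z i ω) (Z n) P := by
  have h := hZ.indepFun_finset (range n) {n} (by simp) hm
  exact h.comp (φ := fun (x : range n → ℝ) (i : Fin n) => x ⟨i, mem_range.2 i.2⟩)
    (ψ := fun (x : ({n} : Finset ℕ) → ℝ) => x ⟨n, mem_singleton_self n⟩)
    (measurable_pi_lambda _ fun i => measurable_pi_apply _) (measurable_pi_apply _)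

theorem lintegral_exp_fexp {δ : ℝ≥0} (hδ : δ ≠ 0) {Z : ℕ → Ω → ℝ} (hZ : iIndepFun Z P)
    (hm : ∀ k, Measurable (Z k)) (hlaw : ∀ k, P.map (Z k) = gaussianReal 0 δ)
    {U : ℕ → (ℕ → ℝ) → ℝ} (hU : ∀ k, Measurable (U k)) (n : ℕ) :
    ∫⁻ ω, ENNReal.ofReal (Real.exp (fexp δ U n (fun i => Z i ω))) ∂P = 1 := by
  induction n with
  | zero => simp [fexp]
  | succ n ih =>
    rw [← ih]
    set Y : Ω → Fin n → ℝ := fun ω i => Z i ω with hY
    have hYm : Measurable Y := measurable_pi_lambda _ fun i => hm i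
    set g : (Fin n → ℝ) → ℝ → ℝ≥0∞ := fun x z =>
      ENNReal.ofReal (Real.exp (fexp δ U n (ext0 x))) * rho δ (U n (path n (ext0 x))) z with hg
    have hu : Measurable fun x : Fin n → ℝ => U n (path n (ext0 x)) :=
      (hU n).comp ((measurable_path n).comp measurable_ext0)
    have hf : Measurable fun x : Fin n → ℝ => ENNReal.ofReal (Real.exp (fexp δ U n (ext0 x))) :=
      (Real.measurable_exp.comp ((measurable_fexp δ hU n).comp measurable_ext0)).ennreal_ofReal
    have hgm : Measurable fun p : (Fin n → ℝ) × ℝ => g p.1 p.2 := by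
      rw [hg]
      refine (hf.comp measurable_fst).mul ?_
      unfold rho
      refine (Real.measurable_exp.comp ?_).ennreal_ofReal
      exact ((hu.comp measurable_fst).mul measurable_snd).sub
        ((((hu.comp measurable_fst).pow_const 2).const_mul _).div_const _)
    have e0 : ∀ ω, ∀ i < n, ext0 (Y ω) i = Z i ω := by
      intro ω i hi
      simp [ext0, hi, hY]
    have e1 : ∀ ω, ENNReal.ofReal (Real.exp (fexp δ U (n + 1) (fun i => Z i ω))) =
        g (Y ω) (Z n ω) := by
      intro ω
      rw [hg]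
      simp only [rho]
      rw [← ENNReal.ofReal_mul (Real.exp_pos _).le, ← Real.exp_add]
      congr 2
      rw [fexp_congr (z := ext0 (Y ω)) (z' := fun i => Z i ω) (e0 ω),
        path_congr (z := ext0 (Y ω)) (z' := fun i => Z i ω) (e0 ω)]
      unfold fexp
      rw [sum_range_succ]
    simp_rw [e1]
    rw [lintegral_indep hYm (hm n) (indep_past hZ hm n) hgm]
    refine lintegral_congr fun ω => ?_
    rw [hg, hlaw]
    simp only
    rw [lintegral_const_mul _ (measurable_rho _ _), lintegral_rho hδ, mul_one,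
      fexp_congr (z := ext0 (Y ω)) (z' := fun i => Z i ω) (e0 ω)]

end Pool.Agent.T2H99.RG
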