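import Pool.Agent.Helper41.Exist

/-!
A Brownian motion with all paths continuous.
-/

set_option autoImplicit false

open MeasureTheory ProbabilityTheory Finset Filter
open scoped ENNReal NNReal Topology

namespace Pool.Agent.T2H99.RG

/-- A standard Brownian motion all of whose paths are continuous and start at `0`. -/
structure NiceBM {Ω : Type*} {mΩ : MeasurableSpace Ω} (P : Measure Ω) (W : ℝ≥0 → Ω → ℝ) : Prop where
  meas : ∀ t, Measurable (W t)
  cont : ∀ ω, Continuous fun t => W t ω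
  zero : ∀ ω, W 0 ω = 0
  bm : IsPreBrownianReal W P

theorem exists_nice : ∃ (Ω : Type) (_ : MeasurableSpace Ω) (P : Measure Ω)
    (_ : IsProbabilityMeasure P) (W : ℝ≥0 → Ω → ℝ), NiceBM P W := by
  obtain ⟨Ω, mΩ, P, hP, X, hX, hc⟩ := Pool.Agent.Helper41.exists_sheet 1
  have h1 : IsGaussianProcess (fun (t : ℝ≥0) ω => X (0, t, 1) ω) P :=
    hX.gauss.comp_right (fun t : ℝ≥0 => ((0, t, 1) : Fin 1 × ℝ≥0 × ℝ≥0))
  have h2 : IsPreBrownianReal (fun (t : ℝ≥0) ω => X (0, t, 1) ω) P := by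
    refine h1.isPreBrownianReal_of_covariance ?_ ?_
    · intro t
      exact hX.char.mean hX.meas _
    · intro s t hst
      have := hX.cov (0, s, 1) (0, t, 1)
      rw [this]
      simp [Pool.Agent.Helper41.sheetK, min_eq_left hst]
  have h0 : ∀ᵐ ω ∂P, X (0, 0, 1) ω = 0 := h2.eval_zero_ae_eq_zero
  refine ⟨Ω, mΩ, P, hP, fun t ω => X (0, t, 1) ω - X (0, 0, 1) ω, fun t => ?_, fun ω => ?_,
    fun ω => sub_self _, ?_⟩
  · exact (hX.meas _).sub (hX.meas _)
  · have h3 : Continuous (fun t : ℝ≥0 => ((t, 1) : ℝ≥0 × ℝ≥0)) := by fun_prop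
    exact ((hc ω 0).comp h3).sub continuous_const
  · refine h2.congr fun t => ?_
    filter_upwards [h0] with ω hω
    rw [hω, sub_zero]

variable {Ω : Type*} {mΩ : MeasurableSpace Ω} {P : Measure Ω} {W : ℝ≥0 → Ω → ℝ}

/-- The dyadic times. -/
noncomputable def dt (m k : ℕ) : ℝ≥0 := (k : ℝ≥0) / 2 ^ m

/-- The dyadic increments. -/
noncomputable def Zi (W : ℝ≥0 → Ω → ℝ) (m k : ℕ) (ω : Ω) : ℝ := W (dt m (k + 1)) ω - W (dt m k) ω

/-- The mesh. -/
noncomputable def dl (m : ℕ) : ℝ≥0 := 1 / 2 ^ m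

lemma dl_ne (m : ℕ) : dl m ≠ 0 := by unfold dl; positivity

lemma dl_coe (m : ℕ) : (dl m : ℝ) = 1 / 2 ^ m := by unfold dl; push_cast; ring

lemma dt_coe (m k : ℕ) : (dt m k : ℝ) = k / 2 ^ m := by unfold dt; push_cast; ring

lemma dt_mono (m : ℕ) : Monotone (dt m) := by
  intro a b h
  unfold dt
  gcongr

lemma NiceBM.iIndep (hW : NiceBM P W) (m : ℕ) : iIndepFun (fun k ω => Zi W m k ω) P :=
  hW.bm.hasIndepIncrements.nat (dt_mono m)

lemma NiceBM.measZ (hW : NiceBM P W) (m k : ℕ) : Measurable (Zi W m k) :=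
  (hW.meas _).sub (hW.meas _)

lemma NiceBM.lawZ (hW : NiceBM P W) (m k : ℕ) : P.map (Zi W m k) = gaussianReal 0 (dl m) := by
  have h := (hW.bm.hasLaw_sub (dt m (k + 1)) (dt m k)).map_eq
  have e : nndist (dt m (k + 1)).1 (dt m k).1 = dl m := by
    apply NNReal.eq
    rw [coe_nndist, Real.dist_eq]
    change |(dt m (k + 1) : ℝ) - (dt m k : ℝ)| = _
    rw [dt_coe, dt_coe, dl_coe]
    push_cast
    rw [← sub_div, add_sub_cancel_left, abs_of_nonneg (by positivity)]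
  rw [e] at h
  exact h

lemma NiceBM.sum_Z (hW : NiceBM P W) (m k : ℕ) (ω : Ω) :
    ∑ i ∈ range k, Zi W m i ω = W (dt m k) ω := by
  unfold Zi
  rw [sum_range_sub (fun i => W (dt m i) ω)]
  have : dt m 0 = 0 := by simp [dt]
  rw [this, hW.zero, sub_zero]

end Pool.Agent.T2H99.RG
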