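import Pool.Agent.T2H99.RG.B
import Pool.Agent.T2H99.RG.C
import Pool.Agent.T2H99.RG.D

/-!
The relative entropy bound for the drift estimated from the discretely observed process.
-/

set_option autoImplicit false

open MeasureTheory ProbabilityTheory Finset Filter
open scoped ENNReal NNReal Topology

namespace Pool.Agent.T2H99.RG

lemma measurable_w (n k : ℕ) : Measurable fun φ : ℕ → Bool => w φ n k := by
  induction n generalizing k with
  | zero => simp only [w]; exact measurable_const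
  | succ n ih =>
    simp only [w]
    exact (ih _).mul ((((measurable_sg n).const_mul _).mul_const _).const_add _)

set_option maxHeartbeats 1000000

variable {Ω : Type*} {mΩ : MeasurableSpace Ω} {P : Measure Ω} {W : ℝ≥0 → Ω → ℝ}

/-- The increments of the observed process. -/
noncomputable def xs (W : ℝ≥0 → Ω → ℝ) (m : ℕ) (φ : ℕ → Bool) (ω : Ω) (i : ℕ) : ℝ :=
  Zi W m i ω + dl m * w φ m i

/-- The likelihood ratio. -/
noncomputable def LL (m : ℕ) (φ : ℕ → Bool) (x : Fin (2 ^ m) → ℝ) : ℝ≥0∞ :=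
  ∏ i : Fin (2 ^ m), rho (dl m) (w φ m i) (x i)

lemma measurable_LL (m : ℕ) :
    Measurable fun p : (ℕ → Bool) × (Fin (2 ^ m) → ℝ) => LL m p.1 p.2 := by
  unfold LL rho
  refine Finset.measurable_prod _ fun i _ => ?_
  refine (Real.measurable_exp.comp ?_).ennreal_ofReal
  have h1 : Measurable fun p : (ℕ → Bool) × (Fin (2 ^ m) → ℝ) => w p.1 m i :=
    (measurable_w m i).comp measurable_fst
  have h2 : Measurable fun p : (ℕ → Bool) × (Fin (2 ^ m) → ℝ) => p.2 i :=
    (measurable_pi_apply i).comp measurable_snd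
  exact (h1.mul h2).sub (((h1.pow_const 2).const_mul _).div_const _)

lemma measurable_LL_left (m : ℕ) (x : Fin (2 ^ m) → ℝ) : Measurable fun φ => LL m φ x := by
  unfold LL rho
  refine Finset.measurable_prod _ fun i _ => ?_
  refine (Real.measurable_exp.comp ?_).ennreal_ofReal
  have h1 : Measurable fun φ : ℕ → Bool => w φ m i := measurable_w m i
  exact (h1.mul_const _).sub (((h1.pow_const 2).const_mul _).div_const _)

lemma measurable_LL_right (m : ℕ) (φ : ℕ → Bool) :
    Measurable fun x : Fin (2 ^ m) → ℝ => LL m φ x := by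
  unfold LL
  exact Finset.measurable_prod _ fun i _ => (measurable_rho _ _).comp (measurable_pi_apply i)

/-- The mixed likelihood ratio. -/
noncomputable def DD (m : ℕ) (x : Fin (2 ^ m) → ℝ) : ℝ≥0∞ := ∫⁻ φ, LL m φ x ∂signs

lemma measurable_DD (m : ℕ) : Measurable (DD m) := by
  unfold DD
  exact (measurable_LL m).lintegral_prod_left'

lemma DD_pos (m : ℕ) (x : Fin (2 ^ m) → ℝ) : DD m x ≠ 0 := by
  unfold DD
  intro h
  rw [lintegral_eq_zero_iff (measurable_LL_left m x)] at h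
  have h2 : ∀ᵐ φ ∂signs, False := by
    filter_upwards [h] with φ hφ
    have : LL m φ x ≠ 0 := by
      unfold LL rho
      rw [Finset.prod_ne_zero_iff]
      intro i _
      exact (ENNReal.ofReal_pos.2 (Real.exp_pos _)).ne'
    exact this hφ
  rw [ae_iff] at h2
  simp at h2

lemma DD_top (m : ℕ) (x : Fin (2 ^ m) → ℝ) : DD m x ≠ ⊤ := by
  have h : ∀ φ, LL m φ x ≤
      ∏ i : Fin (2 ^ m), ENNReal.ofReal (Real.exp ((3 / 2) ^ m * |x i|)) := by
    intro φ
    unfold LL rho
    refine Finset.prod_le_prod' fun i _ => ?_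
    refine ENNReal.ofReal_le_ofReal (Real.exp_le_exp.2 ?_)
    have h1 := w_nonneg φ m i
    have h2 := w_le φ m i
    have h3 : w φ m i * x i ≤ (3 / 2) ^ m * |x i| :=
      (mul_le_mul_of_nonneg_left (le_abs_self _) h1).trans
        (mul_le_mul_of_nonneg_right h2 (abs_nonneg _))
    have h4 : 0 ≤ (dl m : ℝ) * w φ m i ^ 2 / 2 := by positivity
    linarith
  have h2 : DD m x ≤ ∏ i : Fin (2 ^ m), ENNReal.ofReal (Real.exp ((3 / 2) ^ m * |x i|)) := by
    unfold DD
    refine (lintegral_mono h).trans ?_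
    simp
  refine ne_top_of_le_ne_top ?_ h2
  exact ENNReal.prod_ne_top fun i _ => ENNReal.ofReal_ne_top

lemma dl_sum_w (m : ℕ) (φ ψ : ℕ → Bool) :
    ∑ i : Fin (2 ^ m), (dl m : ℝ) * (w φ m i * w ψ m i) = X φ ψ m := by
  rw [← mul_sum, Fin.sum_univ_eq_sum_range (fun i => w φ m i * w ψ m i), sum_w_mul_w, dl_coe]
  field_simp

lemma rho_add (δ : ℝ≥0) (c c' z : ℝ) :
    rho δ c (z + δ * c') = rho δ c z * ENNReal.ofReal (Real.exp (δ * (c * c'))) := by
  unfold rho
  rw [← ENNReal.ofReal_mul (Real.exp_pos _).le, ← Real.exp_add]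
  congr 2
  ring

variable [IsProbabilityMeasure P]

lemma law_Z (hW : NiceBM P W) (m : ℕ) :
    P.map (fun ω (i : Fin (2 ^ m)) => Zi W m i ω) =
      Measure.pi fun _ : Fin (2 ^ m) => gaussianReal 0 (dl m) := by
  have h1 : iIndepFun (fun (k : Fin (2 ^ m)) ω => Zi W m k ω) P :=
    (hW.iIndep m).precomp (g := fun k : Fin (2 ^ m) => (k : ℕ)) Fin.val_injective
  have h2 := (iIndepFun_iff_map_fun_eq_pi_map
    (fun i : Fin (2 ^ m) => (hW.measZ m i).aemeasurable)).1 h1
  rw [h2]
  congr 1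
  funext i
  exact hW.lawZ m i

/-- The Cameron-Martin formula at the dyadic times. -/
lemma cm (hW : NiceBM P W) (m : ℕ) (φ : ℕ → Bool) {g : (Fin (2 ^ m) → ℝ) → ℝ≥0∞}
    (hg : Measurable g) :
    ∫⁻ ω, g (fun i => xs W m φ ω i) ∂P =
      ∫⁻ x, g x * LL m φ x ∂(Measure.pi fun _ : Fin (2 ^ m) => gaussianReal 0 (dl m)) := by
  have hm : Measurable fun ω (i : Fin (2 ^ m)) => Zi W m i ω :=
    measurable_pi_lambda _ fun i => hW.measZ m i
  have h := pi_shift (dl_ne m) (fun i : Fin (2 ^ m) => w φ m i) hg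
  unfold LL
  rw [← h, ← law_Z hW m, lintegral_map ?_ hm]
  · rfl
  · exact hg.comp (measurable_pi_lambda _ fun i => (measurable_pi_apply i).add_const _)

lemma lint_mix (hW : NiceBM P W) (m : ℕ) {g : (Fin (2 ^ m) → ℝ) → ℝ≥0∞} (hg : Measurable g) :
    ∫⁻ p, g (fun i => xs W m p.1 p.2 i) ∂(signs.prod P) =
      ∫⁻ x, g x * DD m x ∂(Measure.pi fun _ : Fin (2 ^ m) => gaussianReal 0 (dl m)) := by
  have hxs : Measurable fun (p : (ℕ → Bool) × Ω) (i : Fin (2 ^ m)) => xs W m p.1 p.2 i := by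
    refine measurable_pi_lambda _ fun i => ?_
    unfold xs
    exact ((hW.measZ m i).comp measurable_snd).add (((measurable_w m i).comp measurable_fst).const_mul _)
  have hgx : Measurable fun (p : (ℕ → Bool) × Ω) => g fun i : Fin (2 ^ m) => xs W m p.1 p.2 i :=
    hg.comp hxs
  rw [lintegral_prod _ hgx.aemeasurable]
  simp_rw [cm hW m _ hg]
  rw [lintegral_lintegral_swap]
  · refine lintegral_congr fun x => ?_
    unfold DD
    rw [lintegral_const_mul _ (measurable_LL_left m x)]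
  · exact ((hg.comp measurable_snd).mul (measurable_LL m)).aemeasurable

lemma measurable_LL_swap (m : ℕ) :
    Measurable fun p : (Fin (2 ^ m) → ℝ) × (ℕ → Bool) => LL m p.2 p.1 := by
  unfold LL rho
  refine Finset.measurable_prod _ fun i _ => ?_
  refine (Real.measurable_exp.comp ?_).ennreal_ofReal
  have h1 : Measurable fun p : (Fin (2 ^ m) → ℝ) × (ℕ → Bool) => w p.2 m i :=
    (measurable_w m i).comp measurable_snd
  have h2 : Measurable fun p : (Fin (2 ^ m) → ℝ) × (ℕ → Bool) => p.1 i :=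
    (measurable_pi_apply i).comp measurable_fst
  exact (h1.mul h2).sub (((h1.pow_const 2).const_mul _).div_const _)

lemma measurable_LL_fst (m : ℕ) (φ : ℕ → Bool) :
    Measurable fun p : (Fin (2 ^ m) → ℝ) × (ℕ → Bool) => LL m φ p.1 := by
  unfold LL
  refine Finset.measurable_prod _ fun i _ => (measurable_rho _ _).comp ?_
  exact (measurable_pi_apply i).comp measurable_fst

lemma lint_LL_LL (m : ℕ) (φ ψ : ℕ → Bool) : ∫⁻ x, LL m ψ x * LL m φ x
      ∂(Measure.pi fun _ : Fin (2 ^ m) => gaussianReal 0 (dl m)) =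
      ENNReal.ofReal (Real.exp (X ψ φ m)) := by
  have hL : Measurable fun x => LL m ψ x := measurable_LL_right m ψ
  have h4 := pi_shift (dl_ne m) (fun i : Fin (2 ^ m) => w φ m i) hL
  refine Eq.trans h4.symm ?_
  unfold LL
  simp_rw [rho_add, Finset.prod_mul_distrib]
  have hL' : Measurable fun x : Fin (2 ^ m) → ℝ => ∏ i : Fin (2 ^ m),
    rho (dl m) (w ψ m i) (x i) := hL
  rw [lintegral_mul_const _ hL', pi_rho_one (dl_ne m), one_mul,
    ← ENNReal.ofReal_prod_of_nonneg fun i _ => (Real.exp_pos _).le, ← Real.exp_sum, ← dl_sum_w]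

lemma lint_D1 (hW : NiceBM P W) (m : ℕ) (φ : ℕ → Bool) :
    ∫⁻ ω, DD m (fun i => xs W m φ ω i) ∂P ≤ ENNReal.ofReal (Real.exp 2) := by
  rw [cm hW m φ (measurable_DD m)]
  have h1 : ∀ x, DD m x * LL m φ x = ∫⁻ ψ, LL m ψ x * LL m φ x ∂signs := by
    intro x
    unfold DD
    rw [← lintegral_mul_const _ (measurable_LL_left m x)]
  simp_rw [h1]
  rw [lintegral_lintegral_swap]
  · simp_rw [lint_LL_LL]
    exact exp_moment_one φ m
  · exact ((measurable_LL_swap m).mul (measurable_LL_fst m φ)).aemeasurable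

omit [IsProbabilityMeasure P] in
lemma measurable_xs (hW : NiceBM P W) (m : ℕ) :
    Measurable fun (p : (ℕ → Bool) × Ω) (i : ℕ) => xs W m p.1 p.2 i := by
  refine measurable_pi_lambda _ fun i => ?_
  unfold xs
  exact ((hW.measZ m i).comp measurable_snd).add (((measurable_w m i).comp measurable_fst).const_mul _)

lemma measurable_xsF (hW : NiceBM P W) (m : ℕ) :
    Measurable fun (p : (ℕ → Bool) × Ω) (i : Fin (2 ^ m)) => xs W m p.1 p.2 i :=
  measurable_pi_lambda _ fun i => (measurable_pi_apply (i : ℕ)).comp (measurable_xs hW m)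

lemma lint_D (hW : NiceBM P W) (m : ℕ) :
    ∫⁻ p, DD m (fun i => xs W m p.1 p.2 i) ∂(signs.prod P) ≤ ENNReal.ofReal (Real.exp 2) := by
  have hm : Measurable fun p : (ℕ → Bool) × Ω => DD m (fun i => xs W m p.1 p.2 i) :=
    (measurable_DD m).comp (measurable_xsF hW m)
  rw [lintegral_prod _ hm.aemeasurable]
  calc ∫⁻ φ, ∫⁻ ω, DD m (fun i => xs W m φ ω i) ∂P ∂signs
      ≤ ∫⁻ _φ, ENNReal.ofReal (Real.exp 2) ∂signs := lintegral_mono fun φ => lint_D1 hW m φ
    _ = _ := by simp

lemma lint_quot (hW : NiceBM P W) (m : ℕ) {U : ℕ → (ℕ → ℝ) → ℝ} (hU : ∀ k, Measurable (U k)) :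
    ∫⁻ p, ENNReal.ofReal (Real.exp (fexp (dl m) U (2 ^ m) (xs W m p.1 p.2))) /
      DD m (fun i => xs W m p.1 p.2 i) ∂(signs.prod P) = 1 := by
  have hg : Measurable fun x : Fin (2 ^ m) → ℝ =>
      ENNReal.ofReal (Real.exp (fexp (dl m) U (2 ^ m) (ext0 x))) / DD m x :=
    (Real.measurable_exp.comp ((measurable_fexp _ hU _).comp measurable_ext0)).ennreal_ofReal.div
      (measurable_DD m)
  have h := lint_mix hW m hg
  have e : ∀ p : (ℕ → Bool) × Ω, fexp (dl m) U (2 ^ m) (ext0 fun i : Fin (2 ^ m) => xs W m p.1 p.2 i)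
      = fexp (dl m) U (2 ^ m) (xs W m p.1 p.2) := by
    intro p
    refine fexp_congr fun i hi => ?_
    simp [ext0, hi]
  simp_rw [e] at h
  rw [h, ← lintegral_exp_fexp (dl_ne m) (hW.iIndep m) (fun k => hW.measZ m k)
    (fun k => hW.lawZ m k) hU (2 ^ m), ← law_Z hW m, lintegral_map]
  · refine lintegral_congr fun ω => ?_
    have e2 : fexp (dl m) U (2 ^ m) (ext0 fun i : Fin (2 ^ m) => Zi W m i ω) =
        fexp (dl m) U (2 ^ m) (fun i => Zi W m i ω) := by
      refine fexp_congr fun i hi => ?_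
      simp [ext0, hi]
    rw [e2, ENNReal.div_mul_cancel (DD_pos m _) (DD_top m _)]
  · exact hg.mul (measurable_DD m)
  · exact measurable_pi_lambda _ fun i => hW.measZ m i

end Pool.Agent.T2H99.RG
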