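import Pool.Agent.T2H99.RG.E

/-!
The relative entropy bound, with Bochner integrals.
-/

set_option autoImplicit false

open MeasureTheory ProbabilityTheory Finset Filter
open scoped ENNReal NNReal Topology

namespace Pool.Agent.T2H99.RG

variable {Ω : Type*} {mΩ : MeasurableSpace Ω} {P : Measure Ω} {W : ℝ≥0 → Ω → ℝ}
  [IsProbabilityMeasure P]

/-- The exponent evaluated at the observed increments. -/
noncomputable def FF (W : ℝ≥0 → Ω → ℝ) (U : ℕ → (ℕ → ℝ) → ℝ) (m : ℕ) (p : (ℕ → Bool) × Ω) : ℝ :=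
  fexp (dl m) U (2 ^ m) (xs W m p.1 p.2)

/-- The predictable integrand evaluated at the observed increments. -/
noncomputable def uu (W : ℝ≥0 → Ω → ℝ) (U : ℕ → (ℕ → ℝ) → ℝ) (m k : ℕ) (p : (ℕ → Bool) × Ω) : ℝ :=
  U k (path k (xs W m p.1 p.2))

omit [IsProbabilityMeasure P] in
lemma measurable_uu (hW : NiceBM P W) {U : ℕ → (ℕ → ℝ) → ℝ} (hU : ∀ k, Measurable (U k)) (m k : ℕ) :
    Measurable (uu W U m k) :=
  (hU k).comp ((measurable_path k).comp (measurable_xs hW m))

omit [IsProbabilityMeasure P] in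
lemma measurable_FF (hW : NiceBM P W) {U : ℕ → (ℕ → ℝ) → ℝ} (hU : ∀ k, Measurable (U k)) (m : ℕ) :
    Measurable (FF W U m) :=
  (measurable_fexp _ hU _).comp (measurable_xs hW m)

lemma integrable_Z (hW : NiceBM P W) (m k : ℕ) : Integrable (Zi W m k) P :=
  (hW.bm.integrable_eval _).sub (hW.bm.integrable_eval _)

lemma integral_Z (hW : NiceBM P W) (m k : ℕ) : ∫ ω, Zi W m k ω ∂P = 0 := by
  unfold Zi
  rw [integral_sub (hW.bm.integrable_eval _) (hW.bm.integrable_eval _), hW.bm.integral_eval,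
    hW.bm.integral_eval, sub_zero]

lemma integral_uu_Z (hW : NiceBM P W) {U : ℕ → (ℕ → ℝ) → ℝ} (hU : ∀ k, Measurable (U k))
    {K : ℝ} (hK : ∀ k y, |U k y| ≤ K) (m k : ℕ) :
    Integrable (fun p => uu W U m k p * Zi W m k p.2) (signs.prod P) ∧
    ∫ p, uu W U m k p * Zi W m k p.2 ∂(signs.prod P) = 0 := by
  have hi : Integrable (fun p : (ℕ → Bool) × Ω => Zi W m k p.2) (signs.prod P) :=
    (integrable_Z hW m k).comp_snd signs
  have hint : Integrable (fun p => uu W U m k p * Zi W m k p.2) (signs.prod P) := by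
    refine hi.bdd_mul (c := K) (measurable_uu hW hU m k).aestronglyMeasurable ?_
    exact Eventually.of_forall fun p => by rw [Real.norm_eq_abs]; exact hK _ _
  refine ⟨hint, ?_⟩
  rw [integral_prod _ hint]
  have h0 : ∀ φ, ∫ ω, uu W U m k (φ, ω) * Zi W m k ω ∂P = 0 := by
    intro φ
    have hind := indep_past (hW.iIndep m) (fun k => hW.measZ m k) k
    set g : (Fin k → ℝ) → ℝ := fun x => U k (path k (fun i => ext0 x i + dl m * w φ m i)) with hg
    have hgm : Measurable g := by
      refine (hU k).comp ((measurable_path k).comp ?_)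
      refine measurable_pi_lambda _ fun i => ?_
      exact ((measurable_pi_apply i).comp measurable_ext0).add_const _
    have e : ∀ ω, uu W U m k (φ, ω) = g (fun i : Fin k => Zi W m i ω) := by
      intro ω
      unfold uu
      rw [hg]
      simp only
      congr 1
      refine path_congr fun i hi => ?_
      simp [ext0, hi, xs]
    have hind2 : IndepFun (fun ω => g (fun i : Fin k => Zi W m i ω)) (fun ω => Zi W m k ω) P :=
      hind.comp (φ := g) (ψ := id) hgm measurable_id
    simp_rw [e]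
    have := hind2.integral_fun_mul_eq_mul_integral
      (hgm.comp (measurable_pi_lambda _ fun i => hW.measZ m i)).aestronglyMeasurable
      (hW.measZ m k).aestronglyMeasurable
    rw [this, integral_Z hW, mul_zero]
  simp_rw [h0]
  simp

lemma integral_FF (hW : NiceBM P W) {U : ℕ → (ℕ → ℝ) → ℝ} (hU : ∀ k, Measurable (U k))
    {K : ℝ} (hK : ∀ k y, |U k y| ≤ K) (m : ℕ) :
    Integrable (FF W U m) (signs.prod P) ∧
    ∫ p, FF W U m p ∂(signs.prod P) = ∑ k ∈ range (2 ^ m),
      (dl m * ∫ p, uu W U m k p * w p.1 m k ∂(signs.prod P) -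
        dl m * (∫ p, uu W U m k p ^ 2 ∂(signs.prod P)) / 2) := by
  have hK0 : 0 ≤ K := (abs_nonneg _).trans (hK 0 (fun _ => 0))
  have i1 := fun k => (integral_uu_Z hW hU hK m k).1
  have hwm : ∀ k, Measurable fun p : (ℕ → Bool) × Ω => w p.1 m k := fun k =>
    (measurable_w m k).comp measurable_fst
  have i2 : ∀ k, Integrable (fun p => uu W U m k p * w p.1 m k) (signs.prod P) := by
    intro k
    refine Integrable.of_bound (C := K * (3 / 2) ^ m)
      ((measurable_uu hW hU m k).mul (hwm k)).aestronglyMeasurable ?_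
    refine Eventually.of_forall fun p => ?_
    rw [norm_mul, Real.norm_eq_abs, Real.norm_eq_abs, abs_of_nonneg (w_nonneg _ _ _)]
    exact mul_le_mul (hK _ _) (w_le _ _ _) (w_nonneg _ _ _) hK0
  have i3 : ∀ k, Integrable (fun p => uu W U m k p ^ 2) (signs.prod P) := by
    intro k
    refine Integrable.of_bound (C := K ^ 2) ((measurable_uu hW hU m k).pow_const 2).aestronglyMeasurable ?_
    refine Eventually.of_forall fun p => ?_
    rw [norm_pow, Real.norm_eq_abs]
    exact pow_le_pow_left₀ (abs_nonneg _) (hK _ _) 2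
  have hterm : ∀ k, Integrable (fun p => uu W U m k p * xs W m p.1 p.2 k -
      dl m * uu W U m k p ^ 2 / 2) (signs.prod P) ∧
      ∫ p, (uu W U m k p * xs W m p.1 p.2 k - dl m * uu W U m k p ^ 2 / 2) ∂(signs.prod P) =
      dl m * ∫ p, uu W U m k p * w p.1 m k ∂(signs.prod P) -
        dl m * (∫ p, uu W U m k p ^ 2 ∂(signs.prod P)) / 2 := by
    intro k
    have e1 : (fun p : (ℕ → Bool) × Ω => uu W U m k p * xs W m p.1 p.2 k) =
        fun p => uu W U m k p * Zi W m k p.2 + dl m * (uu W U m k p * w p.1 m k) := by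
      funext p; unfold xs; ring
    have j1 : Integrable (fun p : (ℕ → Bool) × Ω => uu W U m k p * xs W m p.1 p.2 k)
        (signs.prod P) := by
      rw [e1]; exact (i1 k).add ((i2 k).const_mul _)
    have j2 : Integrable (fun p : (ℕ → Bool) × Ω => dl m * uu W U m k p ^ 2 / 2)
        (signs.prod P) := ((i3 k).const_mul _).div_const _
    refine ⟨j1.sub j2, ?_⟩
    rw [integral_sub j1 j2, e1, integral_add (i1 k) ((i2 k).const_mul _),
      (integral_uu_Z hW hU hK m k).2, zero_add, integral_const_mul, integral_div,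
      integral_const_mul]
  have e2 : FF W U m = fun p => ∑ k ∈ range (2 ^ m), (uu W U m k p * xs W m p.1 p.2 k -
      dl m * uu W U m k p ^ 2 / 2) := by
    funext p
    rfl
  rw [e2]
  refine ⟨integrable_finset_sum _ fun k _ => (hterm k).1, ?_⟩
  rw [integral_finset_sum _ fun k _ => (hterm k).1]
  exact sum_congr rfl fun k _ => (hterm k).2

theorem entropy_bound (hW : NiceBM P W) {U : ℕ → (ℕ → ℝ) → ℝ} (hU : ∀ k, Measurable (U k))
    {K : ℝ} (hK : ∀ k y, |U k y| ≤ K) (m : ℕ) :
    ∑ k ∈ range (2 ^ m),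
      (dl m * ∫ p, uu W U m k p * w p.1 m k ∂(signs.prod P) -
        dl m * (∫ p, uu W U m k p ^ 2 ∂(signs.prod P)) / 2) ≤ Real.exp 2 - 1 := by
  obtain ⟨hFi, hF⟩ := integral_FF hW hU hK m
  rw [← hF]
  set μ := signs.prod P with hμ
  set Dp : (ℕ → Bool) × Ω → ℝ≥0∞ := fun p => DD m (fun i : Fin (2 ^ m) => xs W m p.1 p.2 i) with hD
  set Qp : (ℕ → Bool) × Ω → ℝ≥0∞ := fun p => ENNReal.ofReal (Real.exp (FF W U m p)) / Dp p with hQ
  have hDm : Measurable Dp := (measurable_DD m).comp (measurable_xsF hW m)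
  have hQm : Measurable Qp :=
    (Real.measurable_exp.comp (measurable_FF hW hU m)).ennreal_ofReal.div hDm
  have h1 : ∫⁻ p, Qp p ∂μ = 1 := lint_quot hW m hU
  have h2 : ∫⁻ p, Dp p ∂μ ≤ ENNReal.ofReal (Real.exp 2) := lint_D hW m
  have h2' : ∫⁻ p, Dp p ∂μ ≠ ⊤ := ne_top_of_le_ne_top ENNReal.ofReal_ne_top h2
  have iQ : Integrable (fun p => (Qp p).toReal) μ :=
    integrable_toReal_of_lintegral_ne_top hQm.aemeasurable (by rw [h1]; exact ENNReal.one_ne_top)
  have iD : Integrable (fun p => (Dp p).toReal) μ :=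
    integrable_toReal_of_lintegral_ne_top hDm.aemeasurable h2'
  have e1 : ∫ p, (Qp p).toReal ∂μ = 1 := by
    rw [integral_toReal hQm.aemeasurable, h1, ENNReal.toReal_one]
    exact ae_lt_top hQm (by rw [h1]; exact ENNReal.one_ne_top)
  have e2 : ∫ p, (Dp p).toReal ∂μ ≤ Real.exp 2 := by
    rw [integral_toReal hDm.aemeasurable (ae_lt_top hDm h2')]
    refine ENNReal.toReal_le_of_le_ofReal (Real.exp_pos _).le h2
  have hpt : ∀ p, FF W U m p ≤ (Qp p).toReal + (Dp p).toReal - 2 := by
    intro p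
    have hd0 : 0 < (Dp p).toReal := ENNReal.toReal_pos (DD_pos m _) (DD_top m _)
    have hq : (Qp p).toReal = Real.exp (FF W U m p) / (Dp p).toReal := by
      rw [hQ]
      simp only
      rw [ENNReal.toReal_div, ENNReal.toReal_ofReal (Real.exp_pos _).le]
    have a1 := Real.log_le_sub_one_of_pos (div_pos (Real.exp_pos (FF W U m p)) hd0)
    rw [Real.log_div (Real.exp_pos _).ne' hd0.ne', Real.log_exp] at a1
    have a2 := Real.log_le_sub_one_of_pos hd0
    rw [hq]
    linarith
  calc ∫ p, FF W U m p ∂μ ≤ ∫ p, ((Qp p).toReal + (Dp p).toReal - 2) ∂μ :=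
        integral_mono hFi ((iQ.add iD).sub (integrable_const _)) hpt
    _ = ∫ p, (Qp p).toReal ∂μ + ∫ p, (Dp p).toReal ∂μ - 2 := by
        have h3 : Integrable (fun p => (Qp p).toReal + (Dp p).toReal) μ := iQ.add iD
        rw [integral_sub h3 (integrable_const _), integral_add iQ iD]
        simp
    _ ≤ 1 + Real.exp 2 - 2 := by rw [e1]; linarith
    _ = Real.exp 2 - 1 := by ring

end Pool.Agent.T2H99.RG
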