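import Pool.Agent.T2H99.RG.A

/-!
The singular increasing function `V φ` with dyadic increments `w φ n k / 2 ^ n`.
-/

set_option autoImplicit false

open MeasureTheory Finset Filter
open scoped ENNReal NNReal Topology

namespace Pool.Agent.T2H99.RG

/-- Mass of the first `k` intervals of level `n`. -/
noncomputable def S (φ : ℕ → Bool) (n k : ℕ) : ℝ := (∑ i ∈ range k, w φ n i) / 2 ^ n

lemma S_succ (φ : ℕ → Bool) (n k : ℕ) : S φ (n + 1) (2 * k) = S φ n k := by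
  unfold S
  rw [sum_range_two_mul]
  simp_rw [w_add]
  rw [← mul_sum, pow_succ']
  field_simp

lemma S_pow (φ : ℕ → Bool) (n d k : ℕ) : S φ (n + d) (2 ^ d * k) = S φ n k := by
  induction d with
  | zero => simp
  | succ d ih => rw [← ih, ← add_assoc, pow_succ', mul_assoc, S_succ]

lemma S_mono (φ : ℕ → Bool) (n : ℕ) : Monotone (S φ n) := by
  intro a b h
  unfold S
  refine div_le_div_of_nonneg_right ?_ (by positivity)
  exact sum_le_sum_of_subset_of_nonneg (range_subset_range.2 h) fun i _ _ => w_nonneg φ n i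

lemma S_zero (φ : ℕ → Bool) (n : ℕ) : S φ n 0 = 0 := by simp [S]

lemma S_nonneg (φ : ℕ → Bool) (n k : ℕ) : 0 ≤ S φ n k := by
  rw [← S_zero φ n]; exact S_mono φ n (Nat.zero_le k)

lemma S_top (φ : ℕ → Bool) (n k : ℕ) (h : 2 ^ n ≤ k) : S φ n k = 1 := by
  unfold S
  have : ∑ i ∈ range k, w φ n i = ∑ i ∈ range (2 ^ n), w φ n i := by
    symm
    refine sum_subset (range_subset_range.2 h) fun i _ hi => ?_
    rw [mem_range, not_lt] at hi
    exact w_zero_of_le φ n i hi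
  rw [this, sum_w, div_self (by positivity)]

lemma S_le_one (φ : ℕ → Bool) (n k : ℕ) : S φ n k ≤ 1 := by
  rw [← S_top φ n (max k (2 ^ n)) (le_max_right _ _)]
  exact S_mono φ n (le_max_left _ _)

lemma S_succ_sub (φ : ℕ → Bool) (n k : ℕ) : S φ n (k + 1) - S φ n k = w φ n k / 2 ^ n := by
  unfold S
  rw [sum_range_succ]
  ring

/-- The increasing function. -/
noncomputable def V (φ : ℕ → Bool) (t : ℝ) : ℝ := ⨆ n : ℕ, S φ n ⌊2 ^ n * t⌋₊

lemma V_bdd (φ : ℕ → Bool) (t : ℝ) : BddAbove (Set.range fun n : ℕ => S φ n ⌊2 ^ n * t⌋₊) := by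
  refine ⟨1, ?_⟩
  rintro _ ⟨_, rfl⟩
  exact S_le_one _ _ _

lemma le_V (φ : ℕ → Bool) (t : ℝ) (n : ℕ) : S φ n ⌊2 ^ n * t⌋₊ ≤ V φ t := le_ciSup (V_bdd φ t) n

lemma V_nonneg (φ : ℕ → Bool) (t : ℝ) : 0 ≤ V φ t := (S_nonneg _ _ _).trans (le_V φ t 0)

lemma V_le_one (φ : ℕ → Bool) (t : ℝ) : V φ t ≤ 1 := ciSup_le fun n => S_le_one _ _ _

lemma V_mono (φ : ℕ → Bool) : Monotone (V φ) := by
  intro a b h
  refine ciSup_mono (V_bdd φ b) fun _ => S_mono φ _ (Nat.floor_mono ?_)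
  exact mul_le_mul_of_nonneg_left h (by positivity)

lemma V_dyadic (φ : ℕ → Bool) (n k : ℕ) : V φ (k / 2 ^ n) = S φ n k := by
  apply le_antisymm
  · refine ciSup_le fun m => ?_
    rcases le_total m n with h | h
    · obtain ⟨d, rfl⟩ := Nat.exists_eq_add_of_le h
      rw [← S_pow φ m d]
      refine S_mono φ _ ?_
      have h1 : (2 : ℝ) ^ m * (k / 2 ^ (m + d)) = k / 2 ^ d := by
        rw [pow_add]; field_simp
      rw [h1]
      have h2 : (⌊(k : ℝ) / 2 ^ d⌋₊ : ℝ) ≤ k / 2 ^ d := Nat.floor_le (by positivity)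
      have h3 : ((2 ^ d * ⌊(k : ℝ) / 2 ^ d⌋₊ : ℕ) : ℝ) ≤ k := by
        push_cast
        rw [le_div_iff₀ (by positivity)] at h2
        linarith
      exact_mod_cast h3
    · obtain ⟨d, rfl⟩ := Nat.exists_eq_add_of_le h
      have h1 : (2 : ℝ) ^ (n + d) * (k / 2 ^ n) = ((2 ^ d * k : ℕ) : ℝ) := by
        push_cast
        rw [pow_add]; field_simp
      rw [h1, Nat.floor_natCast, S_pow]
  · have h1 : (2 : ℝ) ^ n * (k / 2 ^ n) = k := by field_simp
    have := le_V φ (k / 2 ^ n) n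
    rwa [h1, Nat.floor_natCast] at this

lemma V_zero (φ : ℕ → Bool) : V φ 0 = 0 := by
  have := V_dyadic φ 0 0
  simpa [S_zero] using this

lemma V_one (φ : ℕ → Bool) {t : ℝ} (ht : 1 ≤ t) : V φ t = 1 := by
  apply le_antisymm (V_le_one φ t)
  have h := V_dyadic φ 0 1
  rw [S_top φ 0 1 (by norm_num)] at h
  rw [← h]
  refine V_mono φ ?_
  simpa using ht

lemma w_div_le (φ : ℕ → Bool) (n k : ℕ) : w φ n k / 2 ^ n ≤ (3 / 4) ^ n := by
  have h := w_le φ n k
  calc w φ n k / 2 ^ n ≤ (3 / 2) ^ n / 2 ^ n := by gcongr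
    _ = (3 / 4) ^ n := by rw [← div_pow]; norm_num

lemma V_modulus (φ : ℕ → Bool) (n : ℕ) {s t : ℝ} (hs : 0 ≤ s)
    (h : t ≤ s + 1 / 2 ^ n) : V φ t - V φ s ≤ 2 * (3 / 4) ^ n := by
  set k := ⌊2 ^ n * s⌋₊ with hk
  have h1 : (k : ℝ) / 2 ^ n ≤ s := by
    rw [div_le_iff₀ (by positivity), mul_comm]
    exact Nat.floor_le (by positivity)
  have h2 : t ≤ ((k + 1 + 1 : ℕ) : ℝ) / 2 ^ n := by
    have h3 : 2 ^ n * s < k + 1 := Nat.lt_floor_add_one _
    rw [le_div_iff₀ (by positivity)]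
    push_cast
    calc t * 2 ^ n ≤ (s + 1 / 2 ^ n) * 2 ^ n := by gcongr
      _ = 2 ^ n * s + 1 := by field_simp
      _ ≤ _ := by linarith
  have h4 := V_mono φ h1
  have h5 := V_mono φ h2
  rw [V_dyadic] at h4 h5
  have h6 := S_succ_sub φ n k
  have h7 := S_succ_sub φ n (k + 1)
  have h8 := w_div_le φ n k
  have h9 := w_div_le φ n (k + 1)
  linarith

lemma V_continuousOn (φ : ℕ → Bool) : Continuous fun t : ℝ≥0 => V φ t := by
  rw [Metric.continuous_iff]
  intro a ε hε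
  obtain ⟨n, hn⟩ := exists_pow_lt_of_lt_one (show (0 : ℝ) < ε / 2 by linarith)
    (show (3 / 4 : ℝ) < 1 by norm_num)
  refine ⟨1 / 2 ^ n, by positivity, fun b hb => ?_⟩
  rw [NNReal.dist_eq] at hb
  rw [Real.dist_eq]
  rcases le_total (a : ℝ) b with h | h
  · rw [abs_of_nonneg (sub_nonneg.2 (V_mono φ h))]
    rw [abs_of_nonneg (sub_nonneg.2 h)] at hb
    have := V_modulus φ n (s := a) (t := b) (NNReal.coe_nonneg a) (by linarith)
    linarith
  · rw [abs_of_nonpos (sub_nonpos.2 (V_mono φ h))]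
    rw [abs_of_nonpos (sub_nonpos.2 h)] at hb
    have := V_modulus φ n (s := b) (t := a) (NNReal.coe_nonneg b) (by linarith)
    linarith

/-- The densities as functions of the time. -/
noncomputable def v (φ : ℕ → Bool) (n : ℕ) (t : ℝ) : ℝ := w φ n ⌊2 ^ n * t⌋₊

/-- The dyadic intervals. -/
def II (n k : ℕ) : Set ℝ := Set.Ico (k / 2 ^ n) ((k + 1) / 2 ^ n)

lemma mem_II {n k : ℕ} {t : ℝ} (ht : 0 ≤ t) : t ∈ II n k ↔ ⌊2 ^ n * t⌋₊ = k := by
  unfold II
  rw [Set.mem_Ico, div_le_iff₀ (by positivity), lt_div_iff₀ (by positivity),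
    Nat.floor_eq_iff (by positivity), mul_comm]

lemma nonneg_of_mem_II {n k : ℕ} {t : ℝ} (ht : t ∈ II n k) : 0 ≤ t :=
  le_trans (by positivity) ht.1

lemma floor_of_mem_II {n k : ℕ} {t : ℝ} (ht : t ∈ II n k) : ⌊2 ^ n * t⌋₊ = k :=
  (mem_II (nonneg_of_mem_II ht)).1 ht

lemma II_split (n k : ℕ) : II n k = II (n + 1) (2 * k) ∪ II (n + 1) (2 * k + 1) := by
  unfold II
  have h1 : ((2 * k : ℕ) : ℝ) / 2 ^ (n + 1) = k / 2 ^ n := by
    push_cast; rw [pow_succ]; field_simp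
  have h2 : (((2 * k + 1 : ℕ) : ℝ) + 1) / 2 ^ (n + 1) = (k + 1) / 2 ^ n := by
    push_cast; rw [pow_succ]; field_simp; ring
  have h3 : (((2 * k : ℕ) : ℝ) + 1) / 2 ^ (n + 1) = ((2 * k + 1 : ℕ) : ℝ) / 2 ^ (n + 1) := by
    push_cast; ring
  rw [h3, h1, h2, Set.Ico_union_Ico_eq_Ico]
  · rw [← h1]; gcongr; omega
  · rw [← h2]; gcongr; linarith

lemma II_disj (n : ℕ) {j k : ℕ} (h : j ≠ k) : Disjoint (II n j) (II n k) := by
  rw [Set.disjoint_left]
  intro t h1 h2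
  exact h ((floor_of_mem_II h1).symm.trans (floor_of_mem_II h2))

lemma measurableSet_II (n k : ℕ) : MeasurableSet (II n k) := measurableSet_Ico

lemma volume_II (n k : ℕ) : volume (II n k) = ENNReal.ofReal (1 / 2 ^ n) := by
  unfold II
  rw [Real.volume_Ico]
  congr 1
  ring

lemma lint_v (φ : ℕ → Bool) (d : ℕ) : ∀ n k : ℕ,
    ∫⁻ t in II n k, ENNReal.ofReal (v φ (n + d) t) = ENNReal.ofReal (w φ n k / 2 ^ n) := by
  induction d with
  | zero =>
    intro n k
    have : ∀ t ∈ II n k, ENNReal.ofReal (v φ (n + 0) t) = ENNReal.ofReal (w φ n k) := by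
      intro t ht
      simp only [v, add_zero]
      rw [floor_of_mem_II ht]
    rw [setLIntegral_congr_fun (measurableSet_II n k) this, setLIntegral_const, volume_II,
      ← ENNReal.ofReal_mul (w_nonneg φ n k)]
    congr 1
    ring
  | succ d ih =>
    intro n k
    rw [II_split, lintegral_union (measurableSet_II _ _) (II_disj _ (by omega)),
      show n + (d + 1) = (n + 1) + d by ring, ih, ih,
      ← ENNReal.ofReal_add (div_nonneg (w_nonneg _ _ _) (by positivity))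
        (div_nonneg (w_nonneg _ _ _) (by positivity)), ← add_div, w_add, pow_succ']
    congr 1
    field_simp

lemma Ico_eq (n : ℕ) : Set.Ico (0 : ℝ) 1 = ⋃ k ∈ range (2 ^ n), II n k := by
  ext t
  simp only [Set.mem_iUnion, mem_range, exists_prop]
  constructor
  · intro ht
    refine ⟨⌊2 ^ n * t⌋₊, ?_, (mem_II ht.1).2 rfl⟩
    rw [Nat.floor_lt (mul_nonneg (by positivity) ht.1)]
    push_cast
    have := ht.2
    have h2 : (0 : ℝ) < 2 ^ n := by positivity
    nlinarith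
  · rintro ⟨k, hk, ht⟩
    refine ⟨nonneg_of_mem_II ht, lt_of_lt_of_le ht.2 ?_⟩
    rw [div_le_one (by positivity)]
    exact_mod_cast hk

/-- Decomposition of an integral over the unit interval. -/
lemma lint_decomp (n : ℕ) (G : ℕ → ℝ≥0∞) (f : ℝ → ℝ≥0∞) :
    ∫⁻ t in Set.Ico (0 : ℝ) 1, G ⌊2 ^ n * t⌋₊ * f t =
      ∑ k ∈ range (2 ^ n), ∫⁻ t in II n k, G k * f t := by
  rw [Ico_eq n, lintegral_biUnion_finset]
  · refine sum_congr rfl fun k _ => ?_
    refine setLIntegral_congr_fun (measurableSet_II n k) fun t ht => ?_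
    rw [floor_of_mem_II ht]
  · intro i _ j _ hij
    exact II_disj n hij
  · exact fun k _ => measurableSet_II n k

end Pool.Agent.T2H99.RG
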