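import Pool.Agent.T2H99.RG.G

/-!
The function `V φ` is singular.
-/

set_option autoImplicit false

open MeasureTheory Finset Filter
open scoped ENNReal NNReal Topology

namespace Pool.Agent.T2H99.RG

lemma sqrt_add_le {x : ℝ} (hx0 : 0 ≤ x) (hx : x ≤ 1) :
    √(1 + x) + √(1 - x) ≤ 2 * (1 - x * x / 8) := by
  have h1 : 0 ≤ 1 - x * x / 8 := by nlinarith
  refine abs_le_of_sq_le_sq' ?_ (by linarith) |>.2
  have h2 : √(1 + x) ^ 2 = 1 + x := Real.sq_sqrt (by linarith)
  have h3 : √(1 - x) ^ 2 = 1 - x := Real.sq_sqrt (by linarith)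
  have h4 : √(1 + x) * √(1 - x) ≤ 1 - x * x / 2 := by
    rw [← Real.sqrt_mul (by linarith)]
    refine Real.sqrt_le_iff.2 ⟨by nlinarith, ?_⟩
    nlinarith [mul_nonneg (mul_nonneg hx0 hx0) (mul_nonneg hx0 hx0)]
  nlinarith [mul_nonneg (mul_nonneg hx0 hx0) (mul_nonneg hx0 hx0)]

/-- Mean of the square root of the density. -/
noncomputable def R (φ : ℕ → Bool) (n : ℕ) : ℝ := (∑ k ∈ range (2 ^ n), √(w φ n k)) / 2 ^ n

lemma R_nonneg (φ : ℕ → Bool) (n : ℕ) : 0 ≤ R φ n :=
  div_nonneg (sum_nonneg fun _ _ => Real.sqrt_nonneg _) (by positivity)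

lemma R_succ (φ : ℕ → Bool) (n : ℕ) : R φ (n + 1) ≤ R φ n * (1 - bc n / 8) := by
  unfold R
  rw [pow_succ' 2 n, sum_range_two_mul]
  have h : ∀ k ∈ range (2 ^ n), √(w φ (n + 1) (2 * k)) + √(w φ (n + 1) (2 * k + 1)) ≤
      √(w φ n k) * (2 * (1 - bc n / 8)) := by
    intro k _
    rw [w_even, w_odd, Real.sqrt_mul (w_nonneg _ _ _), Real.sqrt_mul (w_nonneg _ _ _), ← mul_add]
    refine mul_le_mul_of_nonneg_left ?_ (Real.sqrt_nonneg _)
    have h1 := sqrt_add_le (ac_pos n).le ((ac_le n).trans (by norm_num))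
    rw [ac_sq] at h1
    rcases sg_cases (φ n) with h | h <;> rw [h]
    · rw [mul_one]; exact h1
    · rw [mul_neg_one, sub_neg_eq_add, add_comm, ← sub_eq_add_neg]; exact h1
  have h2 := sum_le_sum h
  rw [← sum_mul] at h2
  rw [div_mul_eq_mul_div, div_le_div_iff₀ (by positivity) (by positivity)]
  have h3 : (0 : ℝ) < 2 ^ n := by positivity
  rw [pow_succ (2 : ℝ) n]
  have h4 := mul_le_mul_of_nonneg_right h2 h3.le
  linarith

lemma R_le (φ : ℕ → Bool) (n : ℕ) : R φ n ≤ ∏ j ∈ range n, (1 - bc j / 8) := by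
  induction n with
  | zero => simp [R, w]
  | succ n ih =>
    rw [prod_range_succ]
    refine (R_succ φ n).trans (mul_le_mul_of_nonneg_right ih ?_)
    have := bc_le n
    linarith

lemma tendsto_prod : Tendsto (fun n : ℕ => ∏ j ∈ range n, (1 - bc j / 8)) atTop (𝓝 0) := by
  have h1 : Tendsto (fun n : ℕ => ∑ j ∈ range n, bc j) atTop atTop := by
    have h := Real.tendsto_sum_range_one_div_nat_succ_atTop
    have h2 : ∀ n : ℕ, (∑ j ∈ range n, 1 / ((j : ℝ) + 1)) * (1 / 4) ≤ ∑ j ∈ range n, bc j := by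
      intro n
      rw [sum_mul]
      refine sum_le_sum fun j _ => ?_
      unfold bc
      rw [div_mul_div_comm, one_mul, div_le_div_iff₀ (by positivity) (by positivity)]
      have : (0 : ℝ) ≤ j := Nat.cast_nonneg j
      linarith
    refine tendsto_atTop_mono h2 ?_
    exact h.atTop_mul_const (by norm_num)
  have h2 : Tendsto (fun n : ℕ => Real.exp (-((∑ j ∈ range n, bc j) * (1 / 8)))) atTop (𝓝 0) :=
    Real.tendsto_exp_neg_atTop_nhds_zero.comp (h1.atTop_mul_const (by norm_num))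
  refine squeeze_zero (fun n => ?_) (fun n => ?_) h2
  · refine prod_nonneg fun j _ => ?_
    have := bc_le j
    linarith
  · rw [sum_mul, ← sum_neg_distrib, Real.exp_sum]
    refine prod_le_prod (fun j _ => ?_) fun j _ => ?_
    · have := bc_le j
      linarith
    · have := Real.add_one_le_exp (-(bc j * (1 / 8)))
      linarith

/-- Half of the mass of `V φ` sits on few dyadic intervals. -/
theorem singular (φ : ℕ → Bool) {ε : ℝ} (hε : 0 < ε) :
    ∃ (n : ℕ) (J : Finset ℕ), J ⊆ range (2 ^ n) ∧ (J.card : ℝ) / 2 ^ n ≤ ε ∧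
      1 / 2 ≤ ∑ k ∈ J, w φ n k / 2 ^ n := by
  set K : ℝ := 1 / ε with hK
  have hK0 : 0 < K := by positivity
  have h1 : Tendsto (fun n : ℕ => √K * ∏ j ∈ range n, (1 - bc j / 8)) atTop (𝓝 0) := by
    have := tendsto_prod.const_mul (√K)
    rwa [mul_zero] at this
  obtain ⟨n, hn⟩ := (h1.eventually (gt_mem_nhds (show (0 : ℝ) < 1 / 2 by norm_num))).exists
  have hR : √K * R φ n ≤ 1 / 2 :=
    (mul_le_mul_of_nonneg_left (R_le φ n) (Real.sqrt_nonneg _)).trans hn.le
  refine ⟨n, (range (2 ^ n)).filter fun k => K ≤ w φ n k, filter_subset _ _, ?_, ?_⟩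
  · have h2 : (((range (2 ^ n)).filter fun k => K ≤ w φ n k).card : ℝ) * K ≤
        ∑ k ∈ range (2 ^ n), w φ n k := by
      rw [← nsmul_eq_mul, ← sum_const]
      refine (sum_le_sum fun k hk => (mem_filter.1 hk).2).trans ?_
      exact sum_le_sum_of_subset_of_nonneg (filter_subset _ _) fun k _ _ => w_nonneg _ _ _
    rw [sum_w] at h2
    rw [div_le_iff₀ (by positivity)]
    rw [hK, mul_one_div, div_le_iff₀ hε] at h2
    linarith
  · have h3 : ∑ k ∈ range (2 ^ n) with K ≤ w φ n k, w φ n k +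
        ∑ k ∈ range (2 ^ n) with ¬ K ≤ w φ n k, w φ n k = 2 ^ n := by
      rw [sum_filter_add_sum_filter_not, sum_w]
    have h4 : ∑ k ∈ range (2 ^ n) with ¬ K ≤ w φ n k, w φ n k ≤
        √K * ∑ k ∈ range (2 ^ n), √(w φ n k) := by
      rw [mul_sum]
      refine (sum_le_sum fun k hk => ?_).trans (sum_le_sum_of_subset_of_nonneg
        (filter_subset (fun k => ¬ K ≤ w φ n k) _)
        fun k _ _ => mul_nonneg (Real.sqrt_nonneg K) (Real.sqrt_nonneg (w φ n k)))
      have h5 := (mem_filter.1 hk).2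
      rw [not_le] at h5
      calc w φ n k = √(w φ n k) * √(w φ n k) := (Real.mul_self_sqrt (w_nonneg _ _ _)).symm
        _ ≤ √K * √(w φ n k) :=
          mul_le_mul_of_nonneg_right (Real.sqrt_le_sqrt h5.le) (Real.sqrt_nonneg _)
    have h6 : √K * ∑ k ∈ range (2 ^ n), √(w φ n k) = √K * R φ n * 2 ^ n := by
      unfold R
      field_simp
    rw [← sum_div, le_div_iff₀ (by positivity)]
    have h7 : √K * R φ n * 2 ^ n ≤ 1 / 2 * 2 ^ n :=
      mul_le_mul_of_nonneg_right hR (by positivity)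
    linarith

end Pool.Agent.T2H99.RG
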