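import Pool.Agent.T2H99.RG.F
import Pool.Agent.T2H99.RG.H

/-!
The predictable drift of the observed process.
-/

set_option autoImplicit false

open MeasureTheory ProbabilityTheory Finset Filter
open scoped ENNReal NNReal Topology

namespace Pool.Agent.T2H99.RG

variable {Ω : Type*} {mΩ : MeasurableSpace Ω} {P : Measure Ω} {W : ℝ≥0 → Ω → ℝ}

lemma measurable_V (t : ℝ) : Measurable fun φ : ℕ → Bool => V φ t := by
  unfold V
  refine Measurable.iSup fun n => ?_
  unfold S
  exact (Finset.measurable_sum _ fun i _ => measurable_w n i).div_const _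

/-- The observed process. -/
noncomputable def BB (W : ℝ≥0 → Ω → ℝ) (t : ℝ≥0) (p : (ℕ → Bool) × Ω) : ℝ := W t p.2 + V p.1 t

lemma measurable_BB (hW : NiceBM P W) (t : ℝ≥0) : Measurable (BB W t) :=
  ((hW.meas t).comp measurable_snd).add ((measurable_V t).comp measurable_fst)

lemma continuous_BB (hW : NiceBM P W) (p : (ℕ → Bool) × Ω) : Continuous fun t => BB W t p :=
  (hW.cont p.2).add (V_continuousOn p.1)

/-- The observations at the times `dt m j`, `j ≤ k`. -/
noncomputable def YY (W : ℝ≥0 → Ω → ℝ) (m k : ℕ) (p : (ℕ → Bool) × Ω) : ℕ → ℝ :=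
  fun j => BB W (dt m (min j k)) p

lemma measurable_YY (hW : NiceBM P W) (m k : ℕ) : Measurable (YY W m k) :=
  measurable_pi_lambda _ fun _ => measurable_BB hW _

lemma YY_eq (hW : NiceBM P W) (m k : ℕ) (p : (ℕ → Bool) × Ω) :
    YY W m k p = path k (xs W m p.1 p.2) := by
  funext j
  unfold YY path xs BB
  rw [sum_add_distrib, hW.sum_Z, dt_coe, V_dyadic, ← mul_sum, dl_coe]
  unfold S
  ring

lemma uu_eq (hW : NiceBM P W) (U : ℕ → (ℕ → ℝ) → ℝ) (m k : ℕ) (p : (ℕ → Bool) × Ω) :
    uu W U m k p = U k (YY W m k p) := by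
  unfold uu
  rw [YY_eq hW]

/-- The number of the dyadic interval that contains `t`. -/
@[irreducible] noncomputable def fl (m : ℕ) (t : ℝ) : ℕ := ⌊2 ^ m * t⌋₊

lemma fl_eq (m : ℕ) (t : ℝ) : fl m t = ⌊2 ^ m * t⌋₊ := by unfold fl; rfl

/-- Time and past of the discrete observations. -/
noncomputable def Psi (W : ℝ≥0 → Ω → ℝ) (m : ℕ) (q : ((ℕ → Bool) × Ω) × ℝ) : ℕ × (ℕ → ℝ) :=
  (fl m q.2, YY W m (fl m q.2) q.1)

lemma measurable_fl (m : ℕ) : Measurable (fl m) := by
  have : fl m = fun t : ℝ => ⌊2 ^ m * t⌋₊ := funext fun t => fl_eq m t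
  rw [this]
  exact Nat.measurable_floor.comp (measurable_id.const_mul _)

lemma measurable_YYr (hW : NiceBM P W) (m : ℕ) :
    Measurable fun r : ((ℕ → Bool) × Ω) × ℕ => YY W m r.2 r.1 :=
  measurable_from_prod_countable_left fun k => measurable_YY hW m k

lemma measurable_flsnd (m : ℕ) : Measurable fun q : ((ℕ → Bool) × Ω) × ℝ => fl m q.2 :=
  (measurable_fl m).comp measurable_snd

lemma measurable_flpair (m : ℕ) : Measurable fun q : ((ℕ → Bool) × Ω) × ℝ => (q.1, fl m q.2) :=
  measurable_fst.prodMk (measurable_flsnd m)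

lemma measurable_YYcomp (hW : NiceBM P W) (m : ℕ) :
    Measurable ((fun r : ((ℕ → Bool) × Ω) × ℕ => YY W m r.2 r.1) ∘
      fun q : ((ℕ → Bool) × Ω) × ℝ => (q.1, fl m q.2)) :=
  (measurable_YYr hW m).comp (measurable_flpair m)

lemma measurable_YYfl (hW : NiceBM P W) (m : ℕ) :
    Measurable (fun q : ((ℕ → Bool) × Ω) × ℝ => YY W m (fl m q.2) q.1) :=
  measurable_YYcomp hW m

lemma measurable_Psi (hW : NiceBM P W) (m : ℕ) : Measurable (Psi W m) :=
  (measurable_flsnd m).prodMk (measurable_YYfl hW m)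

lemma fl_half (m : ℕ) (t : ℝ) : fl (m + 1) t / 2 = fl m t := by
  rw [fl_eq, fl_eq]
  have h := Nat.floor_div_natCast (2 ^ (m + 1) * t) 2
  rw [← h]
  congr 1
  rw [pow_succ]
  push_cast
  ring

lemma dt_succ (m k : ℕ) : dt (m + 1) (2 * k) = dt m k := by
  unfold dt
  rw [pow_succ']
  push_cast
  rw [mul_div_mul_left _ _ (by norm_num)]

/-- The predictable σ-algebras. -/
noncomputable def HH (hW : NiceBM P W) : Filtration ℕ
    (inferInstance : MeasurableSpace (((ℕ → Bool) × Ω) × ℝ)) where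
  seq m := MeasurableSpace.comap (Psi W m) inferInstance
  mono' := by
    refine monotone_nat_of_le_succ fun m => ?_
    set G : ℕ × (ℕ → ℝ) → ℕ × (ℕ → ℝ) := fun r => (r.1 / 2, fun j => r.2 (2 * min j (r.1 / 2)))
      with hG
    have hGm : Measurable G := by
      refine Measurable.prodMk ?_ ?_
      · exact (measurable_of_countable (fun k : ℕ => k / 2)).comp measurable_fst
      · refine measurable_pi_lambda _ fun j => ?_
        refine measurable_from_prod_countable_right fun k => ?_
        change Measurable fun y : ℕ → ℝ => y (2 * min j (k / 2))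
        exact measurable_pi_apply _
    have e : Psi W m = G ∘ Psi W (m + 1) := by
      funext q
      simp only [Psi, hG, Function.comp_apply, fl_half]
      congr 1
      funext j
      unfold YY
      have h1 : min (2 * min j (fl m q.2)) (fl (m + 1) q.2) = 2 * min j (fl m q.2) := by
        have := fl_half m q.2
        omega
      rw [h1, dt_succ]
    rw [e, ← MeasurableSpace.comap_comp]
    exact MeasurableSpace.comap_mono hGm.comap_le
  le' m := (measurable_Psi hW m).comap_le

/-- Lebesgue measure on the unit interval. -/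
noncomputable def lam : Measure ℝ := volume.restrict (Set.Ico 0 1)

instance : IsProbabilityMeasure lam := by
  constructor
  simp [lam]

/-- The densities on the product space. -/
noncomputable def vv (Ω : Type*) (m : ℕ) (q : ((ℕ → Bool) × Ω) × ℝ) : ℝ := w q.1.1 m (fl m q.2)

lemma measurable_vv (m : ℕ) : Measurable (vv Ω m) := by
  unfold vv
  have h1 : Measurable fun q : ((ℕ → Bool) × Ω) × ℝ => fl m q.2 :=
    (measurable_fl m).comp measurable_snd
  have h2 : Measurable fun r : (ℕ → Bool) × ℕ => w r.1 m r.2 :=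
    measurable_from_prod_countable_left fun k => measurable_w m k
  exact h2.comp ((measurable_fst.comp measurable_fst).prodMk h1)

lemma vv_nonneg (m : ℕ) (q : ((ℕ → Bool) × Ω) × ℝ) : 0 ≤ vv Ω m q := w_nonneg _ _ _

lemma vv_le (m : ℕ) (q : ((ℕ → Bool) × Ω) × ℝ) : vv Ω m q ≤ (3 / 2) ^ m := w_le _ _ _

variable [IsProbabilityMeasure P]

omit [IsProbabilityMeasure P] in
lemma lint_Psi (hW : NiceBM P W) (m d : ℕ) {g : ℕ × (ℕ → ℝ) → ℝ≥0∞} (hg : Measurable g) :
    ∫⁻ q, g (Psi W m q) * ENNReal.ofReal (vv Ω (m + d) q) ∂((signs.prod P).prod lam) =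
      ∑ k ∈ range (2 ^ m), ∫⁻ p, g (k, YY W m k p) * ENNReal.ofReal (w p.1 m k / 2 ^ m)
        ∂(signs.prod P) := by
  have hm1 : Measurable fun q : ((ℕ → Bool) × Ω) × ℝ =>
      g (Psi W m q) * ENNReal.ofReal (vv Ω (m + d) q) :=
    (hg.comp (measurable_Psi hW m)).mul (measurable_vv (m + d)).ennreal_ofReal
  rw [lintegral_prod _ hm1.aemeasurable]
  have h1 : ∀ p : (ℕ → Bool) × Ω, ∫⁻ t, g (Psi W m (p, t)) * ENNReal.ofReal (vv Ω (m + d) (p, t))
      ∂lam = ∑ k ∈ range (2 ^ m), g (k, YY W m k p) * ENNReal.ofReal (w p.1 m k / 2 ^ m) := by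
    intro p
    have h2 := lint_decomp m (fun k => g (k, YY W m k p)) (fun t => ENNReal.ofReal (v p.1 (m + d) t))
    have h3 : ∫⁻ t, g (Psi W m (p, t)) * ENNReal.ofReal (vv Ω (m + d) (p, t)) ∂lam =
      ∫⁻ t in Set.Ico (0 : ℝ) 1, g (⌊2 ^ m * t⌋₊, YY W m ⌊2 ^ m * t⌋₊ p) *
        ENNReal.ofReal (v p.1 (m + d) t) := by
      unfold lam
      refine lintegral_congr fun t => ?_
      unfold Psi vv v
      simp only
      rw [fl_eq, fl_eq]
    rw [h3, h2]
    refine sum_congr rfl fun k _ => ?_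
    rw [lintegral_const_mul, lint_v]
    have h4 : Measurable fun t : ℝ => v p.1 (m + d) t := by
      unfold v
      exact (measurable_of_countable (fun k : ℕ => w p.1 (m + d) k)).comp
        (Nat.measurable_floor.comp (measurable_id.const_mul _))
    exact h4.ennreal_ofReal
  simp_rw [h1]
  rw [lintegral_finsetSum]
  intro k _
  refine (hg.comp (measurable_const.prodMk (measurable_YY hW m k))).mul ?_
  exact (((measurable_w m k).comp measurable_fst).div_const _).ennreal_ofReal

end Pool.Agent.T2H99.RG
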