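import Pool.Agent.T2H99.RG.I

/-!
The estimated drifts form a martingale, bounded in `L²`.
-/

set_option autoImplicit false

open MeasureTheory ProbabilityTheory Finset Filter
open scoped ENNReal NNReal Topology

namespace Pool.Agent.T2H99.RG

variable {Ω : Type*} {mΩ : MeasurableSpace Ω} {P : Measure Ω} {W : ℝ≥0 → Ω → ℝ}
  [IsProbabilityMeasure P]

/-- The reference measure. -/
noncomputable def mm (P : Measure Ω) : Measure (((ℕ → Bool) × Ω) × ℝ) := (signs.prod P).prod lam

instance : IsProbabilityMeasure (mm P) := by unfold mm; infer_instance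

lemma integrable_vv (m : ℕ) : Integrable (vv Ω m) (mm P) := by
  refine Integrable.of_bound (C := (3 / 2) ^ m) (measurable_vv m).aestronglyMeasurable ?_
  refine Eventually.of_forall fun q => ?_
  rw [Real.norm_eq_abs, abs_of_nonneg (vv_nonneg m q)]
  exact vv_le m q

omit [IsProbabilityMeasure P] in
lemma setLIntegral_vv (hW : NiceBM P W) (m d : ℕ) {H : Set (((ℕ → Bool) × Ω) × ℝ)}
    (hH : MeasurableSet[HH hW m] H) :
    ∫⁻ q in H, ENNReal.ofReal (vv Ω (m + d) q) ∂(mm P) =
      ∫⁻ q in H, ENNReal.ofReal (vv Ω m q) ∂(mm P) := by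
  obtain ⟨A, hA, rfl⟩ := hH
  have hH' : MeasurableSet (Psi W m ⁻¹' A) := measurable_Psi hW m hA
  have key : ∀ e : ℕ, ∫⁻ q in Psi W m ⁻¹' A, ENNReal.ofReal (vv Ω (m + e) q) ∂(mm P) =
      ∑ k ∈ range (2 ^ m), ∫⁻ p, A.indicator (fun _ => (1 : ℝ≥0∞)) (k, YY W m k p) *
        ENNReal.ofReal (w p.1 m k / 2 ^ m) ∂(signs.prod P) := by
    intro e
    rw [← lint_Psi hW m e (g := A.indicator fun _ => (1 : ℝ≥0∞)) (measurable_const.indicator hA),
      ← lintegral_indicator hH']
    refine lintegral_congr fun q => ?_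
    by_cases hq : Psi W m q ∈ A
    · rw [Set.indicator_of_mem hq, Set.indicator_of_mem (show q ∈ Psi W m ⁻¹' A from hq), one_mul]
    · rw [Set.indicator_of_notMem hq, Set.indicator_of_notMem (show q ∉ Psi W m ⁻¹' A from hq),
        zero_mul]
  rw [key d, ← key 0]
  rfl

lemma setIntegral_vv (hW : NiceBM P W) {m n : ℕ} (hmn : m ≤ n) {H : Set (((ℕ → Bool) × Ω) × ℝ)}
    (hH : MeasurableSet[HH hW m] H) :
    ∫ q in H, vv Ω n q ∂(mm P) = ∫ q in H, vv Ω m q ∂(mm P) := by
  obtain ⟨d, rfl⟩ := Nat.exists_eq_add_of_le hmn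
  rw [integral_eq_lintegral_of_nonneg_ae (Eventually.of_forall fun q => vv_nonneg _ q)
    (measurable_vv _).aestronglyMeasurable,
    integral_eq_lintegral_of_nonneg_ae (Eventually.of_forall fun q => vv_nonneg _ q)
    (measurable_vv _).aestronglyMeasurable, setLIntegral_vv hW m d hH]

/-- The estimated drift at level `m`. -/
noncomputable def bm (hW : NiceBM P W) (m : ℕ) : ((ℕ → Bool) × Ω) × ℝ → ℝ :=
  (mm P)[vv Ω m | HH hW m]

lemma condExp_vv (hW : NiceBM P W) {m n : ℕ} (hmn : m ≤ n) :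
    bm hW m =ᵐ[mm P] (mm P)[vv Ω n | HH hW m] := by
  refine ae_eq_condExp_of_forall_setIntegral_eq ((HH hW).le m) (integrable_vv n)
    (fun s _ _ => integrable_condExp.integrableOn) (fun s hs _ => ?_)
    stronglyMeasurable_condExp.aestronglyMeasurable
  unfold bm
  rw [setIntegral_condExp ((HH hW).le m) (integrable_vv m) hs, setIntegral_vv hW hmn hs]

lemma martingale_bm (hW : NiceBM P W) : Martingale (bm hW) (HH hW) (mm P) := by
  refine ⟨fun m => stronglyMeasurable_condExp, fun m n hmn => ?_⟩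
  unfold bm
  refine (condExp_condExp_of_le ((HH hW).mono hmn) ((HH hW).le n)).trans ?_
  exact (condExp_vv hW hmn).symm

/-- A bounded version. -/
lemma exists_U (hW : NiceBM P W) (m : ℕ) : ∃ U : ℕ → (ℕ → ℝ) → ℝ, (∀ k, Measurable (U k)) ∧
    (∀ k y, 0 ≤ U k y) ∧ (∀ k y, U k y ≤ (3 / 2) ^ m) ∧
    ∀ᵐ q ∂(mm P), bm hW m q = U (Psi W m q).1 (Psi W m q).2 := by
  have h1 : StronglyMeasurable[MeasurableSpace.comap (Psi W m) inferInstance] (bm hW m) :=
    stronglyMeasurable_condExp
  obtain ⟨h, hm, he⟩ := h1.exists_eq_measurable_comp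
  have hm' : Measurable h := hm.measurable
  refine ⟨fun k y => max 0 (min (h (k, y)) ((3 / 2) ^ m)), fun k => ?_, fun k y => le_max_left _ _,
    fun k y => max_le (by positivity) (min_le_right _ _), ?_⟩
  · exact measurable_const.max ((hm'.comp (measurable_const.prodMk measurable_id)).min
      measurable_const)
  · have h0 : 0 ≤ᵐ[mm P] bm hW m := condExp_nonneg (Eventually.of_forall fun q => vv_nonneg m q)
    have hK : bm hW m ≤ᵐ[mm P] fun _ => (3 / 2) ^ m := by
      have := condExp_mono (m := HH hW m) (integrable_vv (P := P) m)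
        (integrable_const ((3 / 2 : ℝ) ^ m))
        (Eventually.of_forall fun q => vv_le (Ω := Ω) m q)
      rwa [condExp_const ((HH hW).le m)] at this
    filter_upwards [h0, hK] with q h2 h3
    have h4 : bm hW m q = h (Psi W m q) := congrFun he q
    simp only [Pi.zero_apply] at h2
    rw [h4] at h2 h3 ⊢
    change h (Psi W m q) = max 0 (min (h (Psi W m q)) ((3 / 2) ^ m))
    rw [min_eq_left h3, max_eq_right h2]

lemma integral_Psi_vv (hW : NiceBM P W) (m : ℕ) {U : ℕ → (ℕ → ℝ) → ℝ} (hU : ∀ k, Measurable (U k))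
    (h0 : ∀ k y, 0 ≤ U k y) {K : ℝ} (hK : ∀ k y, U k y ≤ K) :
    ∫ q, U (Psi W m q).1 (Psi W m q).2 * vv Ω m q ∂(mm P) =
      ∑ k ∈ range (2 ^ m), dl m * ∫ p, uu W U m k p * w p.1 m k ∂(signs.prod P) := by
  have hUm : Measurable fun r : ℕ × (ℕ → ℝ) => U r.1 r.2 := measurable_from_prod_countable_right hU
  have h1 : Measurable fun q => U (Psi W m q).1 (Psi W m q).2 := hUm.comp (measurable_Psi hW m)
  have h2 := lint_Psi hW m 0 hUm.ennreal_ofReal
  have hK0 : 0 ≤ K := (h0 0 (fun _ => 0)).trans (hK 0 (fun _ => 0))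
  rw [integral_eq_lintegral_of_nonneg_ae
    (Eventually.of_forall fun q => mul_nonneg (h0 _ _) (vv_nonneg _ q))
    (h1.mul (measurable_vv _)).aestronglyMeasurable]
  have e1 : ∫⁻ q, ENNReal.ofReal (U (Psi W m q).1 (Psi W m q).2 * vv Ω m q) ∂(mm P) =
      ∫⁻ q, ENNReal.ofReal (U (Psi W m q).1 (Psi W m q).2) * ENNReal.ofReal (vv Ω (m + 0) q)
        ∂((signs.prod P).prod lam) := by
    refine lintegral_congr fun q => ?_
    rw [ENNReal.ofReal_mul (h0 _ _)]
    rfl
  rw [e1, h2, ENNReal.toReal_sum]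
  · refine sum_congr rfl fun k _ => ?_
    rw [← integral_const_mul, integral_eq_lintegral_of_nonneg_ae]
    · congr 1
      refine lintegral_congr fun p => ?_
      rw [← ENNReal.ofReal_mul (h0 _ _), uu_eq hW, dl_coe]
      congr 1
      ring
    · refine Eventually.of_forall fun p => ?_
      have := w_nonneg p.1 m k
      have h3 : 0 ≤ uu W U m k p := h0 _ _
      simp only [Pi.zero_apply]
      positivity
    · exact (((measurable_uu hW hU m k).mul ((measurable_w m k).comp measurable_fst)).const_mul _)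
        |>.aestronglyMeasurable
  · intro k _
    refine ne_top_of_le_ne_top (b := ENNReal.ofReal (K * ((3 / 2) ^ m / 2 ^ m))) ENNReal.ofReal_ne_top ?_
    calc _ ≤ ∫⁻ _p, ENNReal.ofReal (K * ((3 / 2) ^ m / 2 ^ m)) ∂(signs.prod P) := by
          refine lintegral_mono fun p => ?_
          rw [← ENNReal.ofReal_mul (h0 _ _)]
          refine ENNReal.ofReal_le_ofReal ?_
          refine mul_le_mul (hK _ _) ?_ (div_nonneg (w_nonneg _ _ _) (by positivity)) hK0
          exact div_le_div_of_nonneg_right (w_le _ _ _) (by positivity)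
      _ = _ := by simp

/-- An integral of a function of `Psi` alone. -/
lemma integral_Psi_sq (hW : NiceBM P W) (m : ℕ) {U : ℕ → (ℕ → ℝ) → ℝ} (hU : ∀ k, Measurable (U k))
    (h0 : ∀ k y, 0 ≤ U k y) {K : ℝ} (hK : ∀ k y, U k y ≤ K) :
    ∫ q, U (Psi W m q).1 (Psi W m q).2 ^ 2 ∂(mm P) =
      ∑ k ∈ range (2 ^ m), dl m * ∫ p, uu W U m k p ^ 2 ∂(signs.prod P) := by
  have hUm : Measurable fun r : ℕ × (ℕ → ℝ) => U r.1 r.2 := measurable_from_prod_countable_right hU
  have h1 : Measurable fun q => U (Psi W m q).1 (Psi W m q).2 := hUm.comp (measurable_Psi hW m)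
  have hK0 : 0 ≤ K := (h0 0 (fun _ => 0)).trans (hK 0 (fun _ => 0))
  have hb : ∀ k y, ‖U k y ^ 2‖ ≤ K ^ 2 := by
    intro k y
    rw [norm_pow, Real.norm_eq_abs, abs_of_nonneg (h0 k y)]
    exact pow_le_pow_left₀ (h0 k y) (hK k y) 2
  have hint : Integrable (fun q => U (Psi W m q).1 (Psi W m q).2 ^ 2) (mm P) :=
    Integrable.of_bound (C := K ^ 2) (h1.pow_const 2).aestronglyMeasurable
      (Eventually.of_forall fun q => hb _ _)
  unfold mm at hint ⊢
  rw [integral_prod _ hint]
  have hk : ∀ k, Integrable (fun p => uu W U m k p ^ 2) (signs.prod P) := fun k =>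
    Integrable.of_bound (C := K ^ 2) ((measurable_uu hW hU m k).pow_const 2).aestronglyMeasurable
      (Eventually.of_forall fun p => hb _ _)
  have h2 : ∀ p : (ℕ → Bool) × Ω, ∫ t, U (Psi W m (p, t)).1 (Psi W m (p, t)).2 ^ 2 ∂lam =
      ∑ k ∈ range (2 ^ m), dl m * uu W U m k p ^ 2 := by
    intro p
    have hms : ∀ k ∈ range (2 ^ m), IntegrableOn
        (fun t : ℝ => U (Psi W m (p, t)).1 (Psi W m (p, t)).2 ^ 2) (II m k) volume := by
      intro k _
      have hfin : volume (II m k) ≠ ⊤ := by rw [volume_II]; exact ENNReal.ofReal_ne_top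
      have : IsFiniteMeasure (volume.restrict (II m k)) := ⟨by
        rw [Measure.restrict_apply_univ]; exact hfin.lt_top⟩
      refine Integrable.of_bound (C := K ^ 2) ?_ (Eventually.of_forall fun q => hb _ _)
      exact ((h1.comp measurable_prodMk_left).pow_const 2).aestronglyMeasurable
    unfold lam
    rw [Ico_eq m, integral_biUnion_finset _ (fun k _ => measurableSet_II m k)
      (fun i _ j _ hij => II_disj m hij) hms]
    refine sum_congr rfl fun k _ => ?_
    have h3 : ∀ t ∈ II m k, U (Psi W m (p, t)).1 (Psi W m (p, t)).2 ^ 2 = uu W U m k p ^ 2 := by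
      intro t ht
      rw [uu_eq hW]
      unfold Psi
      simp only
      rw [fl_eq, floor_of_mem_II ht]
    rw [setIntegral_congr_fun (measurableSet_II m k) h3, setIntegral_const, Measure.real,
      volume_II, ENNReal.toReal_ofReal (by positivity), dl_coe, smul_eq_mul]
  simp_rw [h2]
  rw [integral_finsetSum _ fun k _ => (hk k).const_mul _]
  refine sum_congr rfl fun k _ => ?_
  rw [integral_const_mul]

theorem bm_sq (hW : NiceBM P W) (m : ℕ) : Integrable (fun q => bm hW m q ^ 2) (mm P) ∧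
    ∫ q, bm hW m q ^ 2 ∂(mm P) ≤ 2 * (Real.exp 2 - 1) := by
  obtain ⟨U, hU, h0, hK, he⟩ := exists_U hW m
  have hUm : Measurable fun r : ℕ × (ℕ → ℝ) => U r.1 r.2 := measurable_from_prod_countable_right hU
  set f : ((ℕ → Bool) × Ω) × ℝ → ℝ := fun q => U (Psi W m q).1 (Psi W m q).2 with hf
  have hfm : Measurable[HH hW m] f := fun s hs => ⟨_, hUm hs, rfl⟩
  have hfm' : Measurable f := hfm.mono ((HH hW).le m) le_rfl
  have hbd : ∀ q, ‖f q‖ ≤ (3 / 2) ^ m := by
    intro q
    rw [Real.norm_eq_abs, abs_of_nonneg (h0 _ _)]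
    exact hK _ _
  have hint : Integrable (fun q => f q ^ 2) (mm P) := by
    refine Integrable.of_bound (C := ((3 / 2) ^ m) ^ 2) (hfm'.pow_const 2).aestronglyMeasurable
      (Eventually.of_forall fun q => ?_)
    rw [norm_pow]
    exact pow_le_pow_left₀ (norm_nonneg _) (hbd q) 2
  have hsq : (fun q => bm hW m q ^ 2) =ᵐ[mm P] fun q => f q ^ 2 := by
    filter_upwards [he] with q hq
    rw [hq]
  refine ⟨hint.congr hsq.symm, ?_⟩
  rw [integral_congr_ae hsq]
  have h1 := entropy_bound hW hU (K := (3 / 2) ^ m)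
    (fun k y => by rw [abs_of_nonneg (h0 k y)]; exact hK k y) m
  rw [sum_sub_distrib] at h1
  have e1 := integral_Psi_vv hW m hU h0 hK
  have e2 := integral_Psi_sq hW m hU h0 hK
  have e3 : ∑ k ∈ range (2 ^ m), (dl m : ℝ) * (∫ p, uu W U m k p ^ 2 ∂(signs.prod P)) / 2 =
      (∫ q, f q ^ 2 ∂(mm P)) / 2 := by
    rw [e2, sum_div]
  rw [← e1, e3] at h1
  have e4 : ∫ q, U (Psi W m q).1 (Psi W m q).2 * vv Ω m q ∂(mm P) = ∫ q, f q ^ 2 ∂(mm P) := by
    have hfs : StronglyMeasurable[HH hW m] f := hfm.stronglyMeasurable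
    have hfv : Integrable (fun q => f q * vv Ω m q) (mm P) :=
      (integrable_vv m).bdd_mul (c := (3 / 2) ^ m) hfm'.aestronglyMeasurable
        (Eventually.of_forall hbd)
    have h5 : (mm P)[fun q => f q * vv Ω m q | HH hW m] =ᵐ[mm P] fun q => f q * bm hW m q :=
      condExp_mul_of_stronglyMeasurable_left hfs hfv (integrable_vv m)
    calc ∫ q, f q * vv Ω m q ∂(mm P) = ∫ q, ((mm P)[fun q => f q * vv Ω m q | HH hW m]) q ∂(mm P) :=
          (integral_condExp ((HH hW).le m)).symm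
      _ = ∫ q, f q * bm hW m q ∂(mm P) := integral_congr_ae h5
      _ = ∫ q, f q ^ 2 ∂(mm P) := by
          refine integral_congr_ae ?_
          filter_upwards [he] with q hq
          rw [hq, sq]
  rw [e4] at h1
  linarith

end Pool.Agent.T2H99.RG
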