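import Pool.Agent.T2H99.RG.J

/-!
The limiting drift.
-/

set_option autoImplicit false

open MeasureTheory ProbabilityTheory Finset Filter
open scoped ENNReal NNReal Topology

namespace Pool.Agent.T2H99.RG

lemma ui_of_sq {α ι : Type*} {mα : MeasurableSpace α} {μ : Measure α} [IsFiniteMeasure μ]
    {f : ι → α → ℝ} (hf : ∀ i, AEStronglyMeasurable (f i) μ)
    (hint : ∀ i, Integrable (fun x => f i x ^ 2) μ) {K : ℝ} (hK : ∀ i, ∫ x, f i x ^ 2 ∂μ ≤ K) :
    UniformIntegrable f 1 μ := by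
  refine uniformIntegrable_of le_rfl ENNReal.one_ne_top hf fun ε hε => ?_
  set C : ℝ≥0 := Real.toNNReal (max (K / ε) 1) with hC
  have hC1 : (1 : ℝ) ≤ C := by
    rw [hC, Real.coe_toNNReal _ (le_trans zero_le_one (le_max_right _ _))]
    exact le_max_right _ _
  have hC2 : K / ε ≤ C := by
    rw [hC, Real.coe_toNNReal _ (le_trans zero_le_one (le_max_right _ _))]
    exact le_max_left _ _
  have hC0 : (0 : ℝ) < C := lt_of_lt_of_le one_pos hC1
  refine ⟨C, fun i => ?_⟩
  rw [eLpNorm_one_eq_lintegral_enorm]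
  calc ∫⁻ x, ‖Set.indicator {x | C ≤ ‖f i x‖₊} (f i) x‖ₑ ∂μ
      ≤ ∫⁻ x, ENNReal.ofReal (f i x ^ 2 / C) ∂μ := by
        refine lintegral_mono fun x => ?_
        by_cases hx : C ≤ ‖f i x‖₊
        · rw [Set.indicator_of_mem (show x ∈ {x | C ≤ ‖f i x‖₊} from hx),
            Real.enorm_eq_ofReal_abs]
          refine ENNReal.ofReal_le_ofReal ?_
          have h1 : (C : ℝ) ≤ |f i x| := by exact_mod_cast hx
          rw [le_div_iff₀ hC0, ← sq_abs, sq]
          exact mul_le_mul_of_nonneg_left h1 (abs_nonneg _)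
        · rw [Set.indicator_of_notMem (show x ∉ {x | C ≤ ‖f i x‖₊} from hx)]
          simp
    _ = ENNReal.ofReal (∫ x, f i x ^ 2 / C ∂μ) := by
        rw [ofReal_integral_eq_lintegral_ofReal ((hint i).div_const _)
          (Eventually.of_forall fun x => div_nonneg (sq_nonneg _) hC0.le)]
    _ ≤ ENNReal.ofReal ε := by
        refine ENNReal.ofReal_le_ofReal ?_
        rw [integral_div, div_le_iff₀ hC0]
        have := hK i
        rw [div_le_iff₀ hε] at hC2
        linarith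

variable {Ω : Type*} {mΩ : MeasurableSpace Ω} {P : Measure Ω} {W : ℝ≥0 → Ω → ℝ}
  [IsProbabilityMeasure P]

lemma ui_bm (hW : NiceBM P W) : UniformIntegrable (bm hW) 1 (mm P) :=
  ui_of_sq (fun _ => (integrable_condExp (μ := mm P)).aestronglyMeasurable)
    (fun m => (bm_sq hW m).1) (fun m => (bm_sq hW m).2)

/-- The limiting drift. -/
noncomputable def bl (hW : NiceBM P W) : ((ℕ → Bool) × Ω) × ℝ → ℝ :=
  (HH hW).limitProcess (bm hW) (mm P)

lemma bl_meas (hW : NiceBM P W) : StronglyMeasurable[⨆ m, HH hW m] (bl hW) :=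
  Filtration.stronglyMeasurable_limitProcess

lemma bl_int (hW : NiceBM P W) : Integrable (bl hW) (mm P) := by
  obtain ⟨R, hR⟩ := (ui_bm hW).2.2
  exact (Filtration.memLp_limitProcess_of_eLpNorm_bdd (ui_bm hW).1 hR).integrable le_rfl

lemma setIntegral_bl (hW : NiceBM P W) (m : ℕ) {H : Set (((ℕ → Bool) × Ω) × ℝ)}
    (hH : MeasurableSet[HH hW m] H) :
    ∫ q in H, bl hW q ∂(mm P) = ∫ q in H, vv Ω m q ∂(mm P) := by
  have h1 := (martingale_bm hW).ae_eq_condExp_limitProcess (ui_bm hW) m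
  have h2 : ∫ q in H, bm hW m q ∂(mm P) = ∫ q in H, vv Ω m q ∂(mm P) :=
    setIntegral_condExp ((HH hW).le m) (integrable_vv m) hH
  rw [← h2, setIntegral_congr_ae ((HH hW).le m _ hH) (h1.mono fun x hx _ => hx)]
  exact (setIntegral_condExp ((HH hW).le m) (bl_int hW) hH).symm

end Pool.Agent.T2H99.RG
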