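import Mathlib

/-!
Completion of a filtered probability space.
-/

set_option autoImplicit false

open MeasureTheory ProbabilityTheory Finset Filter
open scoped ENNReal NNReal Topology

namespace Pool.Agent.T2H99.RG

/-- The completed σ-algebra. -/
@[reducible] def mc {α : Type*} {m0 : MeasurableSpace α} (μ : Measure α) : MeasurableSpace α :=
  @eventuallyMeasurableSpace α m0 (ae μ) _

/-- The completed measure. -/
noncomputable def cmu {α : Type*} {m0 : MeasurableSpace α} (μ : Measure α) : @Measure α (mc μ) :=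
  μ.completion

lemma cmu_apply {α : Type*} {m0 : MeasurableSpace α} (μ : Measure α) (s : Set α) :
    cmu μ s = μ s := rfl

/-- The completed filtration. -/
noncomputable def cfil {α : Type*} {m0 : MeasurableSpace α} (G : Filtration ℝ≥0 m0)
    (μ : Measure α) : Filtration ℝ≥0 (mc μ) where
  seq t := @eventuallyMeasurableSpace α (G t) (ae μ) _
  mono' s t hst := by
    rintro A ⟨B, hB, hAB⟩
    exact ⟨B, G.mono hst _ hB, hAB⟩
  le' t := by
    rintro A ⟨B, hB, hAB⟩
    exact ⟨B, G.le t _ hB, hAB⟩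

section
variable {α : Type*} {m0 : MeasurableSpace α} {μ : Measure α}

lemma le_mc : m0 ≤ mc μ := fun A hA => ⟨A, hA, EventuallyEq.rfl⟩

lemma mem_cfil {G : Filtration ℝ≥0 m0} {t : ℝ≥0} {A : Set α} :
    MeasurableSet[cfil G μ t] A ↔ ∃ B, MeasurableSet[G t] B ∧ A =ᵐ[μ] B := Iff.rfl

lemma null_mem_cfil (G : Filtration ℝ≥0 m0) (μ : Measure α) (t : ℝ≥0) {A : Set α} (hA : μ A = 0) :
    MeasurableSet[cfil G μ t] A :=
  mem_cfil.2 ⟨∅, @MeasurableSet.empty α (G t), ae_eq_empty.2 hA⟩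

lemma cfil_mono {F G : Filtration ℝ≥0 m0} (h : ∀ t, F t ≤ G t) (t : ℝ≥0) :
    cfil F μ t ≤ cfil G μ t := by
  rintro A ⟨B, hB, hAB⟩
  exact ⟨B, h t _ hB, hAB⟩

lemma le_cfil (G : Filtration ℝ≥0 m0) (t : ℝ≥0) : G t ≤ cfil G μ t := by
  intro A hA
  exact ⟨A, hA, EventuallyEq.rfl⟩

lemma measurable_cfil {G : Filtration ℝ≥0 m0} {t : ℝ≥0} {f g : α → ℝ} (hf : Measurable[G t] f)
    (hg : g =ᵐ[μ] f) : Measurable[cfil G μ t] g :=
  @Measurable.eventuallyMeasurable_of_eventuallyEq α (G t) (ae μ) _ ℝ _ f g hf hg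

end

section abstract_nonsense

variable {α : Type*} {m0 m1 : MeasurableSpace α} (hm : m0 ≤ m1) {μ : @Measure α m0}
  {ν : @Measure α m1} (hν : ∀ s : Set α, ν s = μ s)

include hν in
lemma ae_cm : ae ν = ae μ := by
  ext s
  rw [mem_ae_iff, mem_ae_iff, hν]

include hm hν in
lemma trim_cm : ν.trim hm = μ := by
  refine @Measure.ext α m0 _ _ fun s hs => ?_
  rw [trim_measurableSet_eq hm hs, hν]

include hm hν in
lemma integrable_cm {f : α → ℝ} (hf : Integrable f μ) : Integrable f ν := by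
  refine integrable_of_integrable_trim hm ?_
  rw [trim_cm hm hν]
  exact hf

include hm hν in
lemma setIntegral_cm {f : α → ℝ} (hf : Measurable[m0] f) {s : Set α} (hs : MeasurableSet[m0] s) :
    ∫ x in s, f x ∂ν = ∫ x in s, f x ∂μ := by
  have h := setIntegral_trim (μ := ν) hm hf.stronglyMeasurable hs
  rw [trim_cm hm hν] at h
  exact h

end abstract_nonsense

theorem martingale_completion {α : Type*} {m0 : MeasurableSpace α} {μ : Measure α}
    [IsFiniteMeasure μ] (G : Filtration ℝ≥0 m0) {X Y : ℝ≥0 → α → ℝ}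
    (hX : ∀ t, Measurable[G t] (X t)) (hint : ∀ t, Integrable (X t) μ)
    (hset : ∀ s t, s ≤ t → ∀ A, MeasurableSet[G s] A → ∫ x in A, X t x ∂μ = ∫ x in A, X s x ∂μ)
    (hXY : ∀ t, Y t =ᵐ[μ] X t) :
    Martingale Y (cfil G μ) (cmu μ) := by
  have hfin : IsFiniteMeasure (cmu μ) := ⟨by
    rw [cmu_apply]
    exact measure_lt_top _ _⟩
  have hYX : ∀ t, Y t =ᵐ[cmu μ] X t := hXY
  have hYint : ∀ t, Integrable (Y t) (cmu μ) := fun t =>
    (integrable_cm le_mc (cmu_apply μ) (hint t)).congr (hYX t).symm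
  have hYm : ∀ t, Measurable[cfil G μ t] (Y t) := fun t => measurable_cfil (hX t) (hXY t)
  have hXm : ∀ t, Measurable[m0] (X t) := fun t => (hX t).mono (G.le t) le_rfl
  have key : ∀ t s (A : Set α), MeasurableSet[G s] A →
      ∫ x in A, Y t x ∂(cmu μ) = ∫ x in A, X t x ∂μ := by
    intro t s A hA
    rw [← setIntegral_cm le_mc (cmu_apply μ) (hXm t) (G.le s _ hA)]
    refine setIntegral_congr_ae (le_mc _ (G.le s _ hA)) ?_
    filter_upwards [hYX t] with x hx _ using hx
  refine ⟨fun t => (hYm t).stronglyMeasurable, fun s t hst => ?_⟩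
  refine (ae_eq_condExp_of_forall_setIntegral_eq ((cfil G μ).le s) (hYint t)
    (fun A _ _ => (hYint s).integrableOn) ?_
    (hYm s).stronglyMeasurable.aestronglyMeasurable).symm
  rintro A ⟨B, hB, hAB⟩ -
  have hAB' : A =ᵐ[cmu μ] B := hAB
  rw [setIntegral_congr_set hAB', setIntegral_congr_set hAB', key s s B hB, key t s B hB,
    hset s t hst B hB]

instance {α : Type*} {m0 : MeasurableSpace α} (μ : Measure α) : (cmu μ).IsComplete :=
  ⟨fun _ hz => ⟨∅, @MeasurableSet.empty α m0, ae_eq_empty.2 hz⟩⟩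

instance {α : Type*} {m0 : MeasurableSpace α} (μ : Measure α) [IsProbabilityMeasure μ] :
    IsProbabilityMeasure (cmu μ) := ⟨by rw [cmu_apply]; exact measure_univ⟩

end Pool.Agent.T2H99.RG
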