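import Pool.Agent.T2H99.RG.K
import Pool.Agent.T2H99.RG.L

/-!
The large filtration.
-/

set_option autoImplicit false

open MeasureTheory ProbabilityTheory Finset Filter
open scoped ENNReal NNReal Topology

namespace Pool.Agent.T2H99.RG

variable {Ω : Type*} {mΩ : MeasurableSpace Ω} {P : Measure Ω} {W : ℝ≥0 → Ω → ℝ}

/-- The signs and the path of the Brownian motion up to time `t`. -/
def pst (W : ℝ≥0 → Ω → ℝ) (t : ℝ≥0) (p : (ℕ → Bool) × Ω) : (ℕ → Bool) × (Set.Iic t → ℝ) :=
  (p.1, fun s => W s p.2)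

lemma measurable_pst (hW : NiceBM P W) (t : ℝ≥0) : Measurable (pst W t) :=
  measurable_fst.prodMk (measurable_pi_lambda _ fun s => (hW.meas s).comp measurable_snd)

/-- The large filtration. -/
noncomputable def GG (hW : NiceBM P W) : Filtration ℝ≥0
    (inferInstance : MeasurableSpace ((ℕ → Bool) × Ω)) where
  seq t := MeasurableSpace.comap (pst W t) inferInstance
  mono' := by
    intro s t hst
    set r : (ℕ → Bool) × (Set.Iic t → ℝ) → (ℕ → Bool) × (Set.Iic s → ℝ) := fun x =>
      (x.1, fun u => x.2 ⟨u.1, le_trans u.2 hst⟩) with hr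
    have hrm : Measurable r := measurable_fst.prodMk (measurable_pi_lambda _ fun u =>
      (measurable_pi_apply _).comp measurable_snd)
    have e : pst W s = r ∘ pst W t := rfl
    simp only
    rw [e, ← MeasurableSpace.comap_comp]
    exact MeasurableSpace.comap_mono hrm.comap_le
  le' t := (measurable_pst hW t).comap_le

lemma GG_seq (hW : NiceBM P W) (t : ℝ≥0) :
    GG hW t = MeasurableSpace.comap (pst W t) inferInstance := rfl

lemma measurable_comp_pst (hW : NiceBM P W) {t : ℝ≥0} {g : (ℕ → Bool) × (Set.Iic t → ℝ) → ℝ}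
    (hg : Measurable g) : Measurable[GG hW t] (fun p => g (pst W t p)) := by
  intro s hs
  exact ⟨_, hg hs, rfl⟩

lemma measurable_W_GG (hW : NiceBM P W) {s t : ℝ≥0} (hst : s ≤ t) :
    Measurable[GG hW t] (fun p : (ℕ → Bool) × Ω => W s p.2) :=
  measurable_comp_pst hW (g := fun x => x.2 ⟨s, hst⟩) ((measurable_pi_apply _).comp measurable_snd)

lemma measurable_V_GG (hW : NiceBM P W) (s : ℝ) (t : ℝ≥0) :
    Measurable[GG hW t] (fun p : (ℕ → Bool) × Ω => V p.1 s) :=
  measurable_comp_pst hW (g := fun x => V x.1 s) ((measurable_V s).comp measurable_fst)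

lemma measurable_BB_GG (hW : NiceBM P W) {s t : ℝ≥0} (hst : s ≤ t) :
    Measurable[GG hW t] (BB W s) := by
  unfold BB
  exact (measurable_W_GG hW hst).add (measurable_V_GG hW s t)

variable [IsProbabilityMeasure P]

lemma integrable_W (hW : NiceBM P W) (t : ℝ≥0) :
    Integrable (fun p : (ℕ → Bool) × Ω => W t p.2) (signs.prod P) :=
  (hW.bm.integrable_eval t).comp_snd signs

lemma setIntegral_W (hW : NiceBM P W) (s t : ℝ≥0) (hst : s ≤ t) (A : Set ((ℕ → Bool) × Ω))
    (hA : MeasurableSet[GG hW s] A) :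
    ∫ p in A, W t p.2 ∂(signs.prod P) = ∫ p in A, W s p.2 ∂(signs.prod P) := by
  have hAm : MeasurableSet A := (GG hW).le s _ hA
  rw [← sub_eq_zero, ← integral_sub (integrable_W hW t).integrableOn
    (integrable_W hW s).integrableOn, ← integral_indicator hAm]
  obtain ⟨A', hA', rfl⟩ := hA
  have hint : Integrable ((pst W s ⁻¹' A').indicator fun p : (ℕ → Bool) × Ω => W t p.2 - W s p.2)
      (signs.prod P) := ((integrable_W hW t).sub (integrable_W hW s)).indicator hAm
  rw [integral_prod _ hint]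
  have h0 : ∀ φ, ∫ ω, (pst W s ⁻¹' A').indicator (fun p : (ℕ → Bool) × Ω => W t p.2 - W s p.2)
      (φ, ω) ∂P = 0 := by
    intro φ
    set g : (Set.Iic s → ℝ) → ℝ := fun y => A'.indicator (fun _ => (1 : ℝ)) (φ, y) with hg
    have hgm : Measurable g := (measurable_const.indicator hA').comp measurable_prodMk_left
    have hev : Measurable fun x : ℝ≥0 → ℝ => x (t - s) := measurable_pi_apply _
    have hind := (hW.bm.indepFun_shift s).comp (φ := fun x => x (t - s)) (ψ := g) hev hgm
    have e : ∀ ω, (pst W s ⁻¹' A').indicator (fun p : (ℕ → Bool) × Ω => W t p.2 - W s p.2)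
      (φ, ω) = (W (s + (t - s)) ω - W s ω) * g (fun u => W u ω) := by
      intro ω
      rw [add_tsub_cancel_of_le hst]
      by_cases h : pst W s (φ, ω) ∈ A'
      · rw [Set.indicator_of_mem (show (φ, ω) ∈ pst W s ⁻¹' A' from h), hg]
        have h' : ((φ, fun u => W u ω) : (ℕ → Bool) × (Set.Iic s → ℝ)) ∈ A' := h
        simp only
        rw [Set.indicator_of_mem h', mul_one]
      · rw [Set.indicator_of_notMem (show (φ, ω) ∉ pst W s ⁻¹' A' from h), hg]
        have h' : ((φ, fun u => W u ω) : (ℕ → Bool) × (Set.Iic s → ℝ)) ∉ A' := h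
        simp only
        rw [Set.indicator_of_notMem h', mul_zero]
    simp_rw [e]
    have h2 := hind.integral_fun_mul_eq_mul_integral
      ((hW.meas _).sub (hW.meas _)).aestronglyMeasurable
      (hgm.comp (measurable_pi_lambda _ fun u => hW.meas _)).aestronglyMeasurable
    refine h2.trans ?_
    have h3 : ∫ ω, ((fun x : ℝ≥0 → ℝ => x (t - s)) ∘ fun ω t => W (s + t) ω - W s ω) ω ∂P = 0 := by
      simp only [Function.comp_apply]
      rw [integral_sub (hW.bm.integrable_eval _) (hW.bm.integrable_eval _), hW.bm.integral_eval,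
        hW.bm.integral_eval, sub_zero]
    rw [h3, zero_mul]
  simp_rw [h0]
  simp

end Pool.Agent.T2H99.RG
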