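import Pool.Agent.T2H99.RG.N

/-!
The small filtration.
-/

set_option autoImplicit false

open MeasureTheory ProbabilityTheory Finset Filter
open scoped ENNReal NNReal Topology

namespace Pool.Agent.T2H99.RG

variable {Ω : Type*} {mΩ : MeasurableSpace Ω} {P : Measure Ω} {W : ℝ≥0 → Ω → ℝ}

lemma YY_trunc (W : ℝ≥0 → Ω → ℝ) (m : ℕ) {j k : ℕ} (h : j ≤ k) (p : (ℕ → Bool) × Ω) (i : ℕ) :
    YY W m j p i = YY W m k p (min i j) := by
  unfold YY
  have : min (min i j) k = min i j := by omega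
  rw [this]

lemma YY_succ (W : ℝ≥0 → Ω → ℝ) (m : ℕ) {j k : ℕ} (h : 2 * j ≤ k) (p : (ℕ → Bool) × Ω) (i : ℕ) :
    YY W m j p i = YY W (m + 1) k p (2 * min i j) := by
  unfold YY
  have : min (2 * min i j) k = 2 * min i j := by omega
  rw [this, dt_succ]

lemma comap_YY_mono (W : ℝ≥0 → Ω → ℝ) (m : ℕ) {j k : ℕ} (h : j ≤ k) :
    MeasurableSpace.comap (YY W m j) inferInstance ≤
      MeasurableSpace.comap (YY W m k) inferInstance := by
  set r : (ℕ → ℝ) → ℕ → ℝ := fun y i => y (min i j) with hr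
  have hrm : Measurable r := measurable_pi_lambda _ fun i => measurable_pi_apply _
  have e : YY W m j = r ∘ YY W m k := by
    funext p i
    exact YY_trunc W m h p i
  rw [e, ← MeasurableSpace.comap_comp]
  exact MeasurableSpace.comap_mono hrm.comap_le

lemma comap_YY_succ (W : ℝ≥0 → Ω → ℝ) (m : ℕ) {j k : ℕ} (h : 2 * j ≤ k) :
    MeasurableSpace.comap (YY W m j) inferInstance ≤
      MeasurableSpace.comap (YY W (m + 1) k) inferInstance := by
  set r : (ℕ → ℝ) → ℕ → ℝ := fun y i => y (2 * min i j) with hr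
  have hrm : Measurable r := measurable_pi_lambda _ fun i => measurable_pi_apply _
  have e : YY W m j = r ∘ YY W (m + 1) k := by
    funext p i
    exact YY_succ W m h p i
  rw [e, ← MeasurableSpace.comap_comp]
  exact MeasurableSpace.comap_mono hrm.comap_le

lemma fl_mono (m : ℕ) {s t : ℝ} (h : s ≤ t) : fl m s ≤ fl m t := by
  rw [fl_eq, fl_eq]
  exact Nat.floor_le_floor (mul_le_mul_of_nonneg_left h (by positivity))

lemma two_mul_fl_le (m : ℕ) (t : ℝ) : 2 * fl m t ≤ fl (m + 1) t := by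
  have := fl_half m t
  omega

/-- The observations up to time `t` at level `m`. -/
@[reducible] noncomputable def FM (W : ℝ≥0 → Ω → ℝ) (t : ℝ) (m : ℕ) : MeasurableSpace ((ℕ → Bool) × Ω) :=
  MeasurableSpace.comap (YY W m (fl m t)) inferInstance

lemma FM_mono_left (W : ℝ≥0 → Ω → ℝ) {s t : ℝ} (h : s ≤ t) (m : ℕ) : FM W s m ≤ FM W t m :=
  comap_YY_mono W m (fl_mono m h)

lemma FM_mono (W : ℝ≥0 → Ω → ℝ) (t : ℝ) : Monotone (FM W t) :=
  monotone_nat_of_le_succ fun m => comap_YY_succ W m (two_mul_fl_le m t)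

/-- The small filtration. -/
noncomputable def FB (hW : NiceBM P W) : Filtration ℝ≥0
    (inferInstance : MeasurableSpace ((ℕ → Bool) × Ω)) where
  seq t := ⨆ m, FM W t m
  mono' := by
    intro s t hst
    exact iSup_mono fun m => FM_mono_left W (by exact_mod_cast hst) m
  le' t := iSup_le fun m => (measurable_YY hW m _).comap_le

lemma FB_seq (hW : NiceBM P W) (t : ℝ≥0) : FB hW t = ⨆ m, FM W t m := rfl

lemma dt_fl_le (m : ℕ) (t : ℝ≥0) : dt m (fl m t) ≤ t := by
  rw [← NNReal.coe_le_coe, dt_coe, fl_eq, div_le_iff₀ (by positivity), mul_comm]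
  exact Nat.floor_le (by positivity)

lemma lt_dt_fl (m : ℕ) (t : ℝ≥0) : (t : ℝ) < dt m (fl m t) + 1 / 2 ^ m := by
  rw [dt_coe, fl_eq, ← add_div, lt_div_iff₀ (by positivity), mul_comm]
  exact Nat.lt_floor_add_one _

lemma FB_le_GG (hW : NiceBM P W) (t : ℝ≥0) : FB hW t ≤ GG hW t := by
  rw [FB_seq]
  refine iSup_le fun m => ?_
  unfold FM
  refine Measurable.comap_le ?_
  refine @measurable_pi_lambda _ _ _ (GG hW t) _ _ fun j => ?_
  exact measurable_BB_GG hW ((dt_mono m (min_le_right _ _)).trans (dt_fl_le m t))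

lemma tendsto_half_pow : Tendsto (fun m : ℕ => (1 / 2 ^ m : ℝ)) atTop (𝓝 0) := by
  have : (fun m : ℕ => (1 / 2 ^ m : ℝ)) = fun m : ℕ => (1 / 2 : ℝ) ^ m := by
    funext m
    rw [div_pow, one_pow]
  rw [this]
  exact tendsto_pow_atTop_nhds_zero_of_lt_one (by norm_num) (by norm_num)

lemma tendsto_dt_fl (t : ℝ≥0) : Tendsto (fun m => dt m (fl m t)) atTop (𝓝 t) := by
  rw [← NNReal.tendsto_coe]
  refine tendsto_of_tendsto_of_tendsto_of_le_of_le (g := fun m : ℕ => (t : ℝ) - 1 / 2 ^ m)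
    (h := fun _ => (t : ℝ)) ?_ tendsto_const_nhds ?_ ?_
  · have h1 := tendsto_half_pow.const_sub (t : ℝ)
    rw [sub_zero] at h1
    exact h1
  · intro m
    have := lt_dt_fl m t
    simp only
    linarith
  · intro m
    exact_mod_cast dt_fl_le m t

lemma measurable_BB_FB (hW : NiceBM P W) (t : ℝ≥0) : Measurable[FB hW t] (BB W t) := by
  have h1 : ∀ m, Measurable[FB hW t] (BB W (dt m (fl m t))) := by
    intro m
    have h2 : FM W t m ≤ FB hW t := by
      rw [FB_seq]
      exact le_iSup (FM W t) m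
    refine Measurable.mono (ma := FM W t m) ?_ h2 le_rfl
    have e : BB W (dt m (fl m t)) = (fun y : ℕ → ℝ => y (fl m t)) ∘ YY W m (fl m t) := by
      funext p
      simp [YY]
    rw [e]
    have hev : Measurable fun y : ℕ → ℝ => y (fl m t) := measurable_pi_apply _
    exact hev.comp (comap_measurable _)
  refine @measurable_of_tendsto_metrizable _ _ (FB hW t) _ _ _ _ _ _ h1 ?_
  rw [tendsto_pi_nhds]
  intro p
  exact ((continuous_BB hW p).tendsto t).comp (tendsto_dt_fl t)

/-! The integral of a predictable function. -/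

section abstract_meas

variable {α : Type*} {mα : MeasurableSpace α}

lemma meas_kappa1 {Y : ℕ → ℕ → α → ℕ → ℝ} {t : ℝ} (hY : ∀ m, Measurable (Y m (fl m t)))
    (htr : ∀ m j k, j ≤ k → ∀ p i, Y m j p i = Y m k p (min i j)) (m : ℕ) :
    Measurable fun q : α × ℝ =>
      ((fl m (min q.2 t), Y m (fl m (min q.2 t)) q.1) : ℕ × (ℕ → ℝ)) := by
  have h1 : Measurable fun q : α × ℝ => fl m (min q.2 t) :=
    (measurable_fl m).comp (measurable_snd.min measurable_const)
  refine h1.prodMk (measurable_pi_lambda _ fun i => ?_)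
  have h2 : Measurable fun r : α × ℕ => Y m (fl m t) r.1 (min i r.2) :=
    measurable_from_prod_countable_left fun k => by
      have hev : Measurable fun y : ℕ → ℝ => y (min i k) := measurable_pi_apply _
      exact hev.comp (hY m)
  have h3 : Measurable fun q : α × ℝ => (q.1, fl m (min q.2 t)) := measurable_fst.prodMk h1
  have e : (fun q : α × ℝ => Y m (fl m (min q.2 t)) q.1 i) =
      (fun r : α × ℕ => Y m (fl m t) r.1 (min i r.2)) ∘ fun q : α × ℝ => (q.1, fl m (min q.2 t)) := by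
    funext q
    exact htr m _ _ (fl_mono m (min_le_right _ _)) q.1 i
  rw [e]
  exact h2.comp h3

lemma meas_kappa2 {Y : ℕ → ℕ → α → ℕ → ℝ} {t : ℝ} (hY : ∀ m, Measurable (Y m (fl m t)))
    (htr : ∀ m j k, j ≤ k → ∀ p i, Y m j p i = Y m k p (min i j)) {β : α × ℝ → ℝ}
    (hβ : Measurable[⨆ m, MeasurableSpace.comap
      (fun q : α × ℝ => ((fl m q.2, Y m (fl m q.2) q.1) : ℕ × (ℕ → ℝ))) inferInstance] β) :
    Measurable fun q : α × ℝ => β (q.1, min q.2 t) := by
  have h1 : @Measurable _ _ _ (⨆ m, MeasurableSpace.comap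
      (fun q : α × ℝ => ((fl m q.2, Y m (fl m q.2) q.1) : ℕ × (ℕ → ℝ))) inferInstance)
      (fun q : α × ℝ => (q.1, min q.2 t)) := by
    rw [measurable_iff_comap_le, MeasurableSpace.comap_iSup]
    refine iSup_le fun m => ?_
    rw [MeasurableSpace.comap_comp]
    exact (meas_kappa1 hY htr m).comap_le
  exact hβ.comp h1

lemma meas_kappa3 {Y : ℕ → ℕ → α → ℕ → ℝ} {t : ℝ} (hY : ∀ m, Measurable (Y m (fl m t)))
    (htr : ∀ m j k, j ≤ k → ∀ p i, Y m j p i = Y m k p (min i j)) {β : α × ℝ → ℝ}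
    (hβ : Measurable[⨆ m, MeasurableSpace.comap
      (fun q : α × ℝ => ((fl m q.2, Y m (fl m q.2) q.1) : ℕ × (ℕ → ℝ))) inferInstance] β) :
    Measurable fun p : α => ∫ u in Set.Iic t, β (p, u) ∂lam := by
  have h1 := (meas_kappa2 hY htr hβ).stronglyMeasurable
  have h2 := h1.integral_prod_right' (ν := lam.restrict (Set.Iic t))
  have e : (fun p : α => ∫ u in Set.Iic t, β (p, u) ∂lam) =
      fun p : α => ∫ u in Set.Iic t, β (p, min u t) ∂lam := by
    funext p
    refine setIntegral_congr_fun measurableSet_Iic fun u hu => ?_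
    have hu' : min u t = u := min_eq_left hu
    change β (p, u) = β (p, min u t)
    rw [hu']
  rw [e]
  exact h2.measurable

end abstract_meas

variable [IsProbabilityMeasure P]

/-- The integrated drift. -/
noncomputable def DI (hW : NiceBM P W) (t : ℝ) (p : (ℕ → Bool) × Ω) : ℝ :=
  ∫ u in Set.Iic t, bl hW (p, u) ∂lam

lemma measurable_DI (hW : NiceBM P W) (t : ℝ≥0) : Measurable[FB hW t] (DI hW t) := by
  have h1 : ∀ m, Measurable[FB hW t] (YY W m (fl m t)) := by
    intro m
    have h2 : FM W t m ≤ FB hW t := by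
      rw [FB_seq]
      exact le_iSup (FM W t) m
    exact (comap_measurable (YY W m (fl m t))).mono h2 le_rfl
  have h3 : Measurable[⨆ m, HH hW m] (bl hW) := (bl_meas hW).measurable
  exact @meas_kappa3 _ (FB hW t) (YY W) t h1 (fun m j k h p i => YY_trunc W m h p i) _ h3

end Pool.Agent.T2H99.RG
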