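import Pool.Agent.T2H99.RG.O

/-!
The martingale identity in the small filtration.
-/

set_option autoImplicit false

open MeasureTheory ProbabilityTheory Finset Filter
open scoped ENNReal NNReal Topology

namespace Pool.Agent.T2H99.RG

variable {Ω : Type*} {mΩ : MeasurableSpace Ω} {P : Measure Ω} {W : ℝ≥0 → Ω → ℝ}

/-- A box in space and time. -/
def box (A : Set ((ℕ → Bool) × Ω)) (n j k : ℕ) : Set (((ℕ → Bool) × Ω) × ℝ) :=
  {q | q.1 ∈ A ∧ j ≤ fl n q.2 ∧ fl n q.2 < k}

lemma box_eq (W : ℝ≥0 → Ω → ℝ) (A' : Set (ℕ → ℝ)) (n j k : ℕ) :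
    box (YY W n j ⁻¹' A') n j k =
      Psi W n ⁻¹' {x | (fun i => x.2 (min i j)) ∈ A' ∧ j ≤ x.1 ∧ x.1 < k} := by
  ext q
  simp only [box, Psi, Set.mem_preimage, Set.mem_ofPred_eq]
  refine and_congr_left fun h => ?_
  have : (fun i => YY W n (fl n q.2) q.1 (min i j)) = YY W n j q.1 := by
    funext i
    exact (YY_trunc W n h.1 q.1 i).symm
  rw [this]

lemma measurableSet_S {A' : Set (ℕ → ℝ)} (hA' : MeasurableSet A') (j k : ℕ) :
    MeasurableSet {x : ℕ × (ℕ → ℝ) | (fun i => x.2 (min i j)) ∈ A' ∧ j ≤ x.1 ∧ x.1 < k} := by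
  have h1 : Measurable fun x : ℕ × (ℕ → ℝ) => (fun i => x.2 (min i j)) :=
    measurable_pi_lambda _ fun i => (measurable_pi_apply _).comp measurable_snd
  have h2 : MeasurableSet {x : ℕ × (ℕ → ℝ) | j ≤ x.1 ∧ x.1 < k} :=
    measurable_fst (MeasurableSet.of_discrete (s := {i : ℕ | j ≤ i ∧ i < k}))
  exact (h1 hA').inter h2

lemma measurableSet_box (hW : NiceBM P W) {n j k : ℕ} {A : Set ((ℕ → Bool) × Ω)}
    (hA : MeasurableSet[MeasurableSpace.comap (YY W n j) inferInstance] A) :
    MeasurableSet[HH hW n] (box A n j k) := by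
  obtain ⟨A', hA', rfl⟩ := hA
  rw [box_eq W]
  exact ⟨_, measurableSet_S hA' j k, rfl⟩

lemma sum_ite_w (φ : ℕ → Bool) (n : ℕ) {j k : ℕ} (hjk : j ≤ k) :
    ∑ i ∈ range (2 ^ n), (if j ≤ i ∧ i < k then w φ n i / 2 ^ n else 0) =
      V φ (k / 2 ^ n) - V φ (j / 2 ^ n) := by
  rw [V_dyadic, V_dyadic]
  unfold S
  rw [← sub_div, ← sum_Ico_eq_sub _ hjk, sum_div, ← sum_filter]
  refine sum_subset (fun i hi => ?_) (fun i hi hi' => ?_)
  · rw [mem_filter] at hi
    exact Finset.mem_Ico.2 hi.2
  · rw [Finset.mem_Ico] at hi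
    rw [mem_filter, not_and', mem_range] at hi'
    rw [w_zero_of_le _ _ _ (not_lt.1 (hi' hi)), zero_div]

variable [IsProbabilityMeasure P]

omit [IsProbabilityMeasure P] in
lemma lint_box (hW : NiceBM P W) {n j k : ℕ} (hjk : j ≤ k) {A : Set ((ℕ → Bool) × Ω)}
    (hA : MeasurableSet[MeasurableSpace.comap (YY W n j) inferInstance] A) :
    ∫⁻ q in box A n j k, ENNReal.ofReal (vv Ω n q) ∂(mm P) =
      ∫⁻ p in A, ENNReal.ofReal (V p.1 (k / 2 ^ n) - V p.1 (j / 2 ^ n)) ∂(signs.prod P) := by
  have hbox : MeasurableSet (box A n j k) := (HH hW).le n _ (measurableSet_box hW hA)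
  have hAm : MeasurableSet A := (measurable_YY hW n j).comap_le _ hA
  obtain ⟨A', hA', rfl⟩ := hA
  set S := {x : ℕ × (ℕ → ℝ) | (fun i => x.2 (min i j)) ∈ A' ∧ j ≤ x.1 ∧ x.1 < k} with hS
  have hSm : MeasurableSet S := measurableSet_S hA' j k
  have h1 := lint_Psi (P := P) hW n 0 (g := S.indicator fun _ => (1 : ℝ≥0∞))
    (measurable_const.indicator hSm)
  have h2 : ∫⁻ q in box (YY W n j ⁻¹' A') n j k, ENNReal.ofReal (vv Ω n q) ∂(mm P) =
      ∫⁻ q, S.indicator (fun _ => (1 : ℝ≥0∞)) (Psi W n q) * ENNReal.ofReal (vv Ω (n + 0) q)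
        ∂((signs.prod P).prod lam) := by
    rw [← lintegral_indicator hbox]
    refine lintegral_congr fun q => ?_
    rw [box_eq W]
    by_cases hq : Psi W n q ∈ S
    · rw [Set.indicator_of_mem hq, Set.indicator_of_mem (show q ∈ Psi W n ⁻¹' S from hq), one_mul]
      rfl
    · rw [Set.indicator_of_notMem hq, Set.indicator_of_notMem (show q ∉ Psi W n ⁻¹' S from hq),
        zero_mul]
  rw [h2, h1, ← lintegral_finsetSum, ← lintegral_indicator hAm]
  · refine lintegral_congr fun p => ?_
    by_cases hp : p ∈ YY W n j ⁻¹' A'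
    · rw [Set.indicator_of_mem hp, ← sum_ite_w _ _ hjk, ENNReal.ofReal_sum_of_nonneg]
      · refine sum_congr rfl fun i _ => ?_
        by_cases hi : j ≤ i ∧ i < k
        · have : (i, YY W n i p) ∈ S := by
            refine ⟨?_, hi⟩
            have h3 : (fun l => YY W n i p (min l j)) = YY W n j p := by
              funext l
              exact (YY_trunc W n hi.1 p l).symm
            change (fun l => YY W n i p (min l j)) ∈ A'
            rw [h3]
            exact hp
          rw [Set.indicator_of_mem this, if_pos hi, one_mul]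
        · have : (i, YY W n i p) ∉ S := fun h => hi h.2
          rw [Set.indicator_of_notMem this, if_neg hi, zero_mul, ENNReal.ofReal_zero]
      · intro i _
        have := w_nonneg p.1 n i
        split_ifs <;> positivity
    · rw [Set.indicator_of_notMem hp]
      refine sum_eq_zero fun i _ => ?_
      have : (i, YY W n i p) ∉ S := by
        intro h
        refine hp ?_
        have h3 : (fun l => YY W n i p (min l j)) = YY W n j p := by
          funext l
          exact (YY_trunc W n h.2.1 p l).symm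
        have h4 : (fun l => YY W n i p (min l j)) ∈ A' := h.1
        rw [h3] at h4
        exact h4
      rw [Set.indicator_of_notMem this, zero_mul]
  · intro i _
    refine ((measurable_const.indicator hSm).comp (measurable_const.prodMk (measurable_YY hW n i))).mul ?_
    exact (((measurable_w n i).comp measurable_fst).div_const _).ennreal_ofReal

lemma V_sub_nonneg (φ : ℕ → Bool) {s t : ℝ} (h : s ≤ t) : 0 ≤ V φ t - V φ s :=
  sub_nonneg.2 (V_mono φ h)

lemma measurable_V' (t : ℝ) : Measurable fun p : (ℕ → Bool) × Ω => V p.1 t :=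
  (measurable_V t).comp measurable_fst

lemma integral_box (hW : NiceBM P W) {n j k : ℕ} (hjk : j ≤ k) {A : Set ((ℕ → Bool) × Ω)}
    (hA : MeasurableSet[MeasurableSpace.comap (YY W n j) inferInstance] A) :
    ∫ q in box A n j k, bl hW q ∂(mm P) =
      ∫ p in A, (V p.1 (k / 2 ^ n) - V p.1 (j / 2 ^ n)) ∂(signs.prod P) := by
  rw [setIntegral_bl hW n (measurableSet_box hW hA)]
  have hd : (j : ℝ) / 2 ^ n ≤ k / 2 ^ n := by
    have : (j : ℝ) ≤ k := by exact_mod_cast hjk
    gcongr
  rw [integral_eq_lintegral_of_nonneg_ae (Eventually.of_forall fun q => vv_nonneg _ q)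
    (measurable_vv _).aestronglyMeasurable,
    integral_eq_lintegral_of_nonneg_ae (Eventually.of_forall fun p => V_sub_nonneg _ hd)
    ((measurable_V' _).sub (measurable_V' _)).aestronglyMeasurable, lint_box hW hjk hA]

end Pool.Agent.T2H99.RG
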