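import Pool.Agent.T2H99.RG.Q

/-!
The martingale identity in the small filtration, continued.
-/

set_option autoImplicit false

open MeasureTheory ProbabilityTheory Finset Filter
open scoped ENNReal NNReal Topology

namespace Pool.Agent.T2H99.RG

variable {Ω : Type*} {mΩ : MeasurableSpace Ω} {P : Measure Ω} {W : ℝ≥0 → Ω → ℝ}
  [IsProbabilityMeasure P]

lemma V_abs_le (φ : ℕ → Bool) (s t : ℝ) : ‖V φ t - V φ s‖ ≤ 1 := by
  rw [Real.norm_eq_abs, abs_le]
  have := V_nonneg φ s
  have := V_nonneg φ t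
  have := V_le_one φ s
  have := V_le_one φ t
  constructor <;> linarith

lemma tendsto_dt_fl_succ (t : ℝ≥0) : Tendsto (fun m => dt m (fl m t + 1)) atTop (𝓝 t) := by
  rw [← NNReal.tendsto_coe]
  have h1 : ∀ m : ℕ, ((dt m (fl m t + 1) : ℝ≥0) : ℝ) = dt m (fl m t) + 1 / 2 ^ m := by
    intro m
    rw [dt_coe, dt_coe]
    push_cast
    ring
  simp_rw [h1]
  have h2 := (NNReal.tendsto_coe.2 (tendsto_dt_fl t)).add tendsto_half_pow
  rw [add_zero] at h2
  exact h2

lemma tendsto_V_fl (φ : ℕ → Bool) (t : ℝ≥0) :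
    Tendsto (fun n : ℕ => V φ ((fl n t + 1 : ℕ) / 2 ^ n)) atTop (𝓝 (V φ t)) := by
  have h := ((V_continuousOn φ).tendsto t).comp (tendsto_dt_fl_succ t)
  refine h.congr fun n => ?_
  simp only [Function.comp_apply]
  rw [dt_coe]

lemma fl_lt_eventually {s t : ℝ} (hs : 0 ≤ s) (h : s < t) : ∀ᶠ n in atTop, fl n s < fl n t := by
  have h1 := tendsto_half_pow.eventually (gt_mem_nhds (sub_pos.2 h))
  filter_upwards [h1] with n hn
  rw [fl_eq, fl_eq]
  have h2 : (1 : ℝ) ≤ 2 ^ n * t - 2 ^ n * s := by
    rw [← mul_sub]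
    rw [div_lt_iff₀ (by positivity)] at hn
    linarith
  have h3 : ⌊2 ^ n * s⌋₊ + 1 = ⌊2 ^ n * s + 1⌋₊ := (Nat.floor_add_one (by positivity)).symm
  have h4 : ⌊2 ^ n * s + 1⌋₊ ≤ ⌊2 ^ n * t⌋₊ := Nat.floor_le_floor (by linarith)
  omega

/-- A box with real time endpoints. -/
def rbox (A : Set ((ℕ → Bool) × Ω)) (s t : ℝ) : Set (((ℕ → Bool) × Ω) × ℝ) :=
  A ×ˢ Set.Ioc s t

omit [IsProbabilityMeasure P] in
lemma tendsto_indicator_box (hW : NiceBM P W) (A : Set ((ℕ → Bool) × Ω)) (s t : ℝ≥0)
    (q : ((ℕ → Bool) × Ω) × ℝ) (f : ((ℕ → Bool) × Ω) × ℝ → ℝ) :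
    Tendsto (fun n => (box A n (fl n s + 1) (fl n t + 1)).indicator f q) atTop
      (𝓝 ((rbox A s t).indicator f q)) := by
  refine tendsto_const_nhds.congr' ?_
  by_cases hA : q.1 ∈ A
  · by_cases hs : (s : ℝ) < q.2
    · by_cases ht : q.2 ≤ t
      · filter_upwards [fl_lt_eventually (NNReal.coe_nonneg s) hs] with n hn
        have h1 : q ∈ box A n (fl n s + 1) (fl n t + 1) :=
          ⟨hA, hn, Nat.lt_succ_of_le (fl_mono n ht)⟩
        have h2 : q ∈ rbox A s t := ⟨hA, hs, ht⟩
        rw [Set.indicator_of_mem h1, Set.indicator_of_mem h2]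
      · filter_upwards [fl_lt_eventually (NNReal.coe_nonneg t) (not_le.1 ht)] with n hn
        have h1 : q ∉ box A n (fl n s + 1) (fl n t + 1) := fun h => by
          have := h.2.2
          omega
        have h2 : q ∉ rbox A s t := fun h => ht h.2.2
        rw [Set.indicator_of_notMem h1, Set.indicator_of_notMem h2]
    · refine Eventually.of_forall fun n => ?_
      have h1 : q ∉ box A n (fl n s + 1) (fl n t + 1) := fun h => by
        have h3 := h.2.1
        have h4 := fl_mono n (not_lt.1 hs)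
        omega
      have h2 : q ∉ rbox A s t := fun h => hs h.2.1
      simp only
      rw [Set.indicator_of_notMem h1, Set.indicator_of_notMem h2]
  · refine Eventually.of_forall fun n => ?_
    have h1 : q ∉ box A n (fl n s + 1) (fl n t + 1) := fun h => hA h.1
    have h2 : q ∉ rbox A s t := fun h => hA h.1
    simp only
    rw [Set.indicator_of_notMem h1, Set.indicator_of_notMem h2]

lemma measurableSet_rbox {A : Set ((ℕ → Bool) × Ω)} (hA : MeasurableSet A) (s t : ℝ) :
    MeasurableSet (rbox A s t) := hA.prod measurableSet_Ioc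

lemma rbox_basic (hW : NiceBM P W) {s t : ℝ≥0} (hst : s ≤ t) {A : Set ((ℕ → Bool) × Ω)} {m : ℕ}
    (hA : MeasurableSet[FM W s m] A) :
    ∫ p in A, (V p.1 t - V p.1 s) ∂(signs.prod P) = ∫ q in rbox A s t, bl hW q ∂(mm P) := by
  have hAm : MeasurableSet A := (measurable_YY hW m _).comap_le _ hA
  set a : ℕ → ℝ := fun n => ∫ p in A, (V p.1 ((fl n t + 1 : ℕ) / 2 ^ n) -
    V p.1 ((fl n s + 1 : ℕ) / 2 ^ n)) ∂(signs.prod P) with ha
  have h1 : Tendsto a atTop (𝓝 (∫ p in A, (V p.1 t - V p.1 s) ∂(signs.prod P))) := by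
    refine tendsto_integral_of_dominated_convergence (fun _ => (1 : ℝ)) (fun n => ?_)
      (integrable_const _) (fun n => Eventually.of_forall fun p => V_abs_le _ _ _)
      (Eventually.of_forall fun p => (tendsto_V_fl _ _).sub (tendsto_V_fl _ _))
    exact ((measurable_V' _).sub (measurable_V' _)).aestronglyMeasurable
  have h2 : Tendsto (fun n => ∫ q in box A n (fl n s + 1) (fl n t + 1), bl hW q ∂(mm P)) atTop
      (𝓝 (∫ q in rbox A s t, bl hW q ∂(mm P))) := by
    have hA2 : ∀ n ≥ m, MeasurableSet[MeasurableSpace.comap (YY W n (fl n s + 1)) inferInstance] A :=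
      fun n hn => comap_YY_mono W n (Nat.le_succ _) _ (FM_mono W s hn _ hA)
    rw [← integral_indicator (measurableSet_rbox hAm s t)]
    have h3 : Tendsto (fun n => ∫ q, (box A n (fl n s + 1) (fl n t + 1)).indicator (bl hW) q ∂(mm P))
        atTop (𝓝 (∫ q, (rbox A s t).indicator (bl hW) q ∂(mm P))) := by
      refine tendsto_integral_filter_of_dominated_convergence (fun q => ‖bl hW q‖) ?_ ?_
        (bl_int hW).norm ?_
      · filter_upwards [eventually_ge_atTop m] with n hn
        exact (bl_int hW).aestronglyMeasurable.indicator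
          ((HH hW).le n _ (measurableSet_box hW (hA2 n hn)))
      · exact Eventually.of_forall fun n => Eventually.of_forall fun q =>
          norm_indicator_le_norm_self _ _
      · exact Eventually.of_forall fun q => tendsto_indicator_box hW A s t q _
    refine h3.congr' ?_
    filter_upwards [eventually_ge_atTop m] with n hn
    exact integral_indicator ((HH hW).le n _ (measurableSet_box hW (hA2 n hn)))
  refine tendsto_nhds_unique h1 (h2.congr' ?_)
  filter_upwards [eventually_ge_atTop m] with n hn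
  have hA2 : MeasurableSet[MeasurableSpace.comap (YY W n (fl n s + 1)) inferInstance] A :=
    comap_YY_mono W n (Nat.le_succ _) _ (FM_mono W s hn _ hA)
  exact integral_box hW (Nat.succ_le_succ (fl_mono n (by exact_mod_cast hst))) hA2

lemma integrable_V (t : ℝ) : Integrable (fun p : (ℕ → Bool) × Ω => V p.1 t) (signs.prod P) := by
  refine Integrable.of_bound (C := 1) (measurable_V' t).aestronglyMeasurable
    (Eventually.of_forall fun p => ?_)
  rw [Real.norm_eq_abs, abs_of_nonneg (V_nonneg _ _)]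
  exact V_le_one _ _

lemma rbox_all (hW : NiceBM P W) {s t : ℝ≥0} (hst : s ≤ t) {A : Set ((ℕ → Bool) × Ω)}
    (hA : MeasurableSet[FB hW s] A) :
    ∫ p in A, (V p.1 t - V p.1 s) ∂(signs.prod P) = ∫ q in rbox A s t, bl hW q ∂(mm P) := by
  have hle : ⨆ m, FM W s m ≤ (inferInstance : MeasurableSpace ((ℕ → Bool) × Ω)) := (FB hW).le s
  have hVi : Integrable (fun p : (ℕ → Bool) × Ω => V p.1 t - V p.1 s) (signs.prod P) :=
    (integrable_V t).sub (integrable_V s)
  have hpi : IsPiSystem {B | ∃ m, MeasurableSet[FM W s m] B} := by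
    rw [Set.ofPred_exists]
    exact isPiSystem_iUnion_of_monotone _ (fun n => (FM W s n).isPiSystem_measurableSet)
      fun _ _ h => FM_mono W s h
  have hA1 : MeasurableSet[⨆ m, FM W s m] A := hA
  induction A, hA1
    using MeasurableSpace.induction_on_inter (MeasurableSpace.measurableSpace_iSup_eq (FM W s)) hpi with
  | empty => simp [rbox]
  | basic B hB =>
    obtain ⟨m, hm⟩ := hB
    exact rbox_basic hW hst hm
  | compl B hB ih =>
    have ih' := ih hB
    have hu : ∫ p in Set.univ, (V p.1 t - V p.1 s) ∂(signs.prod P) =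
        ∫ q in rbox Set.univ s t, bl hW q ∂(mm P) :=
      rbox_basic (m := 0) hW hst (@MeasurableSet.univ _ (FM W s 0))
    have e : rbox Set.univ s t \ rbox B s t = rbox Bᶜ (s : ℝ) (t : ℝ) := by
      ext q
      simp only [rbox, Set.mem_sdiff, Set.mem_prod, Set.mem_univ, true_and, Set.mem_compl_iff]
      tauto
    have h1 := setIntegral_sdiff (f := bl hW) (μ := mm P) (measurableSet_rbox (hle _ hB) s t)
      (bl_int hW).integrableOn
      (show rbox B (s : ℝ) t ⊆ rbox Set.univ s t from Set.prod_mono (Set.subset_univ _) le_rfl)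
    rw [e] at h1
    have h2 := setIntegral_sdiff (f := fun p : (ℕ → Bool) × Ω => V p.1 t - V p.1 s)
      (μ := signs.prod P) (hle _ hB) hVi.integrableOn (Set.subset_univ B)
    rw [← Set.compl_eq_univ_sdiff] at h2
    rw [h1, h2, ih', hu]
  | iUnion f hf hfm ih =>
    have e : rbox (⋃ i, f i) (s : ℝ) t = ⋃ i, rbox (f i) (s : ℝ) t := by
      unfold rbox
      rw [Set.iUnion_prod_const]
    rw [e, integral_iUnion (fun n => hle _ (hfm n)) hf hVi.integrableOn,
      integral_iUnion (fun n => measurableSet_rbox (hle _ (hfm n)) _ _) ?_ (bl_int hW).integrableOn]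
    · exact tsum_congr fun n => ih n (hfm n)
    · intro i j hij
      exact Set.disjoint_prod.2 (Or.inl (hf hij))

lemma DI_sub (hW : NiceBM P W) : ∀ᵐ p ∂(signs.prod P),
    Integrable (fun u => bl hW (p, u)) lam := (bl_int hW).prod_right_ae

omit [IsProbabilityMeasure P] in
lemma DI_diff (hW : NiceBM P W) {p : (ℕ → Bool) × Ω} (hp : Integrable (fun u => bl hW (p, u)) lam)
    {s t : ℝ} (hst : s ≤ t) : DI hW t p - DI hW s p = ∫ u in Set.Ioc s t, bl hW (p, u) ∂lam := by
  unfold DI
  rw [← Set.Iic_union_Ioc_eq_Iic hst, setIntegral_union _ measurableSet_Ioc hp.integrableOn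
    hp.integrableOn]
  · ring
  · exact Set.Iic_disjoint_Ioc le_rfl

lemma integrable_DI (hW : NiceBM P W) (t : ℝ) : Integrable (DI hW t) (signs.prod P) := by
  have h1 : Integrable ((Set.univ ×ˢ Set.Iic t).indicator (bl hW)) ((signs.prod P).prod lam) :=
    (bl_int hW).indicator (MeasurableSet.univ.prod measurableSet_Iic)
  refine h1.integral_prod_left.congr (Eventually.of_forall fun p => ?_)
  unfold DI
  simp only
  rw [← integral_indicator measurableSet_Iic]
  refine integral_congr_ae (Eventually.of_forall fun u => ?_)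
  by_cases hu : u ∈ Set.Iic t
  · simp only
    rw [Set.indicator_of_mem (show (p, u) ∈ (Set.univ ×ˢ Set.Iic t : Set _) from ⟨trivial, hu⟩),
      Set.indicator_of_mem hu]
  · simp only
    rw [Set.indicator_of_notMem (show (p, u) ∉ (Set.univ ×ˢ Set.Iic t : Set _) from
      fun h => hu h.2), Set.indicator_of_notMem hu]

lemma integral_DI_sub (hW : NiceBM P W) {s t : ℝ} (hst : s ≤ t) {A : Set ((ℕ → Bool) × Ω)}
    (hA : MeasurableSet A) :
    ∫ p in A, (DI hW t p - DI hW s p) ∂(signs.prod P) = ∫ q in rbox A s t, bl hW q ∂(mm P) := by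
  unfold rbox mm
  rw [setIntegral_prod _ (bl_int hW).integrableOn]
  refine setIntegral_congr_ae hA ?_
  filter_upwards [DI_sub hW] with p hp _
  exact DI_diff hW hp hst

/-- The martingale before completion. -/
noncomputable def MM (hW : NiceBM P W) (t : ℝ≥0) (p : (ℕ → Bool) × Ω) : ℝ :=
  BB W t p - DI hW t p

lemma measurable_MM (hW : NiceBM P W) (t : ℝ≥0) : Measurable[FB hW t] (MM hW t) :=
  (measurable_BB_FB hW t).sub (measurable_DI hW t)

lemma integrable_BB (hW : NiceBM P W) (t : ℝ≥0) : Integrable (BB W t) (signs.prod P) :=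
  (integrable_W hW t).add (integrable_V t)

lemma integrable_MM (hW : NiceBM P W) (t : ℝ≥0) : Integrable (MM hW t) (signs.prod P) :=
  (integrable_BB hW t).sub (integrable_DI hW t)

lemma setIntegral_MM (hW : NiceBM P W) (s t : ℝ≥0) (hst : s ≤ t) (A : Set ((ℕ → Bool) × Ω))
    (hA : MeasurableSet[FB hW s] A) :
    ∫ p in A, MM hW t p ∂(signs.prod P) = ∫ p in A, MM hW s p ∂(signs.prod P) := by
  have hAm : MeasurableSet A := (FB hW).le s _ hA
  have hst' : (s : ℝ) ≤ t := by exact_mod_cast hst
  have h1 := rbox_all hW hst hA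
  have h2 := integral_DI_sub hW hst' hAm
  have h3 := setIntegral_W hW s t hst A (FB_le_GG hW s A hA)
  rw [integral_sub (integrable_V _).integrableOn (integrable_V _).integrableOn] at h1
  rw [integral_sub (integrable_DI hW _).integrableOn (integrable_DI hW _).integrableOn] at h2
  have e : ∀ r : ℝ≥0, ∫ p in A, MM hW r p ∂(signs.prod P) =
      (∫ p in A, W r p.2 ∂(signs.prod P) + ∫ p in A, V p.1 r ∂(signs.prod P)) -
        ∫ p in A, DI hW r p ∂(signs.prod P) := by
    intro r
    have e1 : ∫ p in A, MM hW r p ∂(signs.prod P) =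
        ∫ p in A, BB W r p ∂(signs.prod P) - ∫ p in A, DI hW r p ∂(signs.prod P) :=
      integral_sub (integrable_BB hW r).integrableOn (integrable_DI hW _).integrableOn
    have e2 : ∫ p in A, BB W r p ∂(signs.prod P) =
        ∫ p in A, W r p.2 ∂(signs.prod P) + ∫ p in A, V p.1 r ∂(signs.prod P) :=
      integral_add (integrable_W hW r).integrableOn (integrable_V r).integrableOn
    rw [e1, e2]
  rw [e, e, h3]
  linarith

end Pool.Agent.T2H99.RG
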