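import Pool.Agent.T2H99.RG.R

/-!
Regularity of the paths of the drift.
-/

set_option autoImplicit false

open MeasureTheory ProbabilityTheory Finset Filter
open scoped ENNReal NNReal Topology

namespace Pool.Agent.T2H99.RG

/-- Absolute continuity of `A` with respect to `C` on every interval `[0, T]`: for every `ε` there is
`δ` such that for all finite families of non-overlapping intervals, if the total increment of `C` is
less than `δ` then the total absolute increment of `A` is less than `ε`. -/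
def ACWrt (A C : ℝ≥0 → ℝ) : Prop :=
  ∀ T : ℝ≥0, ∀ ε : ℝ, 0 < ε → ∃ δ : ℝ, 0 < δ ∧ ∀ (J : Finset ℕ) (a b : ℕ → ℝ≥0),
    (∀ i ∈ J, a i ≤ b i ∧ b i ≤ T) →
    (∀ i ∈ J, ∀ j ∈ J, i ≠ j → Disjoint (Set.Ioo (a i) (b i)) (Set.Ioo (a j) (b j))) →
    ∑ i ∈ J, (C (b i) - C (a i)) < δ → ∑ i ∈ J, |A (b i) - A (a i)| < ε

lemma integrable_parts {f : ℝ → ℝ} (hf : Integrable f lam) (t : ℝ) :
    ∫ u in Set.Iic t, f u ∂lam =
      ∫ u in Set.Iic t, max (f u) 0 ∂lam - ∫ u in Set.Iic t, max (-f u) 0 ∂lam := by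
  rw [← integral_sub hf.pos_part.integrableOn hf.neg_part.integrableOn]
  refine integral_congr_ae (Eventually.of_forall fun u => ?_)
  simp only
  rcases le_total 0 (f u) with h | h
  · rw [max_eq_left h, max_eq_right (by linarith)]
    ring
  · rw [max_eq_right h, max_eq_left (by linarith)]
    ring

lemma mono_primitive {f : ℝ → ℝ} (hf : Integrable f lam) (h0 : ∀ u, 0 ≤ f u) :
    Monotone fun t : ℝ≥0 => ∫ u in Set.Iic (t : ℝ), f u ∂lam := by
  intro s t hst
  refine setIntegral_mono_set hf.integrableOn (Eventually.of_forall h0) ?_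
  exact (Set.Iic_subset_Iic.2 (by exact_mod_cast hst)).eventuallyLE

lemma bv_sub {g h : ℝ≥0 → ℝ} (hg : Monotone g) (hh : Monotone h) :
    LocallyBoundedVariationOn (fun t => g t - h t) Set.univ := by
  intro a b _ _
  refine ne_top_of_le_ne_top (b := ENNReal.ofReal (g b - g a + (h b - h a))) ENNReal.ofReal_ne_top ?_
  refine iSup_le ?_
  rintro ⟨n, u, hu, hs⟩
  simp only
  calc ∑ i ∈ range n, edist (g (u (i + 1)) - h (u (i + 1))) (g (u i) - h (u i))
      ≤ ∑ i ∈ range n, ENNReal.ofReal ((g (u (i + 1)) - g (u i)) + (h (u (i + 1)) - h (u i))) := by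
        refine sum_le_sum fun i _ => ?_
        rw [edist_dist, Real.dist_eq]
        refine ENNReal.ofReal_le_ofReal ?_
        have h1 := hg (hu (Nat.le_succ i))
        have h2 := hh (hu (Nat.le_succ i))
        simp only [Nat.succ_eq_add_one] at h1 h2
        rw [abs_le]
        constructor <;> linarith
    _ = ENNReal.ofReal (∑ i ∈ range n, ((g (u (i + 1)) - g (u i)) +
          (h (u (i + 1)) - h (u i)))) := by
        rw [ENNReal.ofReal_sum_of_nonneg]
        intro i _
        have h1 := hg (hu (Nat.le_succ i))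
        have h2 := hh (hu (Nat.le_succ i))
        simp only [Nat.succ_eq_add_one] at h1 h2
        linarith
    _ ≤ ENNReal.ofReal (g b - g a + (h b - h a)) := by
        refine ENNReal.ofReal_le_ofReal ?_
        rw [sum_add_distrib, sum_range_sub (fun i => g (u i)), sum_range_sub (fun i => h (u i))]
        have h1 := hg (hs n).2.2
        have h2 := hh (hs n).2.2
        have h3 := hg (hs 0).2.1
        have h4 := hh (hs 0).2.1
        linarith

/-- The difference of a monotone function and a primitive has bounded variation. -/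
lemma bv_primitive {g : ℝ≥0 → ℝ} (hg : Monotone g) {f : ℝ → ℝ} (hf : Integrable f lam) :
    LocallyBoundedVariationOn (fun t : ℝ≥0 => g t - ∫ u in Set.Iic (t : ℝ), f u ∂lam)
      Set.univ := by
  have h1 := mono_primitive hf.pos_part (fun u => le_max_right _ _)
  have h2 := mono_primitive hf.neg_part (fun u => le_max_right _ _)
  have e : (fun t : ℝ≥0 => g t - ∫ u in Set.Iic (t : ℝ), f u ∂lam) =
      fun t : ℝ≥0 => (g t + ∫ u in Set.Iic (t : ℝ), max (-f u) 0 ∂lam) -
        ∫ u in Set.Iic (t : ℝ), max (f u) 0 ∂lam := by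
    funext t
    rw [integrable_parts hf t]
    ring
  rw [e]
  exact bv_sub (hg.add h2) h1

lemma primitive_eq {f : ℝ → ℝ} (hf : Integrable f lam) {t : ℝ} (ht : 0 ≤ t) :
    ∫ u in Set.Iic t, f u ∂lam = ∫ u in (0 : ℝ)..t, f u ∂lam := by
  rw [intervalIntegral.integral_of_le ht, ← Set.Iic_union_Ioc_eq_Iic ht,
    setIntegral_union (Set.Iic_disjoint_Ioc le_rfl) measurableSet_Ioc hf.integrableOn
    hf.integrableOn]
  have h0 : ∫ u in Set.Iic (0 : ℝ), f u ∂lam = 0 := by
    refine setIntegral_measure_zero _ ?_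
    unfold lam
    rw [Measure.restrict_apply measurableSet_Iic]
    refine measure_mono_null (t := {0}) ?_ (by simp)
    intro x hx
    exact le_antisymm hx.1 hx.2.1
  rw [h0, zero_add]

lemma continuous_primitive' {f : ℝ → ℝ} (hf : Integrable f lam) :
    Continuous fun t : ℝ≥0 => ∫ u in Set.Iic (t : ℝ), f u ∂lam := by
  have : NullSingletonClass lam := by unfold lam; infer_instance
  have h1 : Continuous fun t : ℝ => ∫ u in (0 : ℝ)..t, f u ∂lam :=
    intervalIntegral.continuous_primitive (fun a b => hf.intervalIntegrable) 0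
  have e : (fun t : ℝ≥0 => ∫ u in Set.Iic (t : ℝ), f u ∂lam) =
      (fun t : ℝ => ∫ u in (0 : ℝ)..t, f u ∂lam) ∘ fun t : ℝ≥0 => (t : ℝ) := by
    funext t
    exact primitive_eq hf t.2
  rw [e]
  exact h1.comp NNReal.continuous_coe

lemma primitive_zero {f : ℝ → ℝ} (hf : Integrable f lam) :
    ∫ u in Set.Iic ((0 : ℝ≥0) : ℝ), f u ∂lam = 0 := by
  rw [NNReal.coe_zero, primitive_eq hf le_rfl, intervalIntegral.integral_same]

/-- The drift is not absolutely continuous. -/
theorem not_ac (φ : ℕ → Bool) {f : ℝ → ℝ} (hf : Integrable f lam) :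
    ¬ ACWrt (fun t : ℝ≥0 => V φ t - ∫ u in Set.Iic (t : ℝ), f u ∂lam) (fun t => t) := by
  intro h
  obtain ⟨δ, hδ, h1⟩ := h 1 (1 / 4) (by norm_num)
  have hfin : ∫⁻ u, ‖f u‖ₑ ∂lam ≠ ⊤ := hf.2.ne
  obtain ⟨δ', hδ', h2⟩ := exists_pos_setLIntegral_lt_of_measure_lt hfin
    (ε := ENNReal.ofReal (1 / 4)) (by simp)
  obtain ⟨d, hd0, hd1⟩ : ∃ d : ℝ, 0 < d ∧ ENNReal.ofReal d < δ' := by
    obtain ⟨r, hr0, hr1⟩ := ENNReal.lt_iff_exists_nnreal_btwn.1 hδ'
    exact ⟨r, by exact_mod_cast hr0, by rwa [ENNReal.ofReal_coe_nnreal]⟩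
  obtain ⟨n, J, hJ, hJ1, hJ2⟩ := singular φ (ε := min (δ / 2) d) (lt_min (by linarith) hd0)
  have hle : ∀ k, dt n k ≤ dt n (k + 1) := fun k => dt_mono n (Nat.le_succ k)
  have hlen : ∀ k, ((dt n (k + 1) : ℝ≥0) : ℝ) - dt n k = 1 / 2 ^ n := by
    intro k
    rw [dt_coe, dt_coe]
    push_cast
    ring
  have hdis : ∀ i ∈ J, ∀ j ∈ J, i ≠ j →
      Disjoint (Set.Ioc (dt n i : ℝ) (dt n (i + 1))) (Set.Ioc (dt n j : ℝ) (dt n (j + 1))) := by
    intro i _ j _ hij
    rw [Set.disjoint_left]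
    intro x hx hy
    rcases lt_or_gt_of_ne hij with h3 | h3
    · have h4 : dt n (i + 1) ≤ dt n j := dt_mono n h3
      have h5 : ((dt n (i + 1) : ℝ≥0) : ℝ) ≤ dt n j := by exact_mod_cast h4
      linarith [hx.2, hy.1]
    · have h4 : dt n (j + 1) ≤ dt n i := dt_mono n h3
      have h5 : ((dt n (j + 1) : ℝ≥0) : ℝ) ≤ dt n i := by exact_mod_cast h4
      linarith [hx.1, hy.2]
  have h3 := h1 J (fun k => dt n k) (fun k => dt n (k + 1)) ?_ ?_ ?_
  · -- contradiction
    set E : Set ℝ := ⋃ k ∈ J, Set.Ioc (dt n k : ℝ) (dt n (k + 1)) with hE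
    have hEm : lam E < δ' := by
      refine lt_of_le_of_lt ?_ hd1
      calc lam E ≤ volume E := Measure.restrict_apply_le _ _
        _ ≤ ∑ k ∈ J, volume (Set.Ioc (dt n k : ℝ) (dt n (k + 1))) := measure_biUnion_finset_le _ _
        _ = ∑ k ∈ J, ENNReal.ofReal (1 / 2 ^ n) := by
            refine sum_congr rfl fun k _ => ?_
            rw [Real.volume_Ioc, hlen]
        _ = ENNReal.ofReal (J.card / 2 ^ n) := by
            rw [← ENNReal.ofReal_sum_of_nonneg (fun _ _ => by positivity), sum_const,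
              nsmul_eq_mul]
            congr 1
            ring
        _ ≤ ENNReal.ofReal d := ENNReal.ofReal_le_ofReal (hJ1.trans (min_le_right _ _))
    have h4 := h2 E hEm
    have h5 : ∫ u in E, ‖f u‖ ∂lam < 1 / 4 := by
      rw [integral_norm_eq_lintegral_enorm hf.aestronglyMeasurable.restrict]
      exact ENNReal.toReal_lt_of_lt_ofReal h4
    have h6 : ∑ k ∈ J, |(∫ u in Set.Iic ((dt n (k + 1) : ℝ≥0) : ℝ), f u ∂lam) -
        ∫ u in Set.Iic (dt n k : ℝ), f u ∂lam| ≤ ∫ u in E, ‖f u‖ ∂lam := by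
      rw [hE, integral_biUnion_finset _ (fun k _ => measurableSet_Ioc)
        (fun i hi j hj hij => hdis i hi j hj hij) (fun k _ => hf.norm.integrableOn)]
      refine sum_le_sum fun k _ => ?_
      have hk : ((dt n k : ℝ≥0) : ℝ) ≤ dt n (k + 1) := by exact_mod_cast hle k
      rw [← Set.Iic_union_Ioc_eq_Iic hk, setIntegral_union (Set.Iic_disjoint_Ioc le_rfl)
        measurableSet_Ioc hf.integrableOn hf.integrableOn, add_sub_cancel_left]
      exact norm_integral_le_integral_norm (μ := lam.restrict (Set.Ioc (dt n k : ℝ) (dt n (k + 1)))) f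
    have h7 : ∑ k ∈ J, (V φ (dt n (k + 1)) - V φ (dt n k)) = ∑ k ∈ J, w φ n k / 2 ^ n := by
      refine sum_congr rfl fun k _ => ?_
      rw [dt_coe, dt_coe, V_dyadic, V_dyadic, S_succ_sub]
    have h8 : ∑ k ∈ J, (V φ (dt n (k + 1)) - V φ (dt n k)) ≤
        ∑ k ∈ J, |V φ (dt n (k + 1)) - (∫ u in Set.Iic ((dt n (k + 1) : ℝ≥0) : ℝ), f u ∂lam) -
          (V φ (dt n k) - ∫ u in Set.Iic (dt n k : ℝ), f u ∂lam)| +
        ∑ k ∈ J, |(∫ u in Set.Iic ((dt n (k + 1) : ℝ≥0) : ℝ), f u ∂lam) -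
          ∫ u in Set.Iic (dt n k : ℝ), f u ∂lam| := by
      rw [← sum_add_distrib]
      refine sum_le_sum fun k _ => ?_
      refine le_trans (le_abs_self _) ((abs_add_le _ _).trans' (le_of_eq ?_))
      congr 1
      ring
    linarith
  · intro k hk
    refine ⟨hle k, ?_⟩
    have hk' := mem_range.1 (hJ hk)
    rw [← NNReal.coe_le_coe, dt_coe, div_le_iff₀ (by positivity)]
    simp only [NNReal.coe_one, one_mul]
    exact_mod_cast hk'
  · intro i hi j hj hij
    rw [Set.disjoint_left]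
    intro x hx hy
    exact Set.disjoint_left.1 (hdis i hi j hj hij)
      (show (x : ℝ) ∈ Set.Ioc (dt n i : ℝ) (dt n (i + 1)) from
        ⟨by exact_mod_cast hx.1, by exact_mod_cast hx.2.le⟩)
      ⟨by exact_mod_cast hy.1, by exact_mod_cast hy.2.le⟩
  · simp_rw [hlen]
    rw [sum_const, nsmul_eq_mul, mul_one_div]
    calc (J.card : ℝ) / 2 ^ n ≤ min (δ / 2) d := hJ1
      _ ≤ δ / 2 := min_le_left _ _
      _ < δ := by linarith

end Pool.Agent.T2H99.RG
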