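import Pool.Agent.T2H99.RG.T

/-!
Quadratic variation along partitions.
-/

set_option autoImplicit false

open MeasureTheory ProbabilityTheory Finset Filter
open scoped ENNReal NNReal Topology

namespace Pool.Agent.T2H99.RG

/-- `C` is the quadratic variation of `X`: along every sequence of partitions of `[0, t]` whose mesh
tends to zero, the sums of the squared increments converge in probability to `C t`. -/
def IsQV {Ω : Type*} {mΩ : MeasurableSpace Ω} (P : Measure Ω) (X C : ℝ≥0 → Ω → ℝ) : Prop :=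
  ∀ (t : ℝ≥0) (u : ℕ → ℕ → ℝ≥0) (K : ℕ → ℕ), (∀ n, Monotone (u n)) → (∀ n, u n 0 = 0) →
    (∀ n, u n (K n) = t) →
    (∀ ε : ℝ, 0 < ε → ∀ᶠ n in atTop, ∀ k < K n, (u n (k + 1) : ℝ) - u n k < ε) →
    TendstoInMeasure P
      (fun n ω => ∑ k ∈ range (K n), (X (u n (k + 1)) ω - X (u n k) ω) ^ 2) atTop (C t)

lemma gauss_sq (v : ℝ≥0) : ∫ x, x ^ 2 ∂(gaussianReal 0 v) = v := by
  have h := variance_id_gaussianReal (μ := 0) (v := v)
  rw [variance_eq_sub (memLp_id_gaussianReal' 2 (by simp))] at h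
  simpa using h

lemma gauss_four (v : ℝ≥0) : ∫ x, x ^ 4 ∂(gaussianReal 0 v) =
    (v : ℝ) ^ 2 * ∫ x, x ^ 4 ∂(gaussianReal 0 1) := by
  have h1 : (gaussianReal 0 1).map (fun x => √(v : ℝ) * x) = gaussianReal 0 v := by
    rw [gaussianReal_map_const_mul]
    congr 1
    · simp
    · ext
      simp
  rw [← h1, integral_map (by fun_prop) (by fun_prop), ← integral_const_mul]
  refine integral_congr_ae (Eventually.of_forall fun x => ?_)
  simp only
  rw [mul_pow]
  congr 1
  have : √(v : ℝ) ^ 4 = (√(v : ℝ) ^ 2) ^ 2 := by ring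
  rw [this, Real.sq_sqrt (NNReal.coe_nonneg v)]

lemma memLp_sq_gauss (v : ℝ≥0) : MemLp (fun x : ℝ => x ^ 2) 2 (gaussianReal 0 v) := by
  have h := memLp_id_gaussianReal' (μ := 0) (v := v) 4 (by simp)
  rw [memLp_two_iff_integrable_sq (by fun_prop)]
  have h2 := h.integrable_norm_pow (p := 4) (by norm_num)
  refine h2.congr (Eventually.of_forall fun x => ?_)
  simp only [id, Real.norm_eq_abs]
  rw [← pow_mul, ← abs_pow, abs_of_nonneg (by positivity)]

lemma var_sq_gauss (v : ℝ≥0) : Var[fun x => x ^ 2; gaussianReal 0 v] ≤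
    (v : ℝ) ^ 2 * ∫ x, x ^ 4 ∂(gaussianReal 0 1) := by
  rw [← gauss_four]
  refine (variance_le_expectation_sq (memLp_sq_gauss v).aestronglyMeasurable).trans (le_of_eq ?_)
  refine integral_congr_ae (Eventually.of_forall fun x => ?_)
  simp only [Pi.pow_apply]
  ring

variable {Ω : Type*} {mΩ : MeasurableSpace Ω} {P : Measure Ω} {W : ℝ≥0 → Ω → ℝ}
  [IsProbabilityMeasure P]

omit [IsProbabilityMeasure P] in
lemma map_incr (hW : NiceBM P W) {s t : ℝ≥0} (h : s ≤ t) :
    P.map (fun ω => W t ω - W s ω) = gaussianReal 0 (t - s) := by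
  have h1 := (hW.bm.hasLaw_sub t s).map_eq
  have e : nndist t.1 s.1 = t - s := by
    apply NNReal.eq
    have h' : (s : ℝ) ≤ t := by exact_mod_cast h
    rw [coe_nndist, Real.dist_eq, NNReal.coe_sub h]
    change |(t : ℝ) - s| = _
    rw [abs_of_nonneg (sub_nonneg.2 h')]
  rw [e] at h1
  exact h1

lemma qv_bound (hW : NiceBM P W) {u : ℕ → ℝ≥0} (hu : Monotone u) (K : ℕ) (h0 : u 0 = 0) {ε : ℝ}
    (hε : 0 < ε) :
    P {ω | ε ≤ |∑ k ∈ range K, (W (u (k + 1)) ω - W (u k) ω) ^ 2 - u K|} ≤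
      ENNReal.ofReal ((∑ k ∈ range K, ((u (k + 1) : ℝ) - u k) ^ 2) *
        (∫ x, x ^ 4 ∂(gaussianReal 0 1)) / ε ^ 2) := by
  set Y : ℕ → Ω → ℝ := fun k ω => (W (u (k + 1)) ω - W (u k) ω) ^ 2 with hY
  have hstep : ∀ k, u k ≤ u (k + 1) := fun k => hu (Nat.le_succ k)
  have hmeas : ∀ k, Measurable fun ω => W (u (k + 1)) ω - W (u k) ω := fun k =>
    (hW.meas _).sub (hW.meas _)
  have hLp : ∀ k, MemLp (Y k) 2 P := by
    intro k
    have h1 := memLp_sq_gauss (u (k + 1) - u k)
    rw [← map_incr hW (hstep k)] at h1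
    exact (memLp_map_measure_iff (by fun_prop) (hmeas k).aemeasurable).1 h1
  have hind : iIndepFun Y P := by
    have h1 := hW.bm.hasIndepIncrements.nat hu
    exact h1.comp (fun _ x => x ^ 2) (fun _ => by fun_prop)
  have hE : ∀ k, ∫ ω, Y k ω ∂P = (u (k + 1) : ℝ) - u k := by
    intro k
    have h1 := gauss_sq (u (k + 1) - u k)
    rw [← map_incr hW (hstep k), integral_map (hmeas k).aemeasurable (by fun_prop)] at h1
    rw [NNReal.coe_sub (hstep k)] at h1
    exact h1
  have hV : ∀ k, Var[Y k; P] ≤ ((u (k + 1) : ℝ) - u k) ^ 2 * ∫ x, x ^ 4 ∂(gaussianReal 0 1) := by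
    intro k
    have h1 := var_sq_gauss (u (k + 1) - u k)
    rw [← map_incr hW (hstep k), variance_map (by fun_prop) (hmeas k).aemeasurable,
      NNReal.coe_sub (hstep k)] at h1
    exact h1
  have hsum : Var[∑ k ∈ range K, Y k; P] = ∑ k ∈ range K, Var[Y k; P] :=
    IndepFun.variance_sum (fun k _ => hLp k) fun i _ j _ hij => hind.indepFun hij
  have hSLp : MemLp (∑ k ∈ range K, Y k) 2 P := memLp_finsetSum' _ fun k _ => hLp k
  have hES : ∫ ω, (∑ k ∈ range K, Y k) ω ∂P = u K := by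
    simp_rw [Finset.sum_apply]
    rw [integral_finsetSum _ fun k _ => (hLp k).integrable (by norm_num)]
    simp_rw [hE]
    rw [sum_range_sub (fun k => (u k : ℝ)), h0]
    simp
  have h1 := meas_ge_le_variance_div_sq hSLp hε
  rw [hES, hsum] at h1
  have e : {ω | ε ≤ |∑ k ∈ range K, (W (u (k + 1)) ω - W (u k) ω) ^ 2 - u K|} =
      {ω | ε ≤ |(∑ k ∈ range K, Y k) ω - u K|} := by
    ext ω
    simp only [Finset.sum_apply]
    rfl
  rw [e]
  refine h1.trans (ENNReal.ofReal_le_ofReal ?_)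
  refine div_le_div_of_nonneg_right ?_ (by positivity)
  rw [sum_mul]
  exact sum_le_sum fun k _ => hV k

theorem qv_W (hW : NiceBM P W) : IsQV P W (fun t _ => (t : ℝ)) := by
  intro t u K hu h0 hK hmesh
  rw [tendstoInMeasure_iff_dist]
  intro ε hε
  set κ : ℝ := ∫ x, x ^ 4 ∂(gaussianReal 0 1) with hκ
  have hκ0 : 0 ≤ κ := integral_nonneg fun x => by positivity
  have hb : ∀ n, P {ω | ε ≤ dist (∑ k ∈ range (K n), (W (u n (k + 1)) ω - W (u n k) ω) ^ 2)
      (t : ℝ)} ≤ ENNReal.ofReal ((∑ k ∈ range (K n), ((u n (k + 1) : ℝ) - u n k) ^ 2) *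
        κ / ε ^ 2) := by
    intro n
    have := qv_bound hW (hu n) (K n) (h0 n) hε
    rw [hK n] at this
    exact this
  refine tendsto_of_tendsto_of_tendsto_of_le_of_le tendsto_const_nhds ?_ (fun _ => zero_le) hb
  have h1 : Tendsto (fun n => (∑ k ∈ range (K n), ((u n (k + 1) : ℝ) - u n k) ^ 2) *
      κ / ε ^ 2) atTop (𝓝 0) := by
    have h2 : Tendsto (fun n => ∑ k ∈ range (K n), ((u n (k + 1) : ℝ) - u n k) ^ 2) atTop
        (𝓝 0) := by
      rw [Metric.tendsto_atTop]
      intro η hη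
      obtain ⟨N, hN⟩ := eventually_atTop.1 (hmesh (η / (t + 1)) (by positivity))
      refine ⟨N, fun n hn => ?_⟩
      have h3 : ∀ k, 0 ≤ (u n (k + 1) : ℝ) - u n k := fun k =>
        sub_nonneg.2 (by exact_mod_cast hu n (Nat.le_succ k))
      have h4 : ∑ k ∈ range (K n), ((u n (k + 1) : ℝ) - u n k) ^ 2 ≤
          ∑ k ∈ range (K n), (η / (t + 1)) * ((u n (k + 1) : ℝ) - u n k) := by
        refine sum_le_sum fun k hk => ?_
        rw [sq]
        exact mul_le_mul_of_nonneg_right (hN n hn k (mem_range.1 hk)).le (h3 k)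
      rw [← mul_sum, sum_range_sub (fun k => (u n k : ℝ)), hK n, h0 n] at h4
      rw [Real.dist_eq, sub_zero, abs_of_nonneg (sum_nonneg fun k _ => sq_nonneg _)]
      refine h4.trans_lt ?_
      simp only [NNReal.coe_zero, sub_zero]
      rw [div_mul_eq_mul_div, div_lt_iff₀ (by positivity)]
      exact mul_lt_mul_of_pos_left (by linarith) hη
    have h5 := (h2.mul_const κ).div_const (ε ^ 2)
    simpa using h5
  have h6 := ENNReal.tendsto_ofReal h1
  rwa [ENNReal.ofReal_zero] at h6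

/-- Adding a continuous process of finite variation does not change the quadratic variation. -/
theorem IsQV.add_bv {Ω : Type*} {mΩ : MeasurableSpace Ω} {P : Measure Ω} [IsFiniteMeasure P]
    {X A C : ℝ≥0 → Ω → ℝ} (hX : IsQV P X C) (hXc : ∀ ω, Continuous fun t => X t ω)
    (hAc : ∀ ω, Continuous fun t => A t ω)
    (hXm : ∀ t, Measurable (X t)) (hAm : ∀ t, Measurable (A t))
    (hbv : ∀ ω, LocallyBoundedVariationOn (fun t => A t ω) Set.univ) :
    IsQV P (fun t ω => X t ω + A t ω) C := by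
  intro t u K hu h0 hK hmesh
  have h1 := hX t u K hu h0 hK hmesh
  set H : ℕ → Ω → ℝ := fun n ω => ∑ k ∈ range (K n),
    (2 * (X (u n (k + 1)) ω - X (u n k) ω) * (A (u n (k + 1)) ω - A (u n k) ω) +
      (A (u n (k + 1)) ω - A (u n k) ω) ^ 2) with hH
  have hHm : ∀ n, Measurable (H n) := by
    intro n
    refine Finset.measurable_sum _ fun k _ => ?_
    exact ((((hXm _).sub (hXm _)).const_mul 2).mul ((hAm _).sub (hAm _))).add
      (((hAm _).sub (hAm _)).pow_const 2)
  have hH0 : ∀ ω, Tendsto (fun n => H n ω) atTop (𝓝 0) := by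
    intro ω
    have hc : IsCompact (Set.Icc (0 : ℝ≥0) t) := isCompact_Icc
    have hXu := hc.uniformContinuousOn_of_continuous (hXc ω).continuousOn
    have hAu := hc.uniformContinuousOn_of_continuous (hAc ω).continuousOn
    set Vr : ℝ := (eVariationOn (fun t => A t ω) (Set.univ ∩ Set.Icc 0 t)).toReal with hVr
    have hVfin : eVariationOn (fun t => A t ω) (Set.univ ∩ Set.Icc 0 t) ≠ ⊤ :=
      hbv ω 0 t trivial trivial
    rw [Metric.uniformContinuousOn_iff] at hXu hAu
    rw [Metric.tendsto_atTop]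
    intro η hη
    have hVr0 : 0 ≤ Vr := ENNReal.toReal_nonneg
    set θ : ℝ := η / (3 * (Vr + 1)) with hθ
    have hθ0 : 0 < θ := by positivity
    obtain ⟨δ1, hδ1, hx⟩ := hXu θ hθ0
    obtain ⟨δ2, hδ2, ha⟩ := hAu θ hθ0
    obtain ⟨N, hN⟩ := eventually_atTop.1 (hmesh (min δ1 δ2) (lt_min hδ1 hδ2))
    refine ⟨N, fun n hn => ?_⟩
    have hmem : ∀ k ≤ K n, u n k ∈ Set.Icc (0 : ℝ≥0) t := by
      intro k hk
      refine ⟨zero_le, ?_⟩
      rw [← hK n]
      exact hu n hk
    have hvar : ∑ k ∈ range (K n), |A (u n (k + 1)) ω - A (u n k) ω| ≤ Vr := by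
      have h2 := eVariationOn.sum_le_of_monotoneOn_Iic (f := fun t => A t ω)
        (s := Set.univ ∩ Set.Icc 0 t) (n := K n) (u := u n) ((hu n).monotoneOn _)
        (fun i hi => ⟨trivial, hmem i hi⟩)
      have h3 := ENNReal.toReal_mono hVfin h2
      rw [ENNReal.toReal_sum (fun i _ => edist_ne_top _ _)] at h3
      refine le_trans (le_of_eq ?_) h3
      refine sum_congr rfl fun k _ => ?_
      rw [edist_dist, ENNReal.toReal_ofReal dist_nonneg, Real.dist_eq]
    rw [Real.dist_eq, sub_zero]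
    have hterm : ∀ k ∈ range (K n),
        |2 * (X (u n (k + 1)) ω - X (u n k) ω) * (A (u n (k + 1)) ω - A (u n k) ω) +
          (A (u n (k + 1)) ω - A (u n k) ω) ^ 2| ≤
        3 * θ * |A (u n (k + 1)) ω - A (u n k) ω| := by
      intro k hk
      have hk' := mem_range.1 hk
      have h4 : dist (u n (k + 1)) (u n k) < min δ1 δ2 := by
        rw [NNReal.dist_eq, abs_of_nonneg (sub_nonneg.2 (by exact_mod_cast hu n (Nat.le_succ k)))]
        exact hN n hn k hk'
      have h5 := hx _ (hmem (k + 1) hk') _ (hmem k hk'.le) (h4.trans_le (min_le_left _ _))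
      have h6 := ha _ (hmem (k + 1) hk') _ (hmem k hk'.le) (h4.trans_le (min_le_right _ _))
      rw [Real.dist_eq] at h5 h6
      refine (abs_add_le _ _).trans ?_
      rw [abs_mul, abs_mul, abs_pow, sq, abs_two]
      have h7 := abs_nonneg (A (u n (k + 1)) ω - A (u n k) ω)
      nlinarith
    calc |H n ω| ≤ ∑ k ∈ range (K n),
          |2 * (X (u n (k + 1)) ω - X (u n k) ω) * (A (u n (k + 1)) ω - A (u n k) ω) +
          (A (u n (k + 1)) ω - A (u n k) ω) ^ 2| := abs_sum_le_sum_abs _ _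
      _ ≤ ∑ k ∈ range (K n), 3 * θ * |A (u n (k + 1)) ω - A (u n k) ω| := sum_le_sum hterm
      _ = 3 * θ * ∑ k ∈ range (K n), |A (u n (k + 1)) ω - A (u n k) ω| := by rw [mul_sum]
      _ ≤ 3 * θ * Vr := mul_le_mul_of_nonneg_left hvar (by positivity)
      _ < η := by
          rw [hθ]
          have : 3 * (η / (3 * (Vr + 1))) * Vr = η * (Vr / (Vr + 1)) := by field_simp
          rw [this]
          have h8 : Vr / (Vr + 1) < 1 := (div_lt_one (by positivity)).2 (by linarith)
          nlinarith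
  have h2 : TendstoInMeasure P H atTop (fun _ => (0 : ℝ)) :=
    tendstoInMeasure_of_tendsto_ae (fun n => (hHm n).aestronglyMeasurable)
      (Eventually.of_forall hH0)
  rw [tendstoInMeasure_iff_dist] at h1 h2 ⊢
  intro ε hε
  have h3 := (h1 (ε / 2) (by linarith)).add (h2 (ε / 2) (by linarith))
  rw [add_zero] at h3
  refine tendsto_of_tendsto_of_tendsto_of_le_of_le tendsto_const_nhds h3 (fun _ => zero_le) ?_
  intro n
  refine le_trans (measure_mono ?_) (measure_union_le _ _)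
  intro ω hω
  by_contra hcon
  simp only [Set.mem_union, Set.mem_ofPred_eq, not_or, not_le] at hcon hω
  obtain ⟨h4, h5⟩ := hcon
  have e : ∑ k ∈ range (K n), (X (u n (k + 1)) ω + A (u n (k + 1)) ω -
      (X (u n k) ω + A (u n k) ω)) ^ 2 =
      ∑ k ∈ range (K n), (X (u n (k + 1)) ω - X (u n k) ω) ^ 2 + H n ω := by
    rw [hH, ← sum_add_distrib]
    refine sum_congr rfl fun k _ => ?_
    ring
  rw [e] at hω
  rw [Real.dist_eq] at h4 h5 hω
  rw [sub_zero] at h5
  have h6 : |∑ k ∈ range (K n), (X (u n (k + 1)) ω - X (u n k) ω) ^ 2 + H n ω - C t ω| ≤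
      |∑ k ∈ range (K n), (X (u n (k + 1)) ω - X (u n k) ω) ^ 2 - C t ω| + |H n ω| := by
    refine le_trans (le_of_eq ?_) (abs_add_le _ _)
    congr 1
    ring
  linarith

end Pool.Agent.T2H99.RG
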