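import Pool.Agent.T2H99.RG.U

/-!
Assembly on the completed space.
-/

set_option autoImplicit false

open MeasureTheory ProbabilityTheory Finset Filter
open scoped ENNReal NNReal Topology

namespace Pool.Agent.T2H99.RG

variable {Ω : Type*} {mΩ : MeasurableSpace Ω} {P : Measure Ω} {W : ℝ≥0 → Ω → ℝ}
  [IsProbabilityMeasure P]

open Classical in
/-- The drift density, made integrable on every path. -/
noncomputable def fb (hW : NiceBM P W) (p : (ℕ → Bool) × Ω) : ℝ → ℝ :=
  if Integrable (fun u => bl hW (p, u)) lam then fun u => bl hW (p, u) else 0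

omit [IsProbabilityMeasure P] in
lemma integrable_fb (hW : NiceBM P W) (p : (ℕ → Bool) × Ω) : Integrable (fb hW p) lam := by
  unfold fb
  split_ifs with h
  · exact h
  · exact integrable_zero _ _ _

/-- The finite variation part. -/
noncomputable def AA (hW : NiceBM P W) (t : ℝ≥0) (p : (ℕ → Bool) × Ω) : ℝ :=
  V p.1 t - ∫ u in Set.Iic (t : ℝ), fb hW p u ∂lam

omit [IsProbabilityMeasure P] in
lemma AA_cont (hW : NiceBM P W) (p : (ℕ → Bool) × Ω) : Continuous fun t => AA hW t p :=
  (V_continuousOn p.1).sub (continuous_primitive' (integrable_fb hW p))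

omit [IsProbabilityMeasure P] in
lemma AA_zero (hW : NiceBM P W) (p : (ℕ → Bool) × Ω) : AA hW 0 p = 0 := by
  unfold AA
  rw [primitive_zero (integrable_fb hW p), NNReal.coe_zero, V_zero, sub_zero]

omit [IsProbabilityMeasure P] in
lemma AA_bv (hW : NiceBM P W) (p : (ℕ → Bool) × Ω) :
    LocallyBoundedVariationOn (fun t => AA hW t p) Set.univ :=
  bv_primitive (g := fun t : ℝ≥0 => V p.1 t)
    (fun s t hst => V_mono p.1 (by exact_mod_cast hst)) (integrable_fb hW p)

omit [IsProbabilityMeasure P] in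
lemma AA_not_ac (hW : NiceBM P W) (p : (ℕ → Bool) × Ω) :
    ¬ ACWrt (fun t => AA hW t p) (fun t => (t : ℝ)) :=
  not_ac p.1 (integrable_fb hW p)

lemma AA_ae (hW : NiceBM P W) (t : ℝ≥0) :
    AA hW t =ᵐ[signs.prod P] fun p => V p.1 t - DI hW t p := by
  filter_upwards [DI_sub hW] with p hp
  unfold AA fb DI
  rw [if_pos hp]

lemma AA_meas (hW : NiceBM P W) (t : ℝ≥0) :
    Measurable[cfil (GG hW) (signs.prod P) t] (AA hW t) := by
  refine measurable_cfil ?_ (AA_ae hW t)
  exact (measurable_V_GG hW t t).sub ((measurable_DI hW t).mono (FB_le_GG hW t) le_rfl)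

/-- The martingale. -/
noncomputable def MF (hW : NiceBM P W) (t : ℝ≥0) (p : (ℕ → Bool) × Ω) : ℝ :=
  W t p.2 + AA hW t p

lemma MF_ae (hW : NiceBM P W) (t : ℝ≥0) : MF hW t =ᵐ[signs.prod P] MM hW t := by
  filter_upwards [AA_ae hW t] with p hp
  unfold MF MM BB
  rw [hp]
  ring

lemma MF_mart (hW : NiceBM P W) :
    Martingale (MF hW) (cfil (FB hW) (signs.prod P)) (cmu (signs.prod P)) :=
  martingale_completion (FB hW) (measurable_MM hW) (integrable_MM hW) (setIntegral_MM hW) (MF_ae hW)

lemma W_mart (hW : NiceBM P W) :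
    Martingale (fun t (p : (ℕ → Bool) × Ω) => W t p.2) (cfil (GG hW) (signs.prod P))
      (cmu (signs.prod P)) :=
  martingale_completion (GG hW) (X := fun t (p : (ℕ → Bool) × Ω) => W t p.2)
    (fun t => measurable_W_GG hW le_rfl) (integrable_W hW) (setIntegral_W hW)
    (fun _ => EventuallyEq.rfl)

lemma W_qv (hW : NiceBM P W) :
    IsQV (cmu (signs.prod P)) (fun t (p : (ℕ → Bool) × Ω) => W t p.2) (fun t _ => (t : ℝ)) := by
  intro t u K hu h0 hK hmesh
  have h1 := qv_W hW t u K hu h0 hK hmesh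
  rw [tendstoInMeasure_iff_dist] at h1 ⊢
  intro ε hε
  refine (h1 ε hε).congr fun n => ?_
  have hm : MeasurableSet {ω | ε ≤ dist (∑ k ∈ range (K n), (W (u n (k + 1)) ω - W (u n k) ω) ^ 2)
      (t : ℝ)} := by
    refine measurableSet_le measurable_const ?_
    refine Measurable.dist ?_ measurable_const
    exact Finset.measurable_sum _ fun k _ => ((hW.meas _).sub (hW.meas _)).pow_const 2
  have h2 := (measurePreserving_snd (μ := signs) (ν := P)).measure_preimage hm.nullMeasurableSet
  rw [cmu_apply, ← h2]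
  rfl

lemma MF_qv (hW : NiceBM P W) :
    IsQV (cmu (signs.prod P)) (MF hW) (fun t _ => (t : ℝ)) := by
  have h := IsQV.add_bv (P := cmu (signs.prod P)) (A := AA hW) (W_qv hW)
    (fun p => hW.cont p.2) (AA_cont hW)
    (fun t => ((hW.meas t).comp measurable_snd).mono le_mc le_rfl)
    (fun t => (AA_meas hW t).mono ((cfil (GG hW) (signs.prod P)).le t) le_rfl) (AA_bv hW)
  exact h

end Pool.Agent.T2H99.RG
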